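import Pool.Agent.Lib_helper64.HYB.HG
import Pool.Agent.Lib_helper93.QSim.Tree

/-!
# Hybrid algorithms: classical simulation on most inputs

Written by helper93.
-/

set_option autoImplicit false
set_option linter.unusedSectionVars false

open Finset

namespace Pool.Agent.HYB

open Pool.Agent.Lib_helper8.QAA
open Pool.Agent.Lib_helper93.QSim (DTree pr sim_of_compE)

variable {I : Type} [Fintype I] [DecidableEq I]

/-- the expected number of coordinates in the set of the transcript -/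
theorem sim_sum_hit {Ω : Type} [Fintype Ω] {Ψ : (I → Bool) → EuclideanSpace ℂ Ω}
    {Q : Ω → Finset I} {W : ℝ} (hn : ∀ x, ‖Ψ x‖ = 1) (hQ : ∀ τ, ((Q τ).card : ℝ) ≤ W) :
    ∑ i, ex (hit Ψ Q i) ≤ W := by
  classical
  have h1 : ∀ x, ∑ i, hit Ψ Q i x ≤ W := by
    intro x
    unfold hit
    rw [Finset.sum_comm]
    have h2 : ∀ τ, ∑ i, (if i ∈ Q τ then ‖Ψ x τ‖ ^ 2 else 0) = ((Q τ).card : ℝ) * ‖Ψ x τ‖ ^ 2 := by
      intro τ
      rw [← Finset.sum_filter, Finset.sum_const, nsmul_eq_mul]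
      congr 3
      ext i
      simp
    calc ∑ τ, ∑ i, (if i ∈ Q τ then ‖Ψ x τ‖ ^ 2 else 0) = ∑ τ, ((Q τ).card : ℝ) * ‖Ψ x τ‖ ^ 2 :=
          Finset.sum_congr rfl fun τ _ => h2 τ
      _ ≤ ∑ τ, W * ‖Ψ x τ‖ ^ 2 :=
          Finset.sum_le_sum fun τ _ => mul_le_mul_of_nonneg_right (hQ τ) (by positivity)
      _ = W * ‖Ψ x‖ ^ 2 := by rw [← Finset.mul_sum, EuclideanSpace.norm_sq_eq]
      _ = W := by rw [hn x]; ring
  have h3 : ∑ i, ex (hit Ψ Q i) = ex (fun x => ∑ i, hit Ψ Q i x) := by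
    rw [ex_sum]
  rw [h3]
  calc ex (fun x => ∑ i, hit Ψ Q i x) ≤ ex (fun _ => W) := ex_mono h1
    _ = W := ex_const W

/-- Simulation of tame families. -/
theorem sim_tame {Ω : Type} [Fintype Ω] {Ψ : (I → Bool) → EuclideanSpace ℂ Ω} {Q : Ω → Finset I}
    {M : (I → Bool) → ℝ} {κ b : ℝ} (hT : Tame Ψ Q M κ b) {g : Ω → ℝ} (hg0 : ∀ τ, 0 ≤ g τ)
    (hg1 : ∀ τ, g τ ≤ 1) {W ε δ : ℝ} (hW : 0 < W) (hQ : ∀ τ, ((Q τ).card : ℝ) ≤ W)
    (hε : 0 < ε) (hδ : 0 < δ) (hs : 2 ^ 14 * (κ * b ^ 2 * ex M) ≤ ε ^ 4 * δ ^ 2) :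
    ∃ t : DTree I ℝ, (t.depth : ℝ) ≤ 8 * W ^ 2 / (ε ^ 2 * δ ^ 2) ∧
      pr {x | ε < |val Ψ g x - t.eval x|} ≤ δ := by
  set θ : ℝ := ε ^ 2 * δ / (4 * W) with hθ
  have hθ0 : 0 < θ := by positivity
  obtain ⟨t, h1, -, h3, -⟩ := tame_tree hθ0 hg0 hg1 (Finset.univ.biUnion Q).card Ψ Q M hT le_rfl
  have hS : ∑ i, ex (hit Ψ Q i) ≤ W := sim_sum_hit hT.norm_eq hQ
  set Sg := ∑ i, ex (hit Ψ Q i) with hSg
  have h4 : √(κ * b ^ 2 * ex M) ≤ ε ^ 2 * δ / 128 := by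
    apply Real.sqrt_le_iff.mpr
    refine ⟨by positivity, ?_⟩
    have : (ε ^ 2 * δ / 128) ^ 2 = ε ^ 4 * δ ^ 2 / 2 ^ 14 := by ring
    rw [this, le_div_iff₀ (by norm_num)]
    linarith
  have h5 : ex (fun x => (val Ψ g x - t x) ^ 2) ≤ ε ^ 2 * δ / 2 := by
    refine h3.trans ?_
    have h6 : θ * Sg ≤ ε ^ 2 * δ / 4 := by
      calc θ * Sg ≤ θ * W := by gcongr
        _ = ε ^ 2 * δ / 4 := by rw [hθ]; field_simp
    linarith
  set K : ℝ := W / θ with hK
  have hK0 : 0 < K := by positivity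
  have h7 : CompE K t := compE_mono h1 (by rw [hK]; gcongr)
  obtain ⟨s, hs1, hs2⟩ := sim_of_compE h7 h5 hε ⌊2 * K / δ⌋₊
  refine ⟨s, ?_, hs2.trans ?_⟩
  · have h8 : (s.depth : ℝ) ≤ 2 * K / δ :=
      le_trans (by exact_mod_cast hs1) (Nat.floor_le (by positivity))
    refine h8.trans (le_of_eq ?_)
    rw [hK, hθ]
    field_simp
    ring
  · have h8 : 2 * K / δ < (⌊2 * K / δ⌋₊ : ℝ) + 1 := Nat.lt_floor_add_one _
    have h9 : ε ^ 2 * δ / 2 / ε ^ 2 = δ / 2 := by field_simp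
    have h10 : K / ((⌊2 * K / δ⌋₊ : ℝ) + 1) ≤ δ / 2 := by
      rw [div_le_iff₀ (by positivity)]
      rw [div_lt_iff₀ hδ] at h8
      linarith
    linarith

section hybrid

variable {A E : Type} [Fintype A] [Fintype E] {p : ℕ}

/-- Classical simulation of hybrid algorithms, general form. -/
theorem sim_general (H : Hybrid I A E p) (R T : ℕ) (J : List A → Finset I) {W ε δ : ℝ}
    (hW0 : 0 < W) (hW : ∀ h, ((J h).card : ℝ) ≤ W) (hε : 0 < ε) (hδ : 0 < δ)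
    (hs : 2 ^ 14 * ((T * R) ^ 3 * p ^ 2 * ex (H.light R J T [])) ≤ ε ^ 4 * δ ^ 2) :
    ∃ t : DTree I ℝ, (t.depth : ℝ) ≤ 8 * (T * W) ^ 2 / (ε ^ 2 * δ ^ 2) ∧
      pr {x | ε < |H.prob R T [] x - t.eval x|} ≤ δ := by
  rcases Nat.eq_zero_or_pos T with hT | hT
  · subst hT
    refine ⟨.leaf (H.accept []), ?_, ?_⟩
    · simp only [DTree.depth, Nat.cast_zero]
      positivity
    · have h1 : {x : I → Bool | ε < |H.prob R 0 [] x - (DTree.leaf (H.accept [])).eval x|} = ∅ := by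
        ext x
        simp only [Set.mem_ofPred_eq, Set.mem_empty_iff_false, iff_false, not_lt]
        have : H.prob R 0 [] x = H.accept [] := rfl
        rw [this]
        simp only [DTree.eval, sub_self, abs_zero]
        exact hε.le
      rw [h1]
      unfold pr
      simp only [Set.ncard_empty, Nat.cast_zero, zero_div]
      exact hδ.le
  · have hT' : (0 : ℝ) < T := by exact_mod_cast hT
    have hval := val_psi H R T []
    have hκ : ((T : ℝ) * (R * p)) * ((T : ℝ) * (R * √p)) ^ 2 = ((T : ℝ) * R) ^ 3 * (p : ℝ) ^ 2 := by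
      have h1 : √(p : ℝ) ^ 2 = p := Real.sq_sqrt (Nat.cast_nonneg p)
      calc ((T : ℝ) * (R * p)) * ((T : ℝ) * (R * √p)) ^ 2
          = ((T : ℝ) * R) ^ 3 * p * √(p : ℝ) ^ 2 := by ring
        _ = ((T : ℝ) * R) ^ 3 * (p : ℝ) ^ 2 := by rw [h1]; ring
    have key := sim_tame (tame_psi H R J T []) (g := H.acc T []) (fun τ => (acc_mem H T [] τ).1)
      (fun τ => (acc_mem H T [] τ).2) (W := T * W) (by positivity) (card_setQ J hW T []) hε hδ
      (by rw [hκ]; exact hs)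
    rw [hval] at key
    exact key

/-- every basis state looks at at most `p` coordinates -/
theorem sim_sum_look (Q : Algorithm I A p) :
    ∑ i, ((Q.look i).card : ℝ) ≤ p * Fintype.card A := by
  have h : ∀ i, ((Q.look i).card : ℝ) = ∑ a : A, if i ∈ Q.query a then (1 : ℝ) else 0 := by
    intro i
    rw [Finset.sum_boole]
    rfl
  simp_rw [h]
  rw [Finset.sum_comm]
  have h2 : ∀ a ∈ (Finset.univ : Finset A),
      (∑ i : I, if i ∈ Q.query a then (1 : ℝ) else 0) ≤ p := by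
    intro a _
    rw [Finset.sum_boole]
    have h1 : (Finset.univ.filter fun i => i ∈ Q.query a) = Q.query a := by
      ext i; simp
    rw [h1]
    exact_mod_cast Q.card_query_le a
  refine (Finset.sum_le_sum h2).trans (le_of_eq ?_)
  rw [Finset.sum_const, Finset.card_univ, nsmul_eq_mul, mul_comm]

end hybrid

end Pool.Agent.HYB
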