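import Pool.Agent.Lib_helper64.HYB.TR

/-!
# Influential coordinates of tame families

Written by helper31.
-/

set_option autoImplicit false
set_option linter.unusedSectionVars false

open Finset

namespace Pool.Agent.HYB

open Pool.Agent.Lib_helper8.QAA

variable {I : Type} [Fintype I] [DecidableEq I]

variable {Ω : Type} [Fintype Ω]

/-- the expected number of coordinates in the set of the transcript -/
theorem aa_sum_hit {Ψ : (I → Bool) → EuclideanSpace ℂ Ω} {Q : Ω → Finset I} {W : ℝ}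
    (hn : ∀ x, ‖Ψ x‖ = 1) (hQ : ∀ τ, ((Q τ).card : ℝ) ≤ W) :
    ∑ i, ex (hit Ψ Q i) ≤ W := by
  classical
  have h1 : ∀ x, ∑ i, hit Ψ Q i x ≤ W := by
    intro x
    unfold hit
    rw [Finset.sum_comm]
    have h2 : ∀ τ, ∑ i, (if i ∈ Q τ then ‖Ψ x τ‖ ^ 2 else 0) = ((Q τ).card : ℝ) * ‖Ψ x τ‖ ^ 2 := by
      intro τ
      rw [← Finset.sum_filter, Finset.sum_const, nsmul_eq_mul]
      congr 3
      ext i
      simp
    calc ∑ τ, ∑ i, (if i ∈ Q τ then ‖Ψ x τ‖ ^ 2 else 0) = ∑ τ, ((Q τ).card : ℝ) * ‖Ψ x τ‖ ^ 2 :=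
          Finset.sum_congr rfl fun τ _ => h2 τ
      _ ≤ ∑ τ, W * ‖Ψ x τ‖ ^ 2 :=
          Finset.sum_le_sum fun τ _ => mul_le_mul_of_nonneg_right (hQ τ) (by positivity)
      _ = W * ‖Ψ x‖ ^ 2 := by rw [← Finset.mul_sum, EuclideanSpace.norm_sq_eq]
      _ = W := by rw [hn x]; ring
  have h3 : ∑ i, ex (hit Ψ Q i) = ex (fun x => ∑ i, hit Ψ Q i x) := by
    rw [ex_sum]
  rw [h3]
  calc ex (fun x => ∑ i, hit Ψ Q i x) ≤ ex (fun _ => W) := ex_mono h1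
    _ = W := ex_const W

theorem aa_tame {Ψ : (I → Bool) → EuclideanSpace ℂ Ω} {Q : Ω → Finset I}
    {M : (I → Bool) → ℝ} {κ b : ℝ} (hT : Tame Ψ Q M κ b) {g : Ω → ℝ} (hg0 : ∀ τ, 0 ≤ g τ)
    (hg1 : ∀ τ, g τ ≤ 1) {v W : ℝ} (hv : 0 < v)
    (hvar : ex (fun x => val Ψ g x ^ 2) - ex (val Ψ g) ^ 2 = v) (hW : 0 < W)
    (hQ : ∀ τ, ((Q τ).card : ℝ) ≤ W) (hs : 2 ^ 16 * (κ * b ^ 2 * ex M) ≤ v ^ 2) :
    ∃ i : I, v ^ 4 / (2 ^ 10 * W ^ 4) ≤
      ex (fun x => ((val Ψ g x - val Ψ g (flip i x)) / 2) ^ 2) := by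
  set θ : ℝ := v / (8 * W) with hθ
  have hθ0 : 0 < θ := by positivity
  obtain ⟨t, h1, h2, h3, -⟩ := tame_tree hθ0 hg0 hg1 (Finset.univ.biUnion Q).card Ψ Q M hT le_rfl
  have hS : ∑ i, ex (hit Ψ Q i) ≤ W := aa_sum_hit hT.norm_eq hQ
  set Sg := ∑ i, ex (hit Ψ Q i) with hSg
  have h4 : √(κ * b ^ 2 * ex M) ≤ v / 256 := by
    apply Real.sqrt_le_iff.mpr
    refine ⟨by positivity, ?_⟩
    have : (v / 256) ^ 2 = v ^ 2 / 2 ^ 16 := by ring
    rw [this, le_div_iff₀ (by norm_num)]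
    linarith
  have h5 : ex (fun x => (val Ψ g x - t x) ^ 2) ≤ v / 4 := by
    refine h3.trans ?_
    have h6 : θ * Sg ≤ v / 8 := by
      calc θ * Sg ≤ θ * W := by gcongr
        _ = v / 8 := by rw [hθ]; field_simp
    linarith
  set B : ℝ := v ^ 2 / (16 * W ^ 2) with hB
  have hB0 : 0 ≤ B := by positivity
  have hBK : B * (Sg / θ) < v := by
    calc B * (Sg / θ) ≤ B * (W / θ) := by gcongr
      _ = v / 2 := by rw [hB, hθ]; field_simp; norm_num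
      _ < v := by linarith
  obtain ⟨i, hi⟩ := influence_of_compE hv hvar h1 h2 h5 hB0 hBK
  refine ⟨i, le_trans (le_of_eq ?_) hi⟩
  rw [hB]
  field_simp
  norm_num


end Pool.Agent.HYB
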