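import Pool.Agent.Lib_helper64.HYB.Core

/-!
# Correlated pairs of points

Written by helper37.
-/

/-! Block CO of HYB: correlated pairs. -/

set_option autoImplicit false
set_option linter.unusedSectionVars false

open Finset

namespace Pool.Agent.HYB

open Pool.Agent.Lib_helper8.QAA

variable {I : Type} [Fintype I] [DecidableEq I]

/-- if all directional derivatives vanish, the correlated expectation does not depend on `ρ` -/
theorem co_const (ρ : ℝ) (F : (I → Bool) → (I → Bool) → ℝ) (h : ∀ i ρ, dcorr i ρ F = 0) :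
    corr ρ F = corr 0 F := by
  have h1 : ∀ ρ : ℝ, HasDerivAt (fun ρ => corr ρ F) 0 ρ := fun ρ => by
    have h2 := hasDerivAt_corr F ρ
    rwa [Finset.sum_eq_zero fun i _ => h i ρ] at h2
  exact is_const_of_deriv_eq_zero (f := fun ρ => corr ρ F)
    (fun ρ => (h1 ρ).differentiableAt) (fun ρ => (h1 ρ).deriv) ρ 0

theorem co_ex_one : ex (fun _ : I → Bool => (1 : ℝ)) = 1 := ex_const 1

theorem corr_fst (ρ : ℝ) (G : (I → Bool) → ℝ) : corr ρ (fun x _ => G x) = ex G := by
  rw [co_const ρ _ fun i ρ => ?_]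
  · have h := corr_zero G (fun _ : I → Bool => (1 : ℝ))
    simp only [mul_one, co_ex_one] at h
    exact h
  · unfold dcorr
    have h : ∑ x : I → Bool, ∑ y : I → Bool, sg i x y * wti ρ i x y * G x =
        -∑ x : I → Bool, ∑ y : I → Bool, sg i x y * wti ρ i x y * G x := by
      conv_lhs => rw [← sum_flip_right i]
      rw [← Finset.sum_neg_distrib]
      refine Finset.sum_congr rfl fun x _ => ?_
      rw [← Finset.sum_neg_distrib]
      refine Finset.sum_congr rfl fun y _ => ?_
      rw [sg_flip_right, wti_flip_right]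
      ring
    have h' : ∑ x : I → Bool, ∑ y : I → Bool, sg i x y * wti ρ i x y * G x = 0 := by linarith
    rw [h', mul_zero]

theorem corr_snd (ρ : ℝ) (G : (I → Bool) → ℝ) : corr ρ (fun _ y => G y) = ex G := by
  rw [co_const ρ _ fun i ρ => ?_]
  · have h := corr_zero (fun _ : I → Bool => (1 : ℝ)) G
    simp only [one_mul, co_ex_one] at h
    exact h
  · unfold dcorr
    have h : ∑ x : I → Bool, ∑ y : I → Bool, sg i x y * wti ρ i x y * G y =
        -∑ x : I → Bool, ∑ y : I → Bool, sg i x y * wti ρ i x y * G y := by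
      conv_lhs => rw [← sum_flip_left i]
      rw [← Finset.sum_neg_distrib]
      refine Finset.sum_congr rfl fun x _ => ?_
      rw [← Finset.sum_neg_distrib]
      refine Finset.sum_congr rfl fun y _ => ?_
      rw [sg_flip_left, wti_flip_left]
      ring
    have h' : ∑ x : I → Bool, ∑ y : I → Bool, sg i x y * wti ρ i x y * G y = 0 := by linarith
    rw [h', mul_zero]

theorem abs_corr_le {ρ : ℝ} (h0 : 0 ≤ ρ) (h1 : ρ ≤ 1) (F : (I → Bool) → (I → Bool) → ℝ) :
    |corr ρ F| ≤ corr ρ (fun x y => |F x y|) := by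
  rw [abs_le]
  constructor
  · have h2 := corr_const_mul ρ (-1) (fun x y => |F x y|)
    have h3 : corr ρ (fun x y => -1 * |F x y|) ≤ corr ρ F :=
      corr_mono h0 h1 fun x y => by linarith [neg_abs_le (F x y)]
    linarith
  · exact corr_mono h0 h1 fun x y => le_abs_self _

theorem corr_sqrt_le {ρ : ℝ} (h0 : 0 ≤ ρ) (h1 : ρ ≤ 1) {F : (I → Bool) → (I → Bool) → ℝ}
    (hF : ∀ x y, 0 ≤ F x y) : corr ρ (fun x y => √(F x y)) ≤ √(corr ρ F) := by
  have h2 := corr_sqrt_mul_sqrt h0 h1 (A := F) (B := fun _ _ => (1 : ℝ)) hF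
    (fun _ _ => zero_le_one)
  have h3 : corr ρ (fun _ _ : I → Bool => (1 : ℝ)) = 1 := by
    rw [corr_fst ρ (fun _ : I → Bool => (1 : ℝ)), co_ex_one]
  simp only [Real.sqrt_one, mul_one, h3] at h2
  exact h2

theorem corr_odd (ρ : ℝ) (i : I) (F : (I → Bool) → (I → Bool) → ℝ)
    (hF : ∀ x y, F (Lib_helper8.QAA.flip i x) (Lib_helper8.QAA.flip i y) = - F x y) :
    corr ρ F = 0 := by
  have h1 := corr_flip_both ρ i F
  have h2 : (fun x y => F (Lib_helper8.QAA.flip i x) (Lib_helper8.QAA.flip i y)) =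
      fun x y => -1 * F x y := by
    funext x y
    rw [hF]
    ring
  rw [h2, corr_const_mul] at h1
  linarith

theorem dcorr_eq (i : I) (ρ : ℝ) (F : (I → Bool) → (I → Bool) → ℝ) :
    dcorr i ρ F = corr ρ (fun x y => sg i x y *
      ((F x y - F (Lib_helper8.QAA.flip i x) y - F x (Lib_helper8.QAA.flip i y) +
        F (Lib_helper8.QAA.flip i x) (Lib_helper8.QAA.flip i y)) / 4)) := by
  unfold dcorr corr
  congr 1
  set S := ∑ x, ∑ y, sg i x y * wti ρ i x y * F x y with hS
  have s1 : S = ∑ x, ∑ y, -(sg i x y * wti ρ i x y * F (Lib_helper8.QAA.flip i x) y) := by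
    rw [hS, ← sum_flip_left i]
    refine Finset.sum_congr rfl fun x _ => Finset.sum_congr rfl fun y _ => ?_
    rw [sg_flip_left, wti_flip_left]
    ring
  have s2 : S = ∑ x, ∑ y, -(sg i x y * wti ρ i x y * F x (Lib_helper8.QAA.flip i y)) := by
    rw [hS, ← sum_flip_right i]
    refine Finset.sum_congr rfl fun x _ => Finset.sum_congr rfl fun y _ => ?_
    rw [sg_flip_right, wti_flip_right]
    ring
  have s3 : S = ∑ x, ∑ y, sg i x y * wti ρ i x y *
      F (Lib_helper8.QAA.flip i x) (Lib_helper8.QAA.flip i y) := by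
    rw [s1, ← sum_flip_right i]
    refine Finset.sum_congr rfl fun x _ => Finset.sum_congr rfl fun y _ => ?_
    rw [sg_flip_right, wti_flip_right]
    ring
  have s4 : S = ∑ x, ∑ y, sg i x y * wti ρ i x y *
      ((F x y - F (Lib_helper8.QAA.flip i x) y - F x (Lib_helper8.QAA.flip i y) +
        F (Lib_helper8.QAA.flip i x) (Lib_helper8.QAA.flip i y)) / 4) := by
    have h4 : S * 4 = S + S + S + S := by ring
    have h5 : S = (S + S + S + S) / 4 := by linarith
    rw [h5]
    nth_rewrite 1 [hS]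
    nth_rewrite 1 [s1]
    nth_rewrite 1 [s2]
    nth_rewrite 1 [s3]
    rw [← Finset.sum_add_distrib, ← Finset.sum_add_distrib, ← Finset.sum_add_distrib,
      Finset.sum_div]
    refine Finset.sum_congr rfl fun x _ => ?_
    rw [← Finset.sum_add_distrib, ← Finset.sum_add_distrib, ← Finset.sum_add_distrib,
      Finset.sum_div]
    refine Finset.sum_congr rfl fun y _ => ?_
    ring
  have s5 : ∑ x, ∑ y, wti ρ i x y *
      ((F x y - F (Lib_helper8.QAA.flip i x) y - F x (Lib_helper8.QAA.flip i y) +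
        F (Lib_helper8.QAA.flip i x) (Lib_helper8.QAA.flip i y)) / 4) = 0 := by
    have h : ∑ x, ∑ y, wti ρ i x y *
        ((F x y - F (Lib_helper8.QAA.flip i x) y - F x (Lib_helper8.QAA.flip i y) +
        F (Lib_helper8.QAA.flip i x) (Lib_helper8.QAA.flip i y)) / 4) =
        -∑ x, ∑ y, wti ρ i x y *
        ((F x y - F (Lib_helper8.QAA.flip i x) y - F x (Lib_helper8.QAA.flip i y) +
        F (Lib_helper8.QAA.flip i x) (Lib_helper8.QAA.flip i y)) / 4) := by
      conv_lhs => rw [← sum_flip_left i]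
      rw [← Finset.sum_neg_distrib]
      refine Finset.sum_congr rfl fun x _ => ?_
      rw [← Finset.sum_neg_distrib]
      refine Finset.sum_congr rfl fun y _ => ?_
      rw [wti_flip_left, Lib_helper8.QAA.flip_flip]
      ring
    linarith
  have s6 : ∀ x y : I → Bool, wt ρ x y * (sg i x y *
      ((F x y - F (Lib_helper8.QAA.flip i x) y - F x (Lib_helper8.QAA.flip i y) +
        F (Lib_helper8.QAA.flip i x) (Lib_helper8.QAA.flip i y)) / 4)) =
      sg i x y * wti ρ i x y *
      ((F x y - F (Lib_helper8.QAA.flip i x) y - F x (Lib_helper8.QAA.flip i y) +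
        F (Lib_helper8.QAA.flip i x) (Lib_helper8.QAA.flip i y)) / 4) +
      ρ * (wti ρ i x y *
      ((F x y - F (Lib_helper8.QAA.flip i x) y - F x (Lib_helper8.QAA.flip i y) +
        F (Lib_helper8.QAA.flip i x) (Lib_helper8.QAA.flip i y)) / 4)) := by
    intro x y
    rw [wt_eq ρ i]
    unfold sg
    split_ifs <;> ring
  simp only [s6, Finset.sum_add_distrib, ← Finset.mul_sum]
  rw [s5, mul_zero, add_zero, ← s4]


end Pool.Agent.HYB
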