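import Pool.Agent.Lib_helper64.HYB.Core

/-!
# Composition of tame families

Written by helper94.
-/

/-!
# Hybrid algorithms, block CP: composition of tame families
-/

set_option autoImplicit false
set_option linter.unusedSectionVars false

open Finset

namespace Pool.Agent.HYB

open Pool.Agent.Lib_helper8.QAA


variable {I : Type} [Fintype I] [DecidableEq I]

variable {Ω : Type} [Fintype Ω]

/-- the vector `(b, τ) ↦ c b * Φ b τ` -/
noncomputable def cp_m {B : Type} (c : B → ℂ) (Φ : B → EuclideanSpace ℂ Ω) :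
    EuclideanSpace ℂ (B × Ω) :=
  WithLp.toLp 2 fun z => c z.1 * Φ z.1 z.2

theorem cp_apply {B : Type} (c : B → ℂ) (Φ : B → EuclideanSpace ℂ Ω) (z : B × Ω) :
    cp_m c Φ z = c z.1 * Φ z.1 z.2 := rfl

theorem cp_norm {B : Type} [Fintype B] (c : B → ℂ) (Φ : B → EuclideanSpace ℂ Ω) :
    ‖cp_m c Φ‖ ^ 2 = ∑ b, ‖c b‖ ^ 2 * ‖Φ b‖ ^ 2 := by
  rw [EuclideanSpace.norm_sq_eq, Fintype.sum_prod_type]
  refine sum_congr rfl fun b _ => ?_
  rw [EuclideanSpace.norm_sq_eq, mul_sum]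
  refine sum_congr rfl fun τ _ => ?_
  rw [cp_apply, norm_mul, mul_pow]

theorem cp_comp {B : Type} (α : (I → Bool) → EuclideanSpace ℂ B)
    (Ψ : B → (I → Bool) → EuclideanSpace ℂ Ω) (x : I → Bool) :
    comp α Ψ x = cp_m (fun b => α x b) (fun b => Ψ b x) := rfl

theorem cp_dv_apply {Ω' : Type} (Ψ : (I → Bool) → EuclideanSpace ℂ Ω') (i : I) (x : I → Bool)
    (τ : Ω') : dv Ψ i x τ = 1 / 2 * (Ψ x τ - Ψ (Lib_helper8.QAA.flip i x) τ) := rfl

/-- the first product rule -/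
theorem cp_dv1 {B : Type} (α : (I → Bool) → EuclideanSpace ℂ B)
    (Ψ : B → (I → Bool) → EuclideanSpace ℂ Ω) (i : I) (x : I → Bool) :
    dv (comp α Ψ) i x = cp_m (fun b => dv α i x b) (fun b => Ψ b x) +
      cp_m (fun b => α (Lib_helper8.QAA.flip i x) b) (fun b => dv (Ψ b) i x) := by
  ext z
  rw [PiLp.add_apply, cp_apply, cp_apply, cp_dv_apply, cp_comp, cp_comp, cp_apply, cp_apply,
    cp_dv_apply, cp_dv_apply]
  ring

/-- the second product rule -/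
theorem cp_dv2 {B : Type} (α : (I → Bool) → EuclideanSpace ℂ B)
    (Ψ : B → (I → Bool) → EuclideanSpace ℂ Ω) (i : I) (x : I → Bool) :
    dv (comp α Ψ) i x = cp_m (fun b => dv α i x b) (fun b => Ψ b (Lib_helper8.QAA.flip i x)) +
      cp_m (fun b => α x b) (fun b => dv (Ψ b) i x) := by
  ext z
  rw [PiLp.add_apply, cp_apply, cp_apply, cp_dv_apply, cp_comp, cp_comp, cp_apply, cp_apply,
    cp_dv_apply, cp_dv_apply]
  ring

/-- Minkowski -/
theorem cp_mink {E : Type} [NormedAddCommGroup E] (A B : I → E) {b₁ b₂ : ℝ} (h1 : 0 ≤ b₁)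
    (h2 : 0 ≤ b₂) (hA : ∑ i, ‖A i‖ ^ 2 ≤ b₁ ^ 2) (hB : ∑ i, ‖B i‖ ^ 2 ≤ b₂ ^ 2) :
    ∑ i, ‖A i + B i‖ ^ 2 ≤ (b₁ + b₂) ^ 2 := by
  have hAB : ∑ i, ‖A i‖ * ‖B i‖ ≤ b₁ * b₂ := by
    have h3 := sum_mul_sq_le_sq_mul_sq univ (fun i => ‖A i‖) (fun i => ‖B i‖)
    have h4 : (∑ i, ‖A i‖ * ‖B i‖) ^ 2 ≤ (b₁ * b₂) ^ 2 := by
      rw [mul_pow]
      exact h3.trans (mul_le_mul hA hB (sum_nonneg fun i _ => by positivity) (by positivity))
    exact abs_le_of_sq_le_sq' h4 (by positivity) |>.2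
  calc ∑ i, ‖A i + B i‖ ^ 2 ≤ ∑ i, (‖A i‖ + ‖B i‖) ^ 2 :=
        sum_le_sum fun i _ => pow_le_pow_left₀ (norm_nonneg _) (norm_add_le _ _) 2
    _ = ∑ i, ‖A i‖ ^ 2 + 2 * ∑ i, ‖A i‖ * ‖B i‖ + ∑ i, ‖B i‖ ^ 2 := by
        rw [mul_sum, ← sum_add_distrib, ← sum_add_distrib]
        exact sum_congr rfl fun i _ => by ring
    _ ≤ b₁ ^ 2 + 2 * (b₁ * b₂) + b₂ ^ 2 := by linarith
    _ = (b₁ + b₂) ^ 2 := by ring

/-- the two parts of the sum over the directions -/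
theorem cp_two {B : Type} [Fintype B] {α : EuclideanSpace ℂ B} (hα : ‖α‖ = 1)
    (Φ : I → B → EuclideanSpace ℂ Ω) (hΦ : ∀ i b, ‖Φ i b‖ = 1) (D : I → EuclideanSpace ℂ B)
    (R : I → B → EuclideanSpace ℂ Ω) {b₁ b₂ : ℝ} (h1 : 0 ≤ b₁) (h2 : 0 ≤ b₂)
    (hD : ∑ i, ‖D i‖ ^ 2 ≤ b₁ ^ 2) (hR : ∀ b, ∑ i, ‖R i b‖ ^ 2 ≤ b₂ ^ 2) :
    ∑ i, ‖cp_m (fun b => D i b) (Φ i) + cp_m (fun b => α b) (R i)‖ ^ 2 ≤ (b₁ + b₂) ^ 2 := by
  refine cp_mink _ _ h1 h2 ?_ ?_
  · refine le_trans (le_of_eq (sum_congr rfl fun i _ => ?_)) hD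
    rw [cp_norm, EuclideanSpace.norm_sq_eq]
    exact sum_congr rfl fun b _ => by rw [hΦ, one_pow, mul_one]
  · have e1 : ∑ i, ‖cp_m (fun b => α b) (R i)‖ ^ 2 = ∑ b, ‖α b‖ ^ 2 * ∑ i, ‖R i b‖ ^ 2 := by
      simp only [cp_norm, mul_sum]
      exact sum_comm
    rw [e1]
    calc ∑ b, ‖α b‖ ^ 2 * ∑ i, ‖R i b‖ ^ 2 ≤ ∑ b, ‖α b‖ ^ 2 * b₂ ^ 2 :=
          sum_le_sum fun b _ => mul_le_mul_of_nonneg_left (hR b) (by positivity)
      _ = b₂ ^ 2 := by
          rw [← sum_mul, ← EuclideanSpace.norm_sq_eq, hα, one_pow, one_mul]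

theorem cp_flip (i : I) (x : I → Bool) : Lib_helper8.QAA.flip i (Lib_helper8.QAA.flip i x) = x := by
  exact flip_flip i x

theorem tame_comp {B : Type} [Fintype B] {α : (I → Bool) → EuclideanSpace ℂ B}
    {Qα : B → Finset I} {Mα : (I → Bool) → ℝ} {κ₁ b₁ : ℝ} (hα : Tame α Qα Mα κ₁ b₁)
    {Ψ : B → (I → Bool) → EuclideanSpace ℂ Ω} {Q : B → Ω → Finset I}
    {M : B → (I → Bool) → ℝ} {κ₂ b₂ : ℝ} (hκ₂ : 0 ≤ κ₂) (hb₂ : 0 ≤ b₂)
    (hΨ : ∀ b, Tame (Ψ b) (Q b) (M b) κ₂ b₂) :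
    Tame (comp α Ψ) (fun z => Qα z.1 ∪ Q z.1 z.2)
      (fun x => Mα x + ∑ b, ‖α x b‖ ^ 2 * M b x) (κ₁ + κ₂) (b₁ + b₂) := by
  obtain ⟨Lα, hL1, hL2, hL3⟩ := hα.split
  choose L hK1 hK2 hK3 using fun b => (hΨ b).split
  refine ⟨fun x => ?_, fun x => ?_, add_nonneg hα.κ_nonneg hκ₂, add_nonneg hα.b_nonneg hb₂,
    fun x => ?_, ?_⟩
  · -- the norm
    have h1 : ‖comp α Ψ x‖ ^ 2 = 1 := by
      rw [cp_comp, cp_norm]
      calc ∑ b, ‖α x b‖ ^ 2 * ‖Ψ b x‖ ^ 2 = ∑ b, ‖α x b‖ ^ 2 :=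
            sum_congr rfl fun b _ => by rw [(hΨ b).norm_eq, one_pow, mul_one]
        _ = 1 := by rw [← EuclideanSpace.norm_sq_eq, hα.norm_eq, one_pow]
    have h2 := norm_nonneg (comp α Ψ x)
    nlinarith
  · exact add_nonneg (hα.M_nonneg x) (sum_nonneg fun b _ =>
      mul_nonneg (by positivity) ((hΨ b).M_nonneg x))
  · simp only [cp_dv2]
    exact cp_two (hα.norm_eq x) (fun i b => Ψ b (Lib_helper8.QAA.flip i x))
      (fun i b => (hΨ b).norm_eq _)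
      (fun i => dv α i x) (fun i b => dv (Ψ b) i x) hα.b_nonneg hb₂ (hα.deriv_le x)
      (fun b => (hΨ b).deriv_le x)
  · refine ⟨fun i x => cp_m (fun b => Lα i x b) (fun b => Ψ b x) +
      cp_m (fun b => α (Lib_helper8.QAA.flip i x) b) (fun b => L b i x), fun i x z hz => ?_, fun x v => ?_,
      fun x => ?_⟩
    · rw [notMem_union] at hz
      rw [cp_dv1, PiLp.add_apply, PiLp.add_apply, cp_apply, cp_apply, cp_apply, cp_apply,
        hL1 i x z.1 hz.1, hK1 z.1 i x z.2 hz.2]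
    · -- the light clause
      set A : ℝ := ∑ i, ‖v i‖ ^ 2 * Mα (Lib_helper8.QAA.flip i x) with hA
      set C : ℝ := ∑ i, ‖v i‖ ^ 2 * ∑ b, ‖α (Lib_helper8.QAA.flip i x) b‖ ^ 2 *
        M b (Lib_helper8.QAA.flip i x) with hC
      set U : EuclideanSpace ℂ (B × Ω) :=
        cp_m (fun b => (∑ i, v i • Lα i x) b) (fun b => Ψ b x) with hU
      set V : EuclideanSpace ℂ (B × Ω) :=
        cp_m (fun _ => 1) (fun b => ∑ i, (v i * α (Lib_helper8.QAA.flip i x) b) • L b i x) with hV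
      have e1 : ∑ i, v i • (cp_m (fun b => Lα i x b) (fun b => Ψ b x) +
          cp_m (fun b => α (Lib_helper8.QAA.flip i x) b) (fun b => L b i x)) = U + V := by
        ext z
        rw [WithLp.ofLp_sum, Finset.sum_apply, PiLp.add_apply, hU, hV, cp_apply, cp_apply,
          WithLp.ofLp_sum, Finset.sum_apply, WithLp.ofLp_sum, Finset.sum_apply, sum_mul, one_mul,
          ← sum_add_distrib]
        refine sum_congr rfl fun i _ => ?_
        rw [PiLp.smul_apply, PiLp.add_apply, PiLp.smul_apply, PiLp.smul_apply, cp_apply, cp_apply,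
          smul_eq_mul, smul_eq_mul, smul_eq_mul]
        ring
      have hUn : ‖U‖ ^ 2 ≤ κ₁ * A := by
        rw [hU, cp_norm]
        refine le_trans (le_of_eq ?_) (hL2 x v)
        rw [EuclideanSpace.norm_sq_eq]
        exact sum_congr rfl fun b _ => by rw [(hΨ b).norm_eq, one_pow, mul_one]
      have hVn : ‖V‖ ^ 2 ≤ κ₂ * C := by
        rw [hV, cp_norm]
        calc ∑ b : B, ‖(1 : ℂ)‖ ^ 2 * ‖∑ i, (v i * α (Lib_helper8.QAA.flip i x) b) • L b i x‖ ^ 2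
            ≤ ∑ b : B, κ₂ * ∑ i, ‖v i * α (Lib_helper8.QAA.flip i x) b‖ ^ 2 * M b (Lib_helper8.QAA.flip i x) := by
              refine sum_le_sum fun b _ => ?_
              rw [norm_one, one_pow, one_mul]
              exact hK2 b x _
          _ = κ₂ * C := by
              rw [hC, ← mul_sum, sum_comm]
              congr 1
              refine sum_congr rfl fun i _ => ?_
              rw [mul_sum]
              refine sum_congr rfl fun b _ => ?_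
              rw [norm_mul, mul_pow]
              ring
      have hA0 : 0 ≤ A := sum_nonneg fun i _ => mul_nonneg (by positivity) (hα.M_nonneg _)
      have hC0 : 0 ≤ C := sum_nonneg fun i _ => mul_nonneg (by positivity)
        (sum_nonneg fun b _ => mul_nonneg (by positivity) ((hΨ b).M_nonneg _))
      have hκ₁ := hα.κ_nonneg
      have e2 : ∑ i, ‖v i‖ ^ 2 * (Mα (Lib_helper8.QAA.flip i x) + ∑ b, ‖α (Lib_helper8.QAA.flip i x) b‖ ^ 2 * M b (Lib_helper8.QAA.flip i x)) =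
          A + C := by
        rw [hA, hC, ← sum_add_distrib]
        exact sum_congr rfl fun i _ => by ring
      rw [e1, e2]
      have e3 : ‖U + V‖ ^ 2 ≤ (‖U‖ + ‖V‖) ^ 2 :=
        pow_le_pow_left₀ (norm_nonneg _) (norm_add_le _ _) 2
      refine e3.trans ?_
      -- `2 ‖U‖ ‖V‖ ≤ κ₁ C + κ₂ A`
      have e4 : (2 * (‖U‖ * ‖V‖)) ^ 2 ≤ (κ₁ * C + κ₂ * A) ^ 2 := by
        have h1 : (‖U‖ * ‖V‖) ^ 2 ≤ (κ₁ * A) * (κ₂ * C) := by
          rw [mul_pow]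
          exact mul_le_mul hUn hVn (by positivity) (by positivity)
        have h2 : 4 * ((κ₁ * A) * (κ₂ * C)) ≤ (κ₁ * C + κ₂ * A) ^ 2 := by
          nlinarith [sq_nonneg (κ₁ * C - κ₂ * A)]
        calc (2 * (‖U‖ * ‖V‖)) ^ 2 = 4 * (‖U‖ * ‖V‖) ^ 2 := by ring
          _ ≤ 4 * ((κ₁ * A) * (κ₂ * C)) := by linarith
          _ ≤ _ := h2
      have e5 : 2 * (‖U‖ * ‖V‖) ≤ κ₁ * C + κ₂ * A :=
        (abs_le_of_sq_le_sq' e4 (by positivity)).2
      have e6 : (‖U‖ + ‖V‖) ^ 2 = ‖U‖ ^ 2 + 2 * (‖U‖ * ‖V‖) + ‖V‖ ^ 2 := by ring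
      have e7 : (κ₁ + κ₂) * (A + C) = κ₁ * A + (κ₁ * C + κ₂ * A) + κ₂ * C := by ring
      rw [e6, e7]
      linarith
    · -- the heavy clause
      have e1 : ∀ i, dv (comp α Ψ) i (Lib_helper8.QAA.flip i x) - (cp_m (fun b => Lα i (Lib_helper8.QAA.flip i x) b)
          (fun b => Ψ b (Lib_helper8.QAA.flip i x)) + cp_m (fun b => α (Lib_helper8.QAA.flip i (Lib_helper8.QAA.flip i x)) b)
          (fun b => L b i (Lib_helper8.QAA.flip i x))) =
          cp_m (fun b => (dv α i (Lib_helper8.QAA.flip i x) - Lα i (Lib_helper8.QAA.flip i x)) b) (fun b => Ψ b (Lib_helper8.QAA.flip i x)) +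
          cp_m (fun b => α x b) (fun b => dv (Ψ b) i (Lib_helper8.QAA.flip i x) - L b i (Lib_helper8.QAA.flip i x)) := by
        intro i
        rw [cp_dv1, cp_flip]
        ext z
        simp only [PiLp.add_apply, PiLp.sub_apply, cp_apply]
        ring
      simp only [e1]
      exact cp_two (hα.norm_eq x) (fun i b => Ψ b (Lib_helper8.QAA.flip i x))
        (fun i b => (hΨ b).norm_eq _)
        (fun i => dv α i (Lib_helper8.QAA.flip i x) -
          Lα i (Lib_helper8.QAA.flip i x))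
        (fun i b => dv (Ψ b) i (Lib_helper8.QAA.flip i x) -
          L b i (Lib_helper8.QAA.flip i x)) hα.b_nonneg hb₂ (hL3 x)
        (fun b => hK3 b x)


end Pool.Agent.HYB
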