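import Pool.Agent.Lib_helper8.QAAHybrid

/-!
# Hybrid quantum-classical query algorithms (definitions)
-/

set_option autoImplicit false

open Finset

namespace Pool.Agent.HYB

open Pool.Agent.Lib_helper8.QAA

/-- The variance of a function on the cube with the uniform measure. -/
noncomputable def variance {I : Type} [Fintype I] [DecidableEq I] (f : (I → Bool) → ℝ) : ℝ :=
  ((2 : ℝ) ^ Fintype.card I)⁻¹ * ∑ x : I → Bool, f x ^ 2 -
    (((2 : ℝ) ^ Fintype.card I)⁻¹ * ∑ x : I → Bool, f x) ^ 2

/-- The influence of the coordinate `i` on a function on the cube. -/
noncomputable def influence {I : Type} [Fintype I] [DecidableEq I] (f : (I → Bool) → ℝ)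
    (i : I) : ℝ :=
  ((2 : ℝ) ^ Fintype.card I)⁻¹ * ∑ x : I → Bool,
    ((f x - f (Function.update x i (!x i))) / 2) ^ 2

/-- A hybrid quantum-classical query algorithm on inputs `x : I → Bool`.

It runs in stages. The record `h : List A` is the list of the outcomes of the finished stages,
the latest one first. In the next stage the quantum query algorithm `stage h e` is run (a unitary
algorithm with workspace `ℂ^A` and `p` parallel queries per round, see `Algorithm`), and at its end
the workspace is measured completely in the standard basis; the outcome `a : A` is put in front of
the record. Here `e` is a random element of `E` with the distribution `weight h`, which is not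
shown to the algorithm (mixed initial states, noise); take `E = Unit` if there is nothing of this
kind. The dependence of `stage h e` on `h` is arbitrary: this is the classical part. At the end
the algorithm accepts with the probability `accept h`. -/
structure Hybrid (I A E : Type) [Fintype A] [Fintype E] (p : ℕ) where
  /-- the quantum algorithm run in the next stage -/
  stage : List A → E → Algorithm I A p
  /-- the distribution of the hidden randomness of the next stage -/
  weight : List A → E → ℝ
  /-- the probability of acceptance -/
  accept : List A → ℝ
  weight_nonneg : ∀ h e, 0 ≤ weight h e
  sum_weight : ∀ h, ∑ e, weight h e = 1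
  accept_nonneg : ∀ h, 0 ≤ accept h
  accept_le_one : ∀ h, accept h ≤ 1
  norm_init : ∀ h e, ‖(stage h e).init‖ = 1
  norm_step : ∀ h e s φ, ‖(stage h e).step s φ‖ = ‖φ‖
  norm_phase : ∀ h e a x, ‖(stage h e).phase a x‖ = 1

variable {I A E : Type} [Fintype A] [Fintype E] {p : ℕ}

/-- The probability that the stage which follows the record `h` has the outcome `a`, if every stage
has `R` rounds. -/
noncomputable def Hybrid.outcome (H : Hybrid I A E p) (R : ℕ) (h : List A) (x : I → Bool)
    (a : A) : ℝ :=
  ∑ e, H.weight h e * ‖(H.stage h e).state R x a‖ ^ 2

/-- The probability that the algorithm accepts if it is continued from the record `h` for `T`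
stages of `R` rounds. The acceptance probability of the whole algorithm is `H.prob R T [] x`. -/
noncomputable def Hybrid.prob (H : Hybrid I A E p) (R : ℕ) : ℕ → List A → (I → Bool) → ℝ
  | 0, h, _ => H.accept h
  | T + 1, h, x => ∑ a, H.outcome R h x a * H.prob R T (a :: h) x

variable [DecidableEq I]

/-- The total query magnitude of the coordinate `i` in the stage which follows the record `h`: the
sum over the `R` rounds of the probability that a measurement of the state before the queries of
the round would give a basis state which looks at the coordinate `i`. -/
noncomputable def Hybrid.mag (H : Hybrid I A E p) (R : ℕ) (h : List A) (i : I)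
    (x : I → Bool) : ℝ :=
  ∑ e, H.weight h e * ∑ s ∈ Finset.range R, pm ((H.stage h e).look i) ((H.stage h e).state s x)

/-- The expectation, over a run of the algorithm on the input `x` for `T` stages from the record
`h`, of the sum over the stages of the largest total query magnitude of a coordinate outside of
the set `J h'`, where `h'` is the record at the beginning of the stage. -/
noncomputable def Hybrid.light (H : Hybrid I A E p) (R : ℕ) (J : List A → Finset I) :
    ℕ → List A → (I → Bool) → ℝ
  | 0, _, _ => 0
  | T + 1, h, x => (⨆ i : {i // i ∉ J h}, H.mag R h i x) +
      ∑ a, H.outcome R h x a * H.light R J T (a :: h) x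

end Pool.Agent.HYB
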