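import Pool.Agent.Lib_helper8.QABMain
import Pool.Agent.Lib_helper64.HYB.Defs

/-!
# Tame families of amplitudes: definitions

A run of a hybrid algorithm is described by the vector `Ψ x` of the amplitudes of all transcripts.
-/

set_option autoImplicit false
set_option linter.unusedSectionVars false

open Finset

namespace Pool.Agent.HYB

open Pool.Agent.Lib_helper8.QAA

variable {I : Type} [Fintype I] [DecidableEq I]

/-- The derivative in direction `i` (without the sign): half of the change under the flip. -/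
noncomputable def dv {Ω : Type} (Ψ : (I → Bool) → EuclideanSpace ℂ Ω) (i : I)
    (x : I → Bool) : EuclideanSpace ℂ Ω :=
  (1 / 2 : ℂ) • (Ψ x - Ψ (flip i x))

/-- `Tame Ψ Q M κ b`: the family `Ψ` of unit vectors in `ℂ^Ω` has derivatives which split into a
heavy part, which on the transcript `τ` lives in the directions of the set `Q τ`, and a light part
`L`, which is controlled by the function `M`. -/
structure Tame {Ω : Type} [Fintype Ω] (Ψ : (I → Bool) → EuclideanSpace ℂ Ω)
    (Q : Ω → Finset I) (M : (I → Bool) → ℝ) (κ b : ℝ) : Prop where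
  norm_eq : ∀ x, ‖Ψ x‖ = 1
  M_nonneg : ∀ x, 0 ≤ M x
  κ_nonneg : 0 ≤ κ
  b_nonneg : 0 ≤ b
  deriv_le : ∀ x, ∑ i, ‖dv Ψ i x‖ ^ 2 ≤ b ^ 2
  split : ∃ L : I → (I → Bool) → EuclideanSpace ℂ Ω,
    (∀ i x τ, i ∉ Q τ → L i x τ = dv Ψ i x τ) ∧
    (∀ x (v : I → ℂ), ‖∑ i, v i • L i x‖ ^ 2 ≤ κ * ∑ i, ‖v i‖ ^ 2 * M (flip i x)) ∧
    ∀ x, ∑ i, ‖dv Ψ i (flip i x) - L i (flip i x)‖ ^ 2 ≤ b ^ 2

/-- The probability that the coordinate `i` is in the set of the transcript. -/
noncomputable def hit {Ω : Type} [Fintype Ω] (Ψ : (I → Bool) → EuclideanSpace ℂ Ω)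
    (Q : Ω → Finset I) (i : I) (x : I → Bool) : ℝ :=
  ∑ τ, if i ∈ Q τ then ‖Ψ x τ‖ ^ 2 else 0

/-- The function computed by a family of amplitudes with the acceptance probabilities `g`. -/
noncomputable def val {Ω : Type} [Fintype Ω] (Ψ : (I → Bool) → EuclideanSpace ℂ Ω) (g : Ω → ℝ)
    (x : I → Bool) : ℝ :=
  ∑ τ, g τ * ‖Ψ x τ‖ ^ 2

/-- Two runs with records `τ` and `τ'`; the kernel of the pairs without collision. -/
noncomputable def ker {Ω : Type} (Q : Ω → Finset I) (g : Ω → ℝ) (τ τ' : Ω) : ℝ :=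
  if Disjoint (Q τ) (Q τ') then g τ * g τ' else 0

/-- The correlated sum over the pairs of transcripts with a kernel `k`. -/
noncomputable def pairSum {Ω : Type} [Fintype Ω] (Ψ : (I → Bool) → EuclideanSpace ℂ Ω)
    (k : Ω → Ω → ℝ) (x y : I → Bool) : ℝ :=
  ∑ τ, ∑ τ', k τ τ' * (‖Ψ x τ‖ ^ 2 * ‖Ψ y τ'‖ ^ 2)

/-- Half of the derivative of the probability of a transcript, up to second order. -/
noncomputable def xr {Ω : Type} (Ψ : (I → Bool) → EuclideanSpace ℂ Ω) (i : I) (x : I → Bool)
    (τ : Ω) : ℝ :=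
  ((starRingEnd ℂ) (Ψ x τ) * dv Ψ i x τ).re

/-- The composition: first the outcome `b` with amplitude `α x b`, then the transcript with
amplitude `Ψ b x`. -/
noncomputable def comp {B Ω : Type} (α : (I → Bool) → EuclideanSpace ℂ B)
    (Ψ : B → (I → Bool) → EuclideanSpace ℂ Ω) (x : I → Bool) : EuclideanSpace ℂ (B × Ω) :=
  WithLp.toLp 2 fun z => α x z.1 * Ψ z.1 x z.2

/-- Transcripts of `T` stages: the values of the hidden randomness and the outcomes. -/
def Tr (A E : Type) : ℕ → Type
  | 0 => Unit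
  | T + 1 => (E × A) × Tr A E T

noncomputable instance instFintypeTr (A E : Type) [Fintype A] [Fintype E] :
    ∀ T, Fintype (Tr A E T)
  | 0 => inferInstanceAs (Fintype Unit)
  | T + 1 =>
    haveI := instFintypeTr A E T
    inferInstanceAs (Fintype ((E × A) × Tr A E T))

variable {A E : Type} [Fintype A] [Fintype E] {p : ℕ}

/-- The amplitudes of one stage. -/
noncomputable def Hybrid.amp (H : Hybrid I A E p) (R : ℕ) (h : List A) (x : I → Bool) :
    EuclideanSpace ℂ (E × A) :=
  WithLp.toLp 2 fun z => (√(H.weight h z.1) : ℂ) * (H.stage h z.1).state R x z.2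

/-- The amplitudes of the transcripts of `T` stages from the record `h`. -/
noncomputable def Hybrid.psi (H : Hybrid I A E p) (R : ℕ) :
    ∀ T : ℕ, List A → (I → Bool) → EuclideanSpace ℂ (Tr A E T)
  | 0, _, _ => WithLp.toLp 2 fun _ => 1
  | T + 1, h, x => comp (H.amp R h) (fun z => H.psi R T (z.2 :: h)) x

/-- The union of the sets `J h'` over the stages of a transcript. -/
def setQ (E : Type) (J : List A → Finset I) : ∀ T : ℕ, List A → Tr A E T → Finset I
  | 0, _, _ => ∅
  | T + 1, h, z => J h ∪ setQ E J T (z.1.2 :: h) z.2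

/-- The acceptance probability of a transcript. -/
def Hybrid.acc (H : Hybrid I A E p) : ∀ T : ℕ, List A → Tr A E T → ℝ
  | 0, h, _ => H.accept h
  | T + 1, h, z => H.acc T (z.1.2 :: h) z.2

end Pool.Agent.HYB
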