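import Pool.Agent.Lib_helper64.HYB.Core

/-!
# The pointwise bound of the derivative

Written by helper48.
-/

/-! HYB, block PW: the pointwise bound. -/

set_option autoImplicit false
set_option linter.unusedSectionVars false

open Finset

namespace Pool.Agent.HYB

open Pool.Agent.Lib_helper8.QAA

variable {I : Type} [Fintype I] [DecidableEq I]

variable {Ω : Type} [Fintype Ω]

/-- Cauchy-Schwarz for the two parts of the pair sum. -/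
theorem pw_cs {k : Ω → Ω → ℝ} (hk : ∀ τ τ', |k τ τ'| ≤ 1) {Φ φ : EuclideanSpace ℂ Ω}
    (hΦ : ‖Φ‖ = 1) (hφ : ‖φ‖ = 1) {L D : I → EuclideanSpace ℂ Ω} {c : I → Ω → ℝ}
    (hc : ∀ i τ, |c i τ| ≤ ‖Φ τ‖ * ‖D i τ‖) {m : I → ℝ} (hm : ∀ i, 0 ≤ m i) {κ : ℝ}
    (hκ : 0 ≤ κ) (hL : ∀ v : I → ℂ, ‖∑ i, v i • L i‖ ^ 2 ≤ κ * ∑ i, ‖v i‖ ^ 2 * m i) :
    |∑ i, ∑ τ, ∑ τ', k τ τ' * (c i τ * ((starRingEnd ℂ) (φ τ') * L i τ').re)| ≤
      √(κ * ∑ i, ‖D i‖ ^ 2 * m i) := by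
  have h1 : ∑ i, ∑ τ, ∑ τ', k τ τ' * (c i τ * ((starRingEnd ℂ) (φ τ') * L i τ').re) =
      ∑ τ, ∑ τ', k τ τ' * ((starRingEnd ℂ) (φ τ') *
        (∑ i, ((c i τ : ℝ) : ℂ) • L i : EuclideanSpace ℂ Ω) τ').re := by
    rw [Finset.sum_comm]
    refine Finset.sum_congr rfl fun τ _ => ?_
    rw [Finset.sum_comm]
    refine Finset.sum_congr rfl fun τ' _ => ?_
    have h2 : (∑ i, ((c i τ : ℝ) : ℂ) • L i : EuclideanSpace ℂ Ω) τ' =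
        ∑ i, ((c i τ : ℝ) : ℂ) * L i τ' := by
      simp
    rw [h2, Finset.mul_sum, Complex.re_sum, Finset.mul_sum]
    refine Finset.sum_congr rfl fun i _ => ?_
    congr 1
    rw [show (starRingEnd ℂ) (φ τ') * (((c i τ : ℝ) : ℂ) * L i τ') =
      ((c i τ : ℝ) : ℂ) * ((starRingEnd ℂ) (φ τ') * L i τ') by ring, Complex.re_ofReal_mul]
  rw [h1]
  have h3 : ∀ τ, |∑ τ', k τ τ' * ((starRingEnd ℂ) (φ τ') *
        (∑ i, ((c i τ : ℝ) : ℂ) • L i : EuclideanSpace ℂ Ω) τ').re| ≤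
      ‖Φ τ‖ * √(κ * ∑ i, ‖D i τ‖ ^ 2 * m i) := by
    intro τ
    set W : EuclideanSpace ℂ Ω := ∑ i, ((c i τ : ℝ) : ℂ) • L i with hW
    have h4 : |∑ τ', k τ τ' * ((starRingEnd ℂ) (φ τ') * W τ').re| ≤
        ∑ τ', ‖φ τ'‖ * ‖W τ'‖ := by
      refine (Finset.abs_sum_le_sum_abs _ _).trans (Finset.sum_le_sum fun τ' _ => ?_)
      rw [abs_mul]
      have h5 : |((starRingEnd ℂ) (φ τ') * W τ').re| ≤ ‖φ τ'‖ * ‖W τ'‖ := by
        refine (Complex.abs_re_le_norm _).trans ?_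
        rw [norm_mul, RCLike.norm_conj]
      calc |k τ τ'| * |((starRingEnd ℂ) (φ τ') * W τ').re|
          ≤ 1 * (‖φ τ'‖ * ‖W τ'‖) := mul_le_mul (hk τ τ') h5 (abs_nonneg _) zero_le_one
        _ = _ := one_mul _
    have h6 : ∑ τ', ‖φ τ'‖ * ‖W τ'‖ ≤ ‖W‖ := by
      refine (Real.sum_mul_le_sqrt_mul_sqrt _ _ _).trans ?_
      rw [← EuclideanSpace.norm_sq_eq, ← EuclideanSpace.norm_sq_eq, hφ, one_pow, Real.sqrt_one,
        one_mul, Real.sqrt_sq (norm_nonneg _)]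
    have h7 : ‖W‖ ^ 2 ≤ ‖Φ τ‖ ^ 2 * (κ * ∑ i, ‖D i τ‖ ^ 2 * m i) := by
      refine (hL fun i => ((c i τ : ℝ) : ℂ)).trans ?_
      rw [← mul_assoc, mul_comm (‖Φ τ‖ ^ 2) κ, mul_assoc]
      refine mul_le_mul_of_nonneg_left ?_ hκ
      rw [Finset.mul_sum]
      refine Finset.sum_le_sum fun i _ => ?_
      rw [← mul_assoc]
      refine mul_le_mul_of_nonneg_right ?_ (hm i)
      rw [Complex.norm_real, Real.norm_eq_abs, ← mul_pow]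
      exact pow_le_pow_left₀ (abs_nonneg _) (hc i τ) 2
    have h8 : ‖W‖ ≤ ‖Φ τ‖ * √(κ * ∑ i, ‖D i τ‖ ^ 2 * m i) := by
      have h9 : ‖W‖ ≤ √(‖Φ τ‖ ^ 2 * (κ * ∑ i, ‖D i τ‖ ^ 2 * m i)) := Real.le_sqrt_of_sq_le h7
      rwa [Real.sqrt_mul (by positivity), Real.sqrt_sq (norm_nonneg _)] at h9
    exact h4.trans (h6.trans h8)
  refine (Finset.abs_sum_le_sum_abs _ _).trans ((Finset.sum_le_sum fun τ _ => h3 τ).trans ?_)
  refine (Real.sum_mul_le_sqrt_mul_sqrt _ _ _).trans ?_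
  rw [← EuclideanSpace.norm_sq_eq, hΦ, one_pow, Real.sqrt_one, one_mul]
  refine Real.sqrt_le_sqrt (le_of_eq ?_)
  have h10 : ∀ τ, √(κ * ∑ i, ‖D i τ‖ ^ 2 * m i) ^ 2 = κ * ∑ i, ‖D i τ‖ ^ 2 * m i := fun τ =>
    Real.sq_sqrt (mul_nonneg hκ (Finset.sum_nonneg fun i _ => mul_nonneg (sq_nonneg _) (hm i)))
  simp only [h10]
  rw [← Finset.mul_sum, Finset.sum_comm]
  congr 1
  refine Finset.sum_congr rfl fun i _ => ?_
  rw [← Finset.sum_mul, ← EuclideanSpace.norm_sq_eq]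

theorem pw_abs_re (a b : ℂ) : |((starRingEnd ℂ) a * b).re| ≤ ‖a‖ * ‖b‖ := by
  refine (Complex.abs_re_le_norm _).trans ?_
  rw [norm_mul, RCLike.norm_conj]

theorem pw_mul_sum (u v : EuclideanSpace ℂ Ω) :
    ∑ τ, ∑ τ', ‖u τ‖ ^ 2 * ‖v τ'‖ ^ 2 = ‖u‖ ^ 2 * ‖v‖ ^ 2 := by
  rw [EuclideanSpace.norm_sq_eq, EuclideanSpace.norm_sq_eq, Finset.sum_mul]
  refine Finset.sum_congr rfl fun τ _ => ?_
  rw [Finset.mul_sum]

theorem pair_bound {Ψ : (I → Bool) → EuclideanSpace ℂ Ω} {Q : Ω → Finset I}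
    {M : (I → Bool) → ℝ} {κ : ℝ} (hn : ∀ x, ‖Ψ x‖ = 1) (hM : ∀ x, 0 ≤ M x) (hκ : 0 ≤ κ)
    {L : I → (I → Bool) → EuclideanSpace ℂ Ω}
    (hL1 : ∀ i x τ, i ∉ Q τ → L i x τ = dv Ψ i x τ)
    (hL2 : ∀ x (v : I → ℂ), ‖∑ i, v i • L i x‖ ^ 2 ≤ κ * ∑ i, ‖v i‖ ^ 2 * M (flip i x))
    {g : Ω → ℝ} (hg0 : ∀ τ, 0 ≤ g τ) (hg1 : ∀ τ, g τ ≤ 1) (x y : I → Bool) (σ : I → ℝ)
    (hσ : ∀ i, |σ i| ≤ 1) :
    |∑ i, 4 * (σ i * ∑ τ, ∑ τ', ker Q g τ τ' *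
      (xr Ψ i x τ * xr Ψ i y τ' - ‖dv Ψ i x τ‖ ^ 2 * ‖dv Ψ i y τ'‖ ^ 2))| ≤
    4 * √(κ * ∑ i, ‖dv Ψ i x‖ ^ 2 * M (flip i y)) +
    4 * √(κ * ∑ i, ‖dv Ψ i y - L i y‖ ^ 2 * M (flip i x)) +
    4 * (κ * ∑ i, (‖dv Ψ i x‖ ^ 2 * M (flip i y) + ‖dv Ψ i y‖ ^ 2 * M (flip i x))) := by
  classical
  have hk0 : ∀ τ τ', 0 ≤ ker Q g τ τ' := by
    intro τ τ'
    unfold ker
    split_ifs
    · exact mul_nonneg (hg0 τ) (hg0 τ')
    · exact le_refl 0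
  have hk1 : ∀ τ τ', ker Q g τ τ' ≤ 1 := by
    intro τ τ'
    unfold ker
    split_ifs
    · exact mul_le_one₀ (hg1 τ) (hg0 τ') (hg1 τ')
    · exact zero_le_one
  have hka : ∀ τ τ', |ker Q g τ τ'| ≤ 1 := fun τ τ' => by
    rw [abs_of_nonneg (hk0 τ τ')]
    exact hk1 τ τ'
  have hkd : ∀ τ τ' i, ker Q g τ τ' ≠ 0 → i ∈ Q τ → i ∉ Q τ' := by
    intro τ τ' i h hi hi'
    apply h
    unfold ker
    rw [if_neg]
    exact fun hd => (Finset.disjoint_left.1 hd) hi hi'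
  let l : I → (I → Bool) → Ω → ℝ := fun i x τ => ((starRingEnd ℂ) (Ψ x τ) * L i x τ).re
  have hl : ∀ i x τ, i ∉ Q τ → xr Ψ i x τ = l i x τ := by
    intro i x τ hi
    show ((starRingEnd ℂ) (Ψ x τ) * dv Ψ i x τ).re = ((starRingEnd ℂ) (Ψ x τ) * L i x τ).re
    rw [hL1 i x τ hi]
  -- the splitting
  have hsplit : ∀ i τ τ', ker Q g τ τ' * (xr Ψ i x τ * xr Ψ i y τ' -
        ‖dv Ψ i x τ‖ ^ 2 * ‖dv Ψ i y τ'‖ ^ 2) =
      ker Q g τ τ' * (xr Ψ i x τ * l i y τ') +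
        ker Q g τ τ' * ((xr Ψ i y τ' - l i y τ') * l i x τ) -
        ker Q g τ τ' * (‖dv Ψ i x τ‖ ^ 2 * ‖dv Ψ i y τ'‖ ^ 2) := by
    intro i τ τ'
    by_cases h : ker Q g τ τ' = 0
    · rw [h]
      ring
    · by_cases hi : i ∈ Q τ
      · rw [hl i y τ' (hkd τ τ' i h hi)]
        ring
      · rw [hl i x τ hi]
        ring
  set S1 := ∑ i, ∑ τ, ∑ τ', ker Q g τ τ' * ((σ i * xr Ψ i x τ) * l i y τ') with hS1
  set S2 := ∑ i, ∑ τ', ∑ τ, ker Q g τ τ' * ((σ i * (xr Ψ i y τ' - l i y τ')) * l i x τ) with hS2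
  set S3 := ∑ i, σ i * ∑ τ, ∑ τ', ker Q g τ τ' * (‖dv Ψ i x τ‖ ^ 2 * ‖dv Ψ i y τ'‖ ^ 2) with hS3
  have hsum : ∑ i, 4 * (σ i * ∑ τ, ∑ τ', ker Q g τ τ' *
      (xr Ψ i x τ * xr Ψ i y τ' - ‖dv Ψ i x τ‖ ^ 2 * ‖dv Ψ i y τ'‖ ^ 2)) =
      4 * (S1 + S2 - S3) := by
    rw [hS1, hS2, hS3, ← Finset.sum_add_distrib, ← Finset.sum_sub_distrib, Finset.mul_sum]
    refine Finset.sum_congr rfl fun i _ => ?_
    congr 1
    have h1 : ∑ τ', ∑ τ, ker Q g τ τ' * ((σ i * (xr Ψ i y τ' - l i y τ')) * l i x τ) =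
        ∑ τ, ∑ τ', ker Q g τ τ' * ((σ i * (xr Ψ i y τ' - l i y τ')) * l i x τ) :=
      Finset.sum_comm
    rw [h1]
    simp only [hsplit, Finset.sum_sub_distrib, Finset.sum_add_distrib, mul_sub, mul_add]
    congr 1
    congr 1
    · rw [Finset.mul_sum]
      refine Finset.sum_congr rfl fun τ _ => ?_
      rw [Finset.mul_sum]
      exact Finset.sum_congr rfl fun τ' _ => by ring
    · rw [Finset.mul_sum]
      refine Finset.sum_congr rfl fun τ _ => ?_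
      rw [Finset.mul_sum]
      exact Finset.sum_congr rfl fun τ' _ => by ring
  have hb1 : |S1| ≤ √(κ * ∑ i, ‖dv Ψ i x‖ ^ 2 * M (flip i y)) := by
    refine pw_cs hka (hn x) (hn y) (L := fun i => L i y) (D := fun i => dv Ψ i x)
      (c := fun i τ => σ i * xr Ψ i x τ) ?_ (fun i => hM _) hκ (hL2 y)
    intro i τ
    show |σ i * xr Ψ i x τ| ≤ _
    rw [abs_mul]
    calc |σ i| * |xr Ψ i x τ| ≤ 1 * (‖Ψ x τ‖ * ‖dv Ψ i x τ‖) :=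
          mul_le_mul (hσ i) (pw_abs_re _ _) (abs_nonneg _) zero_le_one
      _ = _ := one_mul _
  have hb2 : |S2| ≤ √(κ * ∑ i, ‖dv Ψ i y - L i y‖ ^ 2 * M (flip i x)) := by
    refine pw_cs (k := fun τ' τ => ker Q g τ τ') (fun τ' τ => hka τ τ') (hn y) (hn x)
      (L := fun i => L i x) (D := fun i => dv Ψ i y - L i y)
      (c := fun i τ' => σ i * (xr Ψ i y τ' - l i y τ')) ?_ (fun i => hM _) hκ (hL2 x)
    intro i τ
    show |σ i * (xr Ψ i y τ - l i y τ)| ≤ _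
    have h1 : xr Ψ i y τ - l i y τ =
        ((starRingEnd ℂ) (Ψ y τ) * (dv Ψ i y - L i y : EuclideanSpace ℂ Ω) τ).re := by
      show ((starRingEnd ℂ) (Ψ y τ) * dv Ψ i y τ).re - ((starRingEnd ℂ) (Ψ y τ) * L i y τ).re = _
      rw [← Complex.sub_re, ← mul_sub]
      rfl
    rw [abs_mul, h1]
    calc |σ i| * |((starRingEnd ℂ) (Ψ y τ) * (dv Ψ i y - L i y : EuclideanSpace ℂ Ω) τ).re|
        ≤ 1 * (‖Ψ y τ‖ * ‖(dv Ψ i y - L i y : EuclideanSpace ℂ Ω) τ‖) :=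
          mul_le_mul (hσ i) (pw_abs_re _ _) (abs_nonneg _) zero_le_one
      _ = _ := one_mul _
  have hLn : ∀ i x, ‖L i x‖ ^ 2 ≤ κ * M (flip i x) := by
    intro i x
    have h1 := hL2 x (Pi.single i 1)
    have h2 : ∑ j, (Pi.single i 1 : I → ℂ) j • L j x = L i x := by
      rw [Finset.sum_eq_single i]
      · rw [Pi.single_eq_same, one_smul]
      · intro j _ hj
        rw [Pi.single_eq_of_ne hj, zero_smul]
      · intro h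
        exact absurd (Finset.mem_univ i) h
    have h3 : ∑ j, ‖(Pi.single i 1 : I → ℂ) j‖ ^ 2 * M (flip j x) = M (flip i x) := by
      rw [Finset.sum_eq_single i]
      · rw [Pi.single_eq_same, norm_one, one_pow, one_mul]
      · intro j _ hj
        rw [Pi.single_eq_of_ne hj, norm_zero]
        ring
      · intro h
        exact absurd (Finset.mem_univ i) h
    rwa [h2, h3] at h1
  have hb3 : |S3| ≤ κ * ∑ i, (‖dv Ψ i x‖ ^ 2 * M (flip i y) + ‖dv Ψ i y‖ ^ 2 * M (flip i x)) := by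
    rw [Finset.mul_sum]
    refine (Finset.abs_sum_le_sum_abs _ _).trans (Finset.sum_le_sum fun i _ => ?_)
    rw [abs_mul]
    have h0 : 0 ≤ ∑ τ, ∑ τ', ker Q g τ τ' * (‖dv Ψ i x τ‖ ^ 2 * ‖dv Ψ i y τ'‖ ^ 2) :=
      Finset.sum_nonneg fun τ _ => Finset.sum_nonneg fun τ' _ =>
        mul_nonneg (hk0 τ τ') (by positivity)
    rw [abs_of_nonneg h0]
    have h1 : ∀ τ τ', ker Q g τ τ' * (‖dv Ψ i x τ‖ ^ 2 * ‖dv Ψ i y τ'‖ ^ 2) ≤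
        ‖L i x τ‖ ^ 2 * ‖dv Ψ i y τ'‖ ^ 2 + ‖dv Ψ i x τ‖ ^ 2 * ‖L i y τ'‖ ^ 2 := by
      intro τ τ'
      by_cases h : ker Q g τ τ' = 0
      · rw [h, zero_mul]
        positivity
      · have h2 : ker Q g τ τ' * (‖dv Ψ i x τ‖ ^ 2 * ‖dv Ψ i y τ'‖ ^ 2) ≤
            1 * (‖dv Ψ i x τ‖ ^ 2 * ‖dv Ψ i y τ'‖ ^ 2) :=
          mul_le_mul_of_nonneg_right (hk1 τ τ') (by positivity)
        refine h2.trans ?_
        rw [one_mul]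
        by_cases hi : i ∈ Q τ
        · rw [hL1 i y τ' (hkd τ τ' i h hi)]
          have : 0 ≤ ‖L i x τ‖ ^ 2 * ‖dv Ψ i y τ'‖ ^ 2 := by positivity
          linarith
        · rw [hL1 i x τ hi]
          have : 0 ≤ ‖dv Ψ i x τ‖ ^ 2 * ‖L i y τ'‖ ^ 2 := by positivity
          linarith
    have h2 : ∑ τ, ∑ τ', ker Q g τ τ' * (‖dv Ψ i x τ‖ ^ 2 * ‖dv Ψ i y τ'‖ ^ 2) ≤
        ‖L i x‖ ^ 2 * ‖dv Ψ i y‖ ^ 2 + ‖dv Ψ i x‖ ^ 2 * ‖L i y‖ ^ 2 := by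
      rw [← pw_mul_sum, ← pw_mul_sum,
        ← Finset.sum_add_distrib]
      refine Finset.sum_le_sum fun τ _ => ?_
      rw [← Finset.sum_add_distrib]
      exact Finset.sum_le_sum fun τ' _ => h1 τ τ'
    have h3 := mul_le_mul_of_nonneg_right (hLn i x) (sq_nonneg ‖dv Ψ i y‖)
    have h4 := mul_le_mul_of_nonneg_left (hLn i y) (sq_nonneg ‖dv Ψ i x‖)
    calc |σ i| * ∑ τ, ∑ τ', ker Q g τ τ' * (‖dv Ψ i x τ‖ ^ 2 * ‖dv Ψ i y τ'‖ ^ 2)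
        ≤ 1 * (‖L i x‖ ^ 2 * ‖dv Ψ i y‖ ^ 2 + ‖dv Ψ i x‖ ^ 2 * ‖L i y‖ ^ 2) :=
          mul_le_mul (hσ i) h2 h0 zero_le_one
      _ ≤ _ := by
          rw [one_mul]
          calc _ ≤ κ * M (flip i x) * ‖dv Ψ i y‖ ^ 2 + ‖dv Ψ i x‖ ^ 2 * (κ * M (flip i y)) :=
                add_le_add h3 h4
            _ = _ := by ring
  rw [hsum, abs_mul, abs_of_pos (by norm_num : (0 : ℝ) < 4)]
  have h5 : |S1 + S2 - S3| ≤ |S1| + |S2| + |S3| := by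
    have h6 := abs_sub (S1 + S2) S3
    have h7 := abs_add_le S1 S2
    linarith
  linarith


end Pool.Agent.HYB
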