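import Pool.Agent.Lib_helper64.HYB.DE
import Pool.Agent.Lib_helper64.HYB.PW

/-!
# The bound of the derivative in the mean

Written by helper81.
-/

set_option autoImplicit false
set_option linter.unusedSectionVars false

open Finset

namespace Pool.Agent.HYB

open Pool.Agent.Lib_helper8.QAA

variable {I : Type} [Fintype I] [DecidableEq I]

variable {Ω : Type} [Fintype Ω]

lemma db_dv_flip (Ψ : (I → Bool) → EuclideanSpace ℂ Ω) (i : I) (x : I → Bool) :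
    dv Ψ i (Lib_helper8.QAA.flip i x) = - dv Ψ i x := by
  unfold dv
  rw [Lib_helper8.QAA.flip_flip, ← smul_neg, neg_sub]

lemma db_norm_flip (Ψ : (I → Bool) → EuclideanSpace ℂ Ω) (i : I) (x : I → Bool) :
    ‖dv Ψ i (Lib_helper8.QAA.flip i x)‖ = ‖dv Ψ i x‖ := by
  rw [db_dv_flip, norm_neg]

lemma db_corr_add (ρ : ℝ) (F G : (I → Bool) → (I → Bool) → ℝ) :
    corr ρ (fun x y => F x y + G x y) = corr ρ F + corr ρ G := by
  unfold corr
  rw [← mul_add]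
  congr 1
  rw [← Finset.sum_add_distrib]
  refine Finset.sum_congr rfl fun x _ => ?_
  rw [← Finset.sum_add_distrib]
  refine Finset.sum_congr rfl fun y _ => ?_
  ring

/-- the key estimate: coefficient in `x`, `M` in `y` -/
lemma db_key {M : (I → Bool) → ℝ} (hM : ∀ x, 0 ≤ M x) {ρ : ℝ} (h0 : 0 ≤ ρ) (h1 : ρ ≤ 1)
    {C : I → (I → Bool) → ℝ} {B : ℝ} (hC : ∀ x, ∑ i, C i (Lib_helper8.QAA.flip i x) ≤ B) :
    corr ρ (fun x y => ∑ i, C i x * M (Lib_helper8.QAA.flip i y)) ≤ B * ex M := by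
  rw [corr_sum]
  have h2 : ∀ i, corr ρ (fun x y => C i x * M (Lib_helper8.QAA.flip i y)) =
      corr ρ (fun x y => C i (Lib_helper8.QAA.flip i x) * M y) := by
    intro i
    rw [← corr_flip_both ρ i (fun x y => C i x * M (Lib_helper8.QAA.flip i y))]
    simp only [Lib_helper8.QAA.flip_flip]
  simp_rw [h2]
  rw [← corr_sum]
  have h3 : corr ρ (fun x y => ∑ i, C i (Lib_helper8.QAA.flip i x) * M y) ≤
      corr ρ (fun x y => B * M y) := by
    apply corr_mono h0 h1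
    intro x y
    rw [← Finset.sum_mul]
    exact mul_le_mul_of_nonneg_right (hC x) (hM y)
  refine h3.trans (le_of_eq ?_)
  rw [corr_const_mul, corr_snd]

lemma db_key' {M : (I → Bool) → ℝ} (hM : ∀ x, 0 ≤ M x) {ρ : ℝ} (h0 : 0 ≤ ρ) (h1 : ρ ≤ 1)
    {C : I → (I → Bool) → ℝ} {B : ℝ} (hC : ∀ x, ∑ i, C i (Lib_helper8.QAA.flip i x) ≤ B) :
    corr ρ (fun x y => ∑ i, C i y * M (Lib_helper8.QAA.flip i x)) ≤ B * ex M := by
  rw [corr_sum]
  have h2 : ∀ i, corr ρ (fun x y => C i y * M (Lib_helper8.QAA.flip i x)) =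
      corr ρ (fun x y => C i (Lib_helper8.QAA.flip i y) * M x) := by
    intro i
    rw [← corr_flip_both ρ i (fun x y => C i y * M (Lib_helper8.QAA.flip i x))]
    simp only [Lib_helper8.QAA.flip_flip]
  simp_rw [h2]
  rw [← corr_sum]
  have h3 : corr ρ (fun x y => ∑ i, C i (Lib_helper8.QAA.flip i y) * M x) ≤
      corr ρ (fun x y => B * M x) := by
    apply corr_mono h0 h1
    intro x y
    rw [← Finset.sum_mul]
    exact mul_le_mul_of_nonneg_right (hC y) (hM x)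
  refine h3.trans (le_of_eq ?_)
  rw [corr_const_mul, corr_fst]

theorem deriv_bound {Ψ : (I → Bool) → EuclideanSpace ℂ Ω} {Q : Ω → Finset I}
    {M : (I → Bool) → ℝ} {κ b : ℝ} (hT : Tame Ψ Q M κ b) {g : Ω → ℝ} (hg0 : ∀ τ, 0 ≤ g τ)
    (hg1 : ∀ τ, g τ ≤ 1) {ρ : ℝ} (h0 : 0 ≤ ρ) (h1 : ρ ≤ 1) :
    |∑ i, dcorr i ρ (pairSum Ψ (ker Q g))| ≤
      8 * √(κ * b ^ 2 * ex M) + 8 * (κ * b ^ 2 * ex M) := by
  obtain ⟨L, hL1, hL2, hL3⟩ := hT.split
  have hM := hT.M_nonneg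
  have hκ := hT.κ_nonneg
  simp_rw [dcorr_pairSum]
  rw [← corr_sum]
  refine (abs_corr_le h0 h1 _).trans ?_
  -- the pointwise bound
  have hsg : ∀ (x y : I → Bool) (i : I), |sg i x y| ≤ 1 := by
    intro x y i
    unfold sg
    split_ifs <;> simp
  have hpt := fun x y => pair_bound hT.norm_eq hM hκ hL1 hL2 hg0 hg1 x y (fun i => sg i x y)
    (hsg x y)
  refine (corr_mono h0 h1 hpt).trans ?_
  -- the three parts
  have hc1 : ∀ x : I → Bool, ∑ i, (fun i x => ‖dv Ψ i x‖ ^ 2) i (Lib_helper8.QAA.flip i x) ≤ b ^ 2 := by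
    intro x
    simp only [db_norm_flip]
    exact hT.deriv_le x
  have hA : corr ρ (fun x y => ∑ i, ‖dv Ψ i x‖ ^ 2 * M (Lib_helper8.QAA.flip i y)) ≤ b ^ 2 * ex M :=
    db_key hM h0 h1 (C := fun i x => ‖dv Ψ i x‖ ^ 2) hc1
  have hA' : corr ρ (fun x y => ∑ i, ‖dv Ψ i y‖ ^ 2 * M (Lib_helper8.QAA.flip i x)) ≤ b ^ 2 * ex M :=
    db_key' hM h0 h1 (C := fun i x => ‖dv Ψ i x‖ ^ 2) hc1
  have hB : corr ρ (fun x y => ∑ i, ‖dv Ψ i y - L i y‖ ^ 2 * M (Lib_helper8.QAA.flip i x)) ≤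
      b ^ 2 * ex M :=
    db_key' hM h0 h1 (C := fun i x => ‖dv Ψ i x - L i x‖ ^ 2) hL3
  have e1 : corr ρ (fun x y => 4 * √(κ * ∑ i, ‖dv Ψ i x‖ ^ 2 * M (Lib_helper8.QAA.flip i y)) +
      4 * √(κ * ∑ i, ‖dv Ψ i y - L i y‖ ^ 2 * M (Lib_helper8.QAA.flip i x)) +
      4 * (κ * ∑ i, (‖dv Ψ i x‖ ^ 2 * M (Lib_helper8.QAA.flip i y) +
        ‖dv Ψ i y‖ ^ 2 * M (Lib_helper8.QAA.flip i x)))) =
      4 * corr ρ (fun x y => √(κ * ∑ i, ‖dv Ψ i x‖ ^ 2 * M (Lib_helper8.QAA.flip i y))) +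
      4 * corr ρ (fun x y => √(κ * ∑ i, ‖dv Ψ i y - L i y‖ ^ 2 * M (Lib_helper8.QAA.flip i x))) +
      4 * (κ * (corr ρ (fun x y => ∑ i, ‖dv Ψ i x‖ ^ 2 * M (Lib_helper8.QAA.flip i y)) +
        corr ρ (fun x y => ∑ i, ‖dv Ψ i y‖ ^ 2 * M (Lib_helper8.QAA.flip i x)))) := by
    rw [db_corr_add, db_corr_add, corr_const_mul, corr_const_mul, corr_const_mul, corr_const_mul,
      ← db_corr_add]
    simp_rw [Finset.sum_add_distrib]
  rw [e1]
  have s1 : corr ρ (fun x y => √(κ * ∑ i, ‖dv Ψ i x‖ ^ 2 * M (Lib_helper8.QAA.flip i y))) ≤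
      √(κ * b ^ 2 * ex M) := by
    refine (corr_sqrt_le h0 h1 (fun x y => mul_nonneg hκ (Finset.sum_nonneg fun i _ =>
      mul_nonneg (by positivity) (hM _)))).trans ?_
    apply Real.sqrt_le_sqrt
    rw [corr_const_mul, mul_assoc]
    exact mul_le_mul_of_nonneg_left hA hκ
  have s2 : corr ρ (fun x y => √(κ * ∑ i, ‖dv Ψ i y - L i y‖ ^ 2 * M (Lib_helper8.QAA.flip i x))) ≤
      √(κ * b ^ 2 * ex M) := by
    refine (corr_sqrt_le h0 h1 (fun x y => mul_nonneg hκ (Finset.sum_nonneg fun i _ =>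
      mul_nonneg (by positivity) (hM _)))).trans ?_
    apply Real.sqrt_le_sqrt
    rw [corr_const_mul, mul_assoc]
    exact mul_le_mul_of_nonneg_left hB hκ
  have s3 : κ * (corr ρ (fun x y => ∑ i, ‖dv Ψ i x‖ ^ 2 * M (Lib_helper8.QAA.flip i y)) +
        corr ρ (fun x y => ∑ i, ‖dv Ψ i y‖ ^ 2 * M (Lib_helper8.QAA.flip i x))) ≤
      κ * (b ^ 2 * ex M + b ^ 2 * ex M) :=
    mul_le_mul_of_nonneg_left (add_le_add hA hA') hκ
  nlinarith [s1, s2, s3]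


end Pool.Agent.HYB
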