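import Pool.Agent.Lib_helper64.HYB.CO

/-!
# The derivative of the pair sum

Written by helper40.
-/

/-!
# Hybrid algorithms, block DE: the derivative of the pair sum
-/

set_option autoImplicit false
set_option linter.unusedSectionVars false

open Finset

namespace Pool.Agent.HYB

open Pool.Agent.Lib_helper8.QAA

variable {I : Type} [Fintype I] [DecidableEq I]

variable {Ω : Type} [Fintype Ω]

theorem de_dv_flip (Ψ : (I → Bool) → EuclideanSpace ℂ Ω) (i : I) (x : I → Bool) (τ : Ω) :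
    dv Ψ i (Lib_helper8.QAA.flip i x) τ = - dv Ψ i x τ := by
  unfold dv
  rw [Lib_helper8.QAA.flip_flip]
  simp only [PiLp.smul_apply, PiLp.sub_apply, smul_eq_mul]
  ring

theorem de_norm_flip (Ψ : (I → Bool) → EuclideanSpace ℂ Ω) (i : I) (x : I → Bool) (τ : Ω) :
    ‖dv Ψ i (Lib_helper8.QAA.flip i x) τ‖ ^ 2 = ‖dv Ψ i x τ‖ ^ 2 := by
  rw [de_dv_flip, norm_neg]

/-- the change of the probability of the transcript `τ` -/
theorem de_half (Ψ : (I → Bool) → EuclideanSpace ℂ Ω) (i : I) (x : I → Bool) (τ : Ω) :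
    ‖Ψ x τ‖ ^ 2 - ‖Ψ (Lib_helper8.QAA.flip i x) τ‖ ^ 2 =
      4 * (xr Ψ i x τ - ‖dv Ψ i x τ‖ ^ 2) := by
  have h : Ψ (Lib_helper8.QAA.flip i x) τ = Ψ x τ - 2 * dv Ψ i x τ := by
    unfold dv
    simp only [PiLp.smul_apply, PiLp.sub_apply, smul_eq_mul]
    ring
  rw [h]
  unfold xr
  generalize Ψ x τ = a
  generalize dv Ψ i x τ = v
  rw [← Complex.normSq_eq_norm_sq, ← Complex.normSq_eq_norm_sq, ← Complex.normSq_eq_norm_sq]
  simp only [Complex.normSq_apply, Complex.sub_re, Complex.sub_im, Complex.mul_re, Complex.mul_im,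
    Complex.conj_re, Complex.conj_im, Complex.re_ofNat, Complex.im_ofNat]
  ring

theorem de_odd (Ψ : (I → Bool) → EuclideanSpace ℂ Ω) (i : I) (x : I → Bool) (τ : Ω) :
    xr Ψ i (Lib_helper8.QAA.flip i x) τ - ‖dv Ψ i (Lib_helper8.QAA.flip i x) τ‖ ^ 2 =
      -(xr Ψ i x τ - ‖dv Ψ i x τ‖ ^ 2) := by
  have h1 := de_half Ψ i x τ
  have h2 := de_half Ψ i (Lib_helper8.QAA.flip i x) τ
  rw [Lib_helper8.QAA.flip_flip] at h2
  linarith

theorem dcorr_pairSum (Ψ : (I → Bool) → EuclideanSpace ℂ Ω) (k : Ω → Ω → ℝ) (i : I) (ρ : ℝ) :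
    dcorr i ρ (pairSum Ψ k) = corr ρ (fun x y => 4 * (sg i x y * ∑ τ, ∑ τ', k τ τ' *
      (xr Ψ i x τ * xr Ψ i y τ' - ‖dv Ψ i x τ‖ ^ 2 * ‖dv Ψ i y τ'‖ ^ 2))) := by
  set a : (I → Bool) → Ω → ℝ := fun x τ => xr Ψ i x τ - ‖dv Ψ i x τ‖ ^ 2 with ha
  set w : (I → Bool) → Ω → ℝ := fun x τ => ‖dv Ψ i x τ‖ ^ 2 with hw
  set G : (I → Bool) → (I → Bool) → ℝ := fun x y => 4 * (sg i x y * ∑ τ, ∑ τ', k τ τ' *
    (a x τ * w y τ' + w x τ * a y τ')) with hG
  have hG0 : corr ρ G = 0 := by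
    refine corr_odd ρ i G fun x y => ?_
    simp only [hG]
    rw [sg_flip_left, sg_flip_right, neg_neg]
    have : ∑ τ, ∑ τ', k τ τ' * (a (Lib_helper8.QAA.flip i x) τ * w (Lib_helper8.QAA.flip i y) τ' +
        w (Lib_helper8.QAA.flip i x) τ * a (Lib_helper8.QAA.flip i y) τ') =
        -∑ τ, ∑ τ', k τ τ' * (a x τ * w y τ' + w x τ * a y τ') := by
      rw [← Finset.sum_neg_distrib]
      refine Finset.sum_congr rfl fun τ _ => ?_
      rw [← Finset.sum_neg_distrib]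
      refine Finset.sum_congr rfl fun τ' _ => ?_
      simp only [ha, hw]
      rw [de_odd, de_odd, de_norm_flip, de_norm_flip]
      ring
    rw [this]
    ring
  rw [dcorr_eq]
  have hsum : corr ρ (fun x y => 4 * (sg i x y * ∑ τ, ∑ τ', k τ τ' *
      (xr Ψ i x τ * xr Ψ i y τ' - ‖dv Ψ i x τ‖ ^ 2 * ‖dv Ψ i y τ'‖ ^ 2))) =
      corr ρ (fun x y => sg i x y * ((pairSum Ψ k x y - pairSum Ψ k (Lib_helper8.QAA.flip i x) y -
        pairSum Ψ k x (Lib_helper8.QAA.flip i y) +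
        pairSum Ψ k (Lib_helper8.QAA.flip i x) (Lib_helper8.QAA.flip i y)) / 4)) + corr ρ G := by
    unfold corr
    rw [← mul_add, ← Finset.sum_add_distrib]
    congr 1
    refine Finset.sum_congr rfl fun x _ => ?_
    rw [← Finset.sum_add_distrib]
    refine Finset.sum_congr rfl fun y _ => ?_
    rw [← mul_add]
    congr 1
    have hp : (pairSum Ψ k x y - pairSum Ψ k (Lib_helper8.QAA.flip i x) y -
        pairSum Ψ k x (Lib_helper8.QAA.flip i y) +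
        pairSum Ψ k (Lib_helper8.QAA.flip i x) (Lib_helper8.QAA.flip i y)) / 4 =
        4 * ∑ τ, ∑ τ', k τ τ' * (a x τ * a y τ') := by
      unfold pairSum
      rw [← Finset.sum_sub_distrib, ← Finset.sum_sub_distrib, ← Finset.sum_add_distrib,
        Finset.sum_div, Finset.mul_sum]
      refine Finset.sum_congr rfl fun τ _ => ?_
      rw [← Finset.sum_sub_distrib, ← Finset.sum_sub_distrib, ← Finset.sum_add_distrib,
        Finset.sum_div, Finset.mul_sum]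
      refine Finset.sum_congr rfl fun τ' _ => ?_
      have h1 : ‖Ψ x τ‖ ^ 2 - ‖Ψ (Lib_helper8.QAA.flip i x) τ‖ ^ 2 = 4 * a x τ := de_half Ψ i x τ
      have h2 : ‖Ψ y τ'‖ ^ 2 - ‖Ψ (Lib_helper8.QAA.flip i y) τ'‖ ^ 2 = 4 * a y τ' :=
        de_half Ψ i y τ'
      have h3 : (‖Ψ x τ‖ ^ 2 - ‖Ψ (Lib_helper8.QAA.flip i x) τ‖ ^ 2) *
          (‖Ψ y τ'‖ ^ 2 - ‖Ψ (Lib_helper8.QAA.flip i y) τ'‖ ^ 2) = 16 * (a x τ * a y τ') := by
        rw [h1, h2]
        ring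
      linear_combination (k τ τ' / 4) * h3
    beta_reduce
    rw [hp]
    simp only [hG]
    have hs : ∑ τ, ∑ τ', k τ τ' *
        (xr Ψ i x τ * xr Ψ i y τ' - ‖dv Ψ i x τ‖ ^ 2 * ‖dv Ψ i y τ'‖ ^ 2) =
        ∑ τ, ∑ τ', k τ τ' * (a x τ * a y τ') +
        ∑ τ, ∑ τ', k τ τ' * (a x τ * w y τ' + w x τ * a y τ') := by
      rw [← Finset.sum_add_distrib]
      refine Finset.sum_congr rfl fun τ _ => ?_
      rw [← Finset.sum_add_distrib]
      refine Finset.sum_congr rfl fun τ' _ => ?_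
      simp only [ha, hw]
      ring
    rw [hs]
    ring
  rw [hsum, hG0, add_zero]


end Pool.Agent.HYB
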