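import Pool.Agent.Lib_helper64.HYB.Core

/-!
# One stage is tame

Written by helper52.
-/

/-!
# Block ST of the project HYB: one stage is tame
-/

set_option autoImplicit false
set_option linter.unusedSectionVars false

open Finset

namespace Pool.Agent.HYB

open Pool.Agent.Lib_helper8.QAA

variable {I : Type} [Fintype I] [DecidableEq I]

variable {A E : Type} [Fintype A] [Fintype E] {p : ℕ}

theorem st_norm_sq {Φ : EuclideanSpace ℂ (E × A)} {c : E → ℝ} (hc : ∀ e, 0 ≤ c e)
    {φ : E → EuclideanSpace ℂ A} (h : ∀ z, Φ z = (√(c z.1) : ℂ) * φ z.1 z.2) :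
    ‖Φ‖ ^ 2 = ∑ e, c e * ‖φ e‖ ^ 2 := by
  rw [norm_sq_eq, Fintype.sum_prod_type]
  refine Finset.sum_congr rfl fun e _ => ?_
  rw [norm_sq_eq, Finset.mul_sum]
  refine Finset.sum_congr rfl fun a _ => ?_
  rw [h (e, a), norm_mul, mul_pow, Complex.norm_real, Real.norm_of_nonneg (Real.sqrt_nonneg _),
    Real.sq_sqrt (hc e)]

theorem st_state (H : Hybrid I A E p) (h : List A) (e : E) (x : I → Bool) (s : ℕ) :
    ‖(H.stage h e).state s x‖ = 1 := by
  induction s with
  | zero => exact H.norm_init h e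
  | succ s ih =>
    show ‖(H.stage h e).step s ((H.stage h e).oracle x ((H.stage h e).state s x))‖ = 1
    rw [H.norm_step, ← ih]
    have h1 : ‖(H.stage h e).oracle x ((H.stage h e).state s x)‖ ^ 2 =
        ‖(H.stage h e).state s x‖ ^ 2 := by
      rw [norm_sq_eq, norm_sq_eq]
      refine Finset.sum_congr rfl fun a _ => ?_
      simp only [Algorithm.oracle, norm_mul, H.norm_phase, one_mul]
    exact (sq_eq_sq₀ (norm_nonneg _) (norm_nonneg _)).1 h1

theorem st_dv (H : Hybrid I A E p) (R : ℕ) (h : List A) (i : I) (x : I → Bool) (z : E × A) :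
    dv (H.amp R h) i x z = (√(H.weight h z.1) : ℂ) *
      ((1 / 2 : ℂ) * ((H.stage h z.1).state R x - (H.stage h z.1).state R
        (Lib_helper8.QAA.flip i x)) z.2) := by
  unfold dv Hybrid.amp
  simp only [PiLp.smul_apply, PiLp.sub_apply, smul_eq_mul]
  ring

/-- A combination of the derivatives of one stage. -/
theorem st_comb (H : Hybrid I A E p) (R : ℕ) (h : List A) (x : I → Bool) (v : I → ℂ) :
    ‖∑ i, v i • dv (H.amp R h) i x‖ ^ 2 ≤ ∑ e, H.weight h e * (R * ∑ s ∈ Finset.range R,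
      (1 / 4) * ‖∑ i, v i • (H.stage h e).w s i x‖ ^ 2) := by
  choose B hB1 hB2 using fun e => state_sub (H.stage h e) x R
  have h1 := st_norm_sq (Φ := ∑ i, v i • dv (H.amp R h) i x) (c := H.weight h)
    (H.weight_nonneg h) (φ := fun e => (1 / 2 : ℂ) • ∑ s ∈ Finset.range R,
      B e s (∑ i, v i • (H.stage h e).w s i x)) (by
      intro z
      have h2 : ∑ s ∈ Finset.range R, B z.1 s (∑ i, v i • (H.stage h z.1).w s i x) =
          ∑ i, v i • ((H.stage h z.1).state R x - (H.stage h z.1).state R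
            (Lib_helper8.QAA.flip i x)) := by
        simp_rw [map_sum, map_smul]
        rw [Finset.sum_comm]
        refine Finset.sum_congr rfl fun i _ => ?_
        rw [hB2 z.1 i, Finset.smul_sum]
      dsimp only
      rw [h2]
      simp only [PiLp.smul_apply, WithLp.ofLp_sum, Finset.sum_apply, smul_eq_mul]
      rw [Finset.mul_sum, Finset.mul_sum]
      refine Finset.sum_congr rfl fun i _ => ?_
      rw [st_dv]
      ring)
  rw [h1]
  refine Finset.sum_le_sum fun e _ => mul_le_mul_of_nonneg_left ?_ (H.weight_nonneg h e)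
  have h3 : ‖(1 / 2 : ℂ) • ∑ s ∈ Finset.range R, B e s (∑ i, v i • (H.stage h e).w s i x)‖ ≤
      (1 / 2) * ∑ s ∈ Finset.range R, ‖∑ i, v i • (H.stage h e).w s i x‖ := by
    rw [norm_smul]
    have h4 : ‖(1 / 2 : ℂ)‖ = 1 / 2 := by norm_num
    rw [h4]
    refine mul_le_mul_of_nonneg_left ?_ (by norm_num)
    refine (norm_sum_le _ _).trans ?_
    exact Finset.sum_le_sum fun s _ => hB1 e s _
  calc ‖(1 / 2 : ℂ) • ∑ s ∈ Finset.range R, B e s (∑ i, v i • (H.stage h e).w s i x)‖ ^ 2
      ≤ ((1 / 2) * ∑ s ∈ Finset.range R, ‖∑ i, v i • (H.stage h e).w s i x‖) ^ 2 :=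
        pow_le_pow_left₀ (norm_nonneg _) h3 2
    _ = (1 / 4) * (∑ s ∈ Finset.range R, ‖∑ i, v i • (H.stage h e).w s i x‖) ^ 2 := by ring
    _ ≤ (1 / 4) * (((Finset.range R).card : ℝ) *
          ∑ s ∈ Finset.range R, ‖∑ i, v i • (H.stage h e).w s i x‖ ^ 2) :=
        mul_le_mul_of_nonneg_left sq_sum_le_card_mul_sum_sq (by norm_num)
    _ = R * ∑ s ∈ Finset.range R, (1 / 4) * ‖∑ i, v i • (H.stage h e).w s i x‖ ^ 2 := by
        rw [Finset.card_range, ← Finset.mul_sum]
        ring

/-- The supports overlap at most `p` times. -/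
theorem st_supp (Q : Algorithm I A p) (s : ℕ) (x : I → Bool) (v : I → ℂ) :
    ‖∑ i, v i • Q.w s i x‖ ^ 2 ≤ p * ∑ i, ‖v i‖ ^ 2 * ‖Q.w s i x‖ ^ 2 := by
  rw [norm_sq_eq]
  have h1 : ∀ a, ‖(∑ i, v i • Q.w s i x : EuclideanSpace ℂ A) a‖ ^ 2 ≤
      p * ∑ i, ‖v i‖ ^ 2 * ‖Q.w s i x a‖ ^ 2 := by
    intro a
    have h2 : (∑ i, v i • Q.w s i x : EuclideanSpace ℂ A) a =
        ∑ i ∈ Q.query a, v i * Q.w s i x a := by
      simp only [WithLp.ofLp_sum, Finset.sum_apply, PiLp.smul_apply, smul_eq_mul]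
      symm
      refine Finset.sum_subset (Finset.subset_univ _) fun i _ hi => ?_
      rw [w_apply_eq_zero Q s i x (by simpa [Algorithm.look] using hi), mul_zero]
    rw [h2]
    calc ‖∑ i ∈ Q.query a, v i * Q.w s i x a‖ ^ 2
        ≤ (∑ i ∈ Q.query a, ‖v i‖ * ‖Q.w s i x a‖) ^ 2 := by
          refine pow_le_pow_left₀ (norm_nonneg _) ?_ 2
          refine (norm_sum_le _ _).trans (le_of_eq ?_)
          exact Finset.sum_congr rfl fun i _ => norm_mul _ _
      _ ≤ ((Q.query a).card : ℝ) * ∑ i ∈ Q.query a, (‖v i‖ * ‖Q.w s i x a‖) ^ 2 :=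
          sq_sum_le_card_mul_sum_sq
      _ ≤ p * ∑ i, ‖v i‖ ^ 2 * ‖Q.w s i x a‖ ^ 2 := by
          refine mul_le_mul (by exact_mod_cast Q.card_query_le a) ?_
            (Finset.sum_nonneg fun _ _ => by positivity) (by positivity)
          simp_rw [mul_pow]
          exact Finset.sum_le_sum_of_subset_of_nonneg (Finset.subset_univ _)
            fun _ _ _ => by positivity
  refine (Finset.sum_le_sum fun a _ => h1 a).trans (le_of_eq ?_)
  rw [← Finset.mul_sum, Finset.sum_comm]
  congr 1
  refine Finset.sum_congr rfl fun i _ => ?_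
  rw [norm_sq_eq, Finset.mul_sum]

theorem st_light (H : Hybrid I A E p) (R : ℕ) (h : List A) (x : I → Bool) (v : I → ℂ) :
    ‖∑ i, v i • dv (H.amp R h) i x‖ ^ 2 ≤
      R * p * ∑ i, ‖v i‖ ^ 2 * H.mag R h i (Lib_helper8.QAA.flip i x) := by
  refine (st_comb H R h x v).trans ?_
  have h1 : ∀ e, (R : ℝ) * ∑ s ∈ Finset.range R,
      (1 / 4) * ‖∑ i, v i • (H.stage h e).w s i x‖ ^ 2 ≤ R * ∑ s ∈ Finset.range R,
        p * ∑ i, ‖v i‖ ^ 2 * pm ((H.stage h e).look i)
          ((H.stage h e).state s (Lib_helper8.QAA.flip i x)) := by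
    intro e
    refine mul_le_mul_of_nonneg_left (Finset.sum_le_sum fun s _ => ?_) (by positivity)
    have h2 := st_supp (H.stage h e) s x v
    have h3 : ∑ i, ‖v i‖ ^ 2 * ‖(H.stage h e).w s i x‖ ^ 2 ≤
        4 * ∑ i, ‖v i‖ ^ 2 * pm ((H.stage h e).look i)
          ((H.stage h e).state s (Lib_helper8.QAA.flip i x)) := by
      rw [Finset.mul_sum]
      refine Finset.sum_le_sum fun i _ => ?_
      have h4 := mul_le_mul_of_nonneg_left (norm_w_sq (H.stage h e) s i x)
        (show 0 ≤ ‖v i‖ ^ 2 by positivity)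
      linarith
    have h5 := mul_le_mul_of_nonneg_left h3 (show (0 : ℝ) ≤ p by positivity)
    linarith
  refine (Finset.sum_le_sum fun e _ =>
    mul_le_mul_of_nonneg_left (h1 e) (H.weight_nonneg h e)).trans (le_of_eq ?_)
  unfold Hybrid.mag
  simp_rw [Finset.mul_sum]
  rw [Finset.sum_comm]
  calc ∑ s ∈ Finset.range R, ∑ e, ∑ i, H.weight h e * (R * (p * (‖v i‖ ^ 2 *
        pm ((H.stage h e).look i) ((H.stage h e).state s (Lib_helper8.QAA.flip i x)))))
      = ∑ s ∈ Finset.range R, ∑ i, ∑ e, H.weight h e * (R * (p * (‖v i‖ ^ 2 *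
        pm ((H.stage h e).look i) ((H.stage h e).state s (Lib_helper8.QAA.flip i x))))) :=
        Finset.sum_congr rfl fun s _ => Finset.sum_comm
    _ = ∑ i, ∑ s ∈ Finset.range R, ∑ e, H.weight h e * (R * (p * (‖v i‖ ^ 2 *
        pm ((H.stage h e).look i) ((H.stage h e).state s (Lib_helper8.QAA.flip i x))))) :=
        Finset.sum_comm
    _ = ∑ i, ∑ e, ∑ s ∈ Finset.range R, R * p * (‖v i‖ ^ 2 * (H.weight h e *
        pm ((H.stage h e).look i) ((H.stage h e).state s (Lib_helper8.QAA.flip i x)))) := by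
        refine Finset.sum_congr rfl fun i _ => ?_
        rw [Finset.sum_comm]
        refine Finset.sum_congr rfl fun e _ => Finset.sum_congr rfl fun s _ => ?_
        ring

theorem st_flip (H : Hybrid I A E p) (R : ℕ) (h : List A) (i : I) (x : I → Bool) :
    dv (H.amp R h) i (Lib_helper8.QAA.flip i x) = - dv (H.amp R h) i x := by
  unfold dv
  rw [Lib_helper8.QAA.flip_flip, ← smul_neg, neg_sub]

theorem st_deriv (H : Hybrid I A E p) (R : ℕ) (h : List A) (x : I → Bool) :
    ∑ i, ‖dv (H.amp R h) i x‖ ^ 2 ≤ (R * √p) ^ 2 := by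
  have h1 : ∀ i, ‖dv (H.amp R h) i x‖ ^ 2 ≤ ∑ e, H.weight h e * (R * ∑ s ∈ Finset.range R,
      pm ((H.stage h e).look i) ((H.stage h e).state s x)) := by
    intro i
    have h2 : ‖dv (H.amp R h) i x‖ ^ 2 =
        ‖∑ j, (Pi.single i 1 : I → ℂ) j • dv (H.amp R h) j (Lib_helper8.QAA.flip i x)‖ ^ 2 := by
      rw [Finset.sum_eq_single i]
      · rw [Pi.single_eq_same, one_smul, st_flip, norm_neg]
      · intro j _ hj
        rw [Pi.single_eq_of_ne hj, zero_smul]
      · intro hi
        exact absurd (Finset.mem_univ i) hi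
    rw [h2]
    refine (st_comb H R h _ _).trans ?_
    refine Finset.sum_le_sum fun e _ => mul_le_mul_of_nonneg_left ?_ (H.weight_nonneg h e)
    refine mul_le_mul_of_nonneg_left (Finset.sum_le_sum fun s _ => ?_) (by positivity)
    have h3 : ∑ j, (Pi.single i 1 : I → ℂ) j • (H.stage h e).w s j (Lib_helper8.QAA.flip i x) =
        (H.stage h e).w s i (Lib_helper8.QAA.flip i x) := by
      rw [Finset.sum_eq_single i]
      · rw [Pi.single_eq_same, one_smul]
      · intro j _ hj
        rw [Pi.single_eq_of_ne hj, zero_smul]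
      · intro hi
        exact absurd (Finset.mem_univ i) hi
    rw [h3]
    have h4 := norm_w_sq (H.stage h e) s i (Lib_helper8.QAA.flip i x)
    rw [Lib_helper8.QAA.flip_flip] at h4
    linarith
  refine (Finset.sum_le_sum fun i _ => h1 i).trans ?_
  rw [Finset.sum_comm, mul_pow, Real.sq_sqrt (by positivity)]
  calc ∑ e, ∑ i, H.weight h e * (R * ∑ s ∈ Finset.range R,
        pm ((H.stage h e).look i) ((H.stage h e).state s x))
      ≤ ∑ e, H.weight h e * ((R : ℝ) ^ 2 * p) := by
        refine Finset.sum_le_sum fun e _ => ?_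
        rw [← Finset.mul_sum]
        refine mul_le_mul_of_nonneg_left ?_ (H.weight_nonneg h e)
        rw [← Finset.mul_sum, Finset.sum_comm]
        have h5 : ∑ s ∈ Finset.range R, ∑ i, pm ((H.stage h e).look i)
            ((H.stage h e).state s x) ≤ ∑ s ∈ Finset.range R, (p : ℝ) := by
          refine Finset.sum_le_sum fun s _ => ?_
          have h6 := sum_pm_look (H.stage h e) ((H.stage h e).state s x)
          rw [st_state, one_pow, mul_one] at h6
          exact h6
        rw [Finset.sum_const, Finset.card_range, nsmul_eq_mul] at h5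
        have h7 := mul_le_mul_of_nonneg_left h5 (show (0 : ℝ) ≤ R by positivity)
        exact h7.trans (le_of_eq (by ring))
    _ = (R : ℝ) ^ 2 * p := by rw [← Finset.sum_mul, H.sum_weight, one_mul]

theorem tame_stage (H : Hybrid I A E p) (R : ℕ) (h : List A) (J : Finset I)
    {m : (I → Bool) → ℝ} (hm0 : ∀ x, 0 ≤ m x) (hm : ∀ x, ∀ i ∉ J, H.mag R h i x ≤ m x) :
    Tame (H.amp R h) (fun _ => J) m (R * p) (R * √p) where
  norm_eq := by
    intro x
    have h1 := st_norm_sq (Φ := H.amp R h x) (c := H.weight h) (H.weight_nonneg h)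
      (φ := fun e => (H.stage h e).state R x) (fun z => rfl)
    simp_rw [st_state, one_pow, mul_one] at h1
    rw [H.sum_weight] at h1
    exact (sq_eq_sq₀ (norm_nonneg _) zero_le_one).1 (by rw [h1, one_pow])
  M_nonneg := hm0
  κ_nonneg := by positivity
  b_nonneg := by positivity
  deriv_le := st_deriv H R h
  split := by
    refine ⟨fun i x => if i ∈ J then 0 else dv (H.amp R h) i x, ?_, ?_, ?_⟩
    · intro i x τ hi
      have hi' : i ∉ J := hi
      dsimp only
      rw [if_neg hi']
    · intro x v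
      have h1 : ∑ i, v i • (if i ∈ J then (0 : EuclideanSpace ℂ (E × A)) else
          dv (H.amp R h) i x) = ∑ i, (if i ∈ J then 0 else v i) • dv (H.amp R h) i x := by
        refine Finset.sum_congr rfl fun i _ => ?_
        split_ifs
        · rw [smul_zero, zero_smul]
        · rfl
      dsimp only
      rw [h1]
      refine (st_light H R h x _).trans ?_
      refine mul_le_mul_of_nonneg_left (Finset.sum_le_sum fun i _ => ?_) (by positivity)
      by_cases hi : i ∈ J
      · rw [if_pos hi, norm_zero]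
        have := mul_nonneg (show 0 ≤ ‖v i‖ ^ 2 by positivity) (hm0 (Lib_helper8.QAA.flip i x))
        simpa using this
      · rw [if_neg hi]
        exact mul_le_mul_of_nonneg_left (hm _ i hi) (by positivity)
    · intro x
      refine le_trans (Finset.sum_le_sum fun i _ => ?_) (st_deriv H R h x)
      dsimp only
      split_ifs
      · rw [sub_zero, st_flip, norm_neg]
      · rw [sub_self, norm_zero, zero_pow (by norm_num)]
        positivity


end Pool.Agent.HYB
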