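import Pool.Agent.Lib_helper64.HYB.CP
import Pool.Agent.Lib_helper64.HYB.ST

/-!
# The transcripts of a hybrid algorithm

Written by helper81.
-/

set_option autoImplicit false
set_option linter.unusedSectionVars false

open Finset

namespace Pool.Agent.HYB

open Pool.Agent.Lib_helper8.QAA

variable {I : Type} [Fintype I] [DecidableEq I]

variable {Ω : Type} [Fintype Ω]

variable {A E : Type} [Fintype A] [Fintype E] {p : ℕ}

lemma hy_pm_nonneg (T : Finset A) (φ : EuclideanSpace ℂ A) : 0 ≤ pm T φ :=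
  Finset.sum_nonneg fun _ _ => by positivity

lemma hy_mag_nonneg (H : Hybrid I A E p) (R : ℕ) (h : List A) (i : I) (x : I → Bool) :
    0 ≤ H.mag R h i x :=
  Finset.sum_nonneg fun e _ => mul_nonneg (H.weight_nonneg h e)
    (Finset.sum_nonneg fun _ _ => hy_pm_nonneg _ _)

lemma hy_norm_amp_sq (H : Hybrid I A E p) (R : ℕ) (h : List A) (x : I → Bool) (z : E × A) :
    ‖H.amp R h x z‖ ^ 2 = H.weight h z.1 * ‖(H.stage h z.1).state R x z.2‖ ^ 2 := by
  unfold Hybrid.amp
  simp only
  rw [norm_mul, mul_pow, Complex.norm_real, Real.norm_eq_abs, sq_abs,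
    Real.sq_sqrt (H.weight_nonneg h z.1)]

lemma hy_sum_amp (H : Hybrid I A E p) (R : ℕ) (h : List A) (x : I → Bool) (f : A → ℝ) :
    ∑ z : E × A, ‖H.amp R h x z‖ ^ 2 * f z.2 = ∑ a, H.outcome R h x a * f a := by
  simp_rw [hy_norm_amp_sq]
  rw [Fintype.sum_prod_type, Finset.sum_comm]
  refine Finset.sum_congr rfl fun a _ => ?_
  unfold Hybrid.outcome
  rw [Finset.sum_mul]

theorem tame_psi (H : Hybrid I A E p) (R : ℕ) (J : List A → Finset I) (T : ℕ) (h : List A) :
    Tame (H.psi R T h) (setQ E J T h) (H.light R J T h) (T * (R * p)) (T * (R * √p)) := by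
  induction T generalizing h with
  | zero =>
    have hdv : ∀ i x, dv (H.psi R 0 h) i x = 0 := by
      intro i x
      unfold dv
      have : H.psi R 0 h x - H.psi R 0 h (Lib_helper8.QAA.flip i x) = 0 := sub_self _
      rw [this, smul_zero]
    refine ⟨?_, ?_, ?_, ?_, ?_, ?_⟩
    · intro x
      have h1 : ‖H.psi R 0 h x‖ ^ 2 = 1 := by
        rw [norm_sq_eq]
        have : ∀ a : Tr A E 0, ‖H.psi R 0 h x a‖ ^ 2 = 1 := by
          intro a
          have : H.psi R 0 h x a = 1 := rfl
          rw [this]; simp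
        simp_rw [this]
        rw [Finset.sum_const, nsmul_eq_mul, mul_one]
        have : (Finset.univ : Finset (Tr A E 0)).card = 1 := rfl
        rw [this]; simp
      nlinarith [norm_nonneg (H.psi R 0 h x), h1]
    · intro x; exact le_rfl
    · simp
    · simp
    · intro x
      simp [hdv]
    · refine ⟨fun _ _ => 0, ?_, ?_, ?_⟩
      · intro i x τ _
        rw [hdv]
      · intro x v
        simp
      · intro x
        simp [hdv]
  | succ T ih =>
    set m : (I → Bool) → ℝ := fun x => ⨆ i : {i // i ∉ J h}, H.mag R h i x with hm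
    have hm0 : ∀ x, 0 ≤ m x := fun x => Real.iSup_nonneg fun i => hy_mag_nonneg H R h i x
    have hm1 : ∀ x, ∀ i ∉ J h, H.mag R h i x ≤ m x := by
      intro x i hi
      exact le_ciSup (f := fun i : {i // i ∉ J h} => H.mag R h i x) (Set.finite_range _).bddAbove
        ⟨i, hi⟩
    have hst := tame_stage H R h (J h) hm0 hm1
    have hc := tame_comp hst (κ₂ := T * (R * p)) (b₂ := T * (R * √p)) (by positivity)
      (by positivity) (Ψ := fun z : E × A => H.psi R T (z.2 :: h))
      (Q := fun z : E × A => setQ E J T (z.2 :: h))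
      (M := fun z : E × A => H.light R J T (z.2 :: h)) (fun z => ih (z.2 :: h))
    have e1 : (fun x => m x + ∑ z : E × A, ‖H.amp R h x z‖ ^ 2 * H.light R J T (z.2 :: h) x) =
        H.light R J (T + 1) h := by
      funext x
      rw [hy_sum_amp H R h x (fun a => H.light R J T (a :: h) x)]
      rfl
    have e2 : (R * p + T * (R * p) : ℝ) = ((T + 1 : ℕ) : ℝ) * (R * p) := by push_cast; ring
    have e3 : (R * √p + T * (R * √p) : ℝ) = ((T + 1 : ℕ) : ℝ) * (R * √p) := by push_cast; ring
    rw [e2, e3] at hc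
    rw [← e1]
    exact hc

theorem val_psi (H : Hybrid I A E p) (R : ℕ) (T : ℕ) (h : List A) :
    val (H.psi R T h) (H.acc T h) = H.prob R T h := by
  induction T generalizing h with
  | zero =>
    funext x
    show ∑ τ : Tr A E 0, H.acc 0 h τ * ‖H.psi R 0 h x τ‖ ^ 2 = H.accept h
    have : ∀ τ : Tr A E 0, H.acc 0 h τ * ‖H.psi R 0 h x τ‖ ^ 2 = H.accept h := by
      intro τ
      have h1 : H.psi R 0 h x τ = 1 := rfl
      have h2 : H.acc 0 h τ = H.accept h := rfl
      rw [h1, h2]; simp
    simp_rw [this]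
    rw [Finset.sum_const]
    have : (Finset.univ : Finset (Tr A E 0)).card = 1 := rfl
    rw [this, one_smul]
  | succ T ih =>
    funext x
    have h1 : val (H.psi R (T + 1) h) (H.acc (T + 1) h) x =
        ∑ z : (E × A) × Tr A E T, H.acc T (z.1.2 :: h) z.2 *
          ‖H.amp R h x z.1 * H.psi R T (z.1.2 :: h) x z.2‖ ^ 2 := rfl
    rw [h1, Fintype.sum_prod_type]
    have h2 : ∀ z : E × A, ∑ τ : Tr A E T, H.acc T (z.2 :: h) τ *
          ‖H.amp R h x z * H.psi R T (z.2 :: h) x τ‖ ^ 2 =
        ‖H.amp R h x z‖ ^ 2 * H.prob R T (z.2 :: h) x := by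
      intro z
      rw [← ih (z.2 :: h)]
      unfold val
      rw [Finset.mul_sum]
      refine Finset.sum_congr rfl fun τ _ => ?_
      rw [norm_mul, mul_pow]
      ring
    rw [Finset.sum_congr rfl fun z _ => h2 z,
      hy_sum_amp H R h x (fun a => H.prob R T (a :: h) x)]
    rfl

theorem acc_mem (H : Hybrid I A E p) (T : ℕ) (h : List A) (τ : Tr A E T) :
    0 ≤ H.acc T h τ ∧ H.acc T h τ ≤ 1 := by
  induction T generalizing h with
  | zero => exact ⟨H.accept_nonneg h, H.accept_le_one h⟩
  | succ T ih => exact ih (τ.1.2 :: h) τ.2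

theorem card_setQ (J : List A → Finset I) {W : ℝ} (hW : ∀ h, ((J h).card : ℝ) ≤ W) (T : ℕ)
    (h : List A) (τ : Tr A E T) : ((setQ E J T h τ).card : ℝ) ≤ T * W := by
  induction T generalizing h with
  | zero =>
    have : setQ E J 0 h τ = ∅ := rfl
    rw [this]; simp
  | succ T ih =>
    have h1 : setQ E J (T + 1) h τ = J h ∪ setQ E J T (τ.1.2 :: h) τ.2 := rfl
    rw [h1]
    have h2 : ((J h ∪ setQ E J T (τ.1.2 :: h) τ.2).card : ℝ) ≤
        (J h).card + (setQ E J T (τ.1.2 :: h) τ.2).card := by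
      exact_mod_cast Finset.card_union_le _ _
    refine h2.trans ?_
    have h3 := hW h
    have h4 := ih (τ.1.2 :: h) τ.2
    push_cast
    linarith


end Pool.Agent.HYB
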