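import Pool.Agent.Lib_helper64.HYB.AA
import Pool.Agent.Lib_helper64.HYB.HY

/-!
# The general theorem

Written by helper49.
-/

/-!
# Hybrid algorithms, block HG: the general theorem, the pointwise bound of `light`
-/

set_option autoImplicit false
set_option linter.unusedSectionVars false

open Finset

namespace Pool.Agent.HYB

open Pool.Agent.Lib_helper8.QAA

variable {I : Type} [Fintype I] [DecidableEq I]

variable {A E : Type} [Fintype A] [Fintype E] {p : ℕ}

theorem hg_outcome_nonneg (H : Hybrid I A E p) (R : ℕ) (h : List A) (x : I → Bool) (a : A) :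
    0 ≤ H.outcome R h x a :=
  Finset.sum_nonneg fun e _ => mul_nonneg (H.weight_nonneg h e) (sq_nonneg _)

theorem hg_sum_outcome (H : Hybrid I A E p) (R : ℕ) (h : List A) (x : I → Bool) :
    ∑ a, H.outcome R h x a ≤ 1 := by
  unfold Hybrid.outcome
  rw [Finset.sum_comm]
  calc ∑ e, ∑ a, H.weight h e * ‖(H.stage h e).state R x a‖ ^ 2
      = ∑ e, H.weight h e * ‖(H.stage h e).state R x‖ ^ 2 :=
        Finset.sum_congr rfl fun e _ => by rw [norm_sq_eq, Finset.mul_sum]
    _ ≤ ∑ e, H.weight h e * 1 := by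
        refine Finset.sum_le_sum fun e _ => mul_le_mul_of_nonneg_left ?_ (H.weight_nonneg h e)
        have h1 := norm_state_le (H.stage h e) R x
        exact pow_le_one₀ (norm_nonneg _) h1
    _ = 1 := by simp_rw [mul_one]; exact H.sum_weight h

theorem light_le (H : Hybrid I A E p) (R : ℕ) (J : List A → Finset I) {η : ℝ} (hη : 0 ≤ η)
    (hm : ∀ h x, ∀ i ∉ J h, H.mag R h i x ≤ η) (T : ℕ) (h : List A) (x : I → Bool) :
    H.light R J T h x ≤ T * η := by
  induction T generalizing h with
  | zero => simp [Hybrid.light]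
  | succ T ih =>
    show (⨆ i : {i // i ∉ J h}, H.mag R h i x) +
      ∑ a, H.outcome R h x a * H.light R J T (a :: h) x ≤ _
    have h1 : (⨆ i : {i // i ∉ J h}, H.mag R h i x) ≤ η :=
      Real.iSup_le (fun i => hm h x i.1 i.2) hη
    have h2 : ∑ a, H.outcome R h x a * H.light R J T (a :: h) x ≤ T * η := by
      have hT : 0 ≤ (T : ℝ) * η := by positivity
      calc ∑ a, H.outcome R h x a * H.light R J T (a :: h) x
          ≤ ∑ a, H.outcome R h x a * (T * η) :=
            Finset.sum_le_sum fun a _ =>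
              mul_le_mul_of_nonneg_left (ih (a :: h)) (hg_outcome_nonneg H R h x a)
        _ = (∑ a, H.outcome R h x a) * (T * η) := by rw [Finset.sum_mul]
        _ ≤ 1 * (T * η) := mul_le_mul_of_nonneg_right (hg_sum_outcome H R h x) hT
        _ = T * η := one_mul _
    push_cast
    linarith

theorem hybrid_general (H : Hybrid I A E p) (R T : ℕ) (J : List A → Finset I) {W v : ℝ}
    (hW0 : 0 < W) (hW : ∀ h, ((J h).card : ℝ) ≤ W) (hv : 0 < v)
    (hvar : variance (H.prob R T []) = v)
    (hs : 2 ^ 16 * ((T * R) ^ 3 * p ^ 2 * ex (H.light R J T [])) ≤ v ^ 2) :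
    ∃ i, v ^ 4 / (2 ^ 10 * (T * W) ^ 4) ≤ influence (H.prob R T []) i := by
  have hvx : ex (fun x => H.prob R T [] x ^ 2) - ex (H.prob R T []) ^ 2 = v := hvar
  rcases Nat.eq_zero_or_pos T with hT | hT
  · exfalso
    subst hT
    have h1 : ex (fun x : I → Bool => H.prob R 0 [] x ^ 2) = H.accept [] ^ 2 :=
      ex_const (H.accept [] ^ 2)
    have h2 : ex (H.prob R 0 ([] : List A) : (I → Bool) → ℝ) = H.accept [] :=
      ex_const (H.accept [])
    rw [h1, h2, sub_self] at hvx
    exact hv.ne hvx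
  · have hT' : (0 : ℝ) < T := by exact_mod_cast hT
    have hval := val_psi H R T []
    have hκ : ((T : ℝ) * (R * p)) * ((T : ℝ) * (R * √p)) ^ 2 = ((T : ℝ) * R) ^ 3 * (p : ℝ) ^ 2 := by
      have h1 : √(p : ℝ) ^ 2 = p := Real.sq_sqrt (Nat.cast_nonneg p)
      calc ((T : ℝ) * (R * p)) * ((T : ℝ) * (R * √p)) ^ 2
          = ((T : ℝ) * R) ^ 3 * p * √(p : ℝ) ^ 2 := by ring
        _ = ((T : ℝ) * R) ^ 3 * (p : ℝ) ^ 2 := by rw [h1]; ring
    have key := aa_tame (tame_psi H R J T []) (g := H.acc T []) (fun τ => (acc_mem H T [] τ).1)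
      (fun τ => (acc_mem H T [] τ).2) (v := v) (W := T * W) hv (by rw [hval]; exact hvx)
      (by positivity) (card_setQ J hW T []) (by rw [hκ]; exact hs)
    rw [hval] at key
    exact key


end Pool.Agent.HYB
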