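import Pool.Agent.Lib_helper64.HYB.Defs

/-!
# Three kinds of stages (definitions)
-/

set_option autoImplicit false

open Finset

namespace Pool.Agent.HYB

open Pool.Agent.Lib_helper8.QAA

variable {I A E : Type} [Fintype A] [Fintype E] {p : ℕ}

/-- The stage which follows the record `h` is *short*: it queries the input in its first `r` rounds
only (before the queries of a later round the state has no component on a basis state which looks
at a coordinate). -/
def Hybrid.Short (H : Hybrid I A E p) (R r : ℕ) (h : List A) : Prop :=
  ∀ e x s a, r ≤ s → s < R → (H.stage h e).state s x a ≠ 0 → (H.stage h e).query a = ∅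

/-- The stage which follows the record `h` has `k` *clean qubits*: the quantum algorithm does not
depend on the hidden randomness `e`, apart from its initial state, and the average of the initial
state (a density matrix) is at most `2^k` times the maximally mixed state of the workspace `ℂ^A`.
Example: `k` qubits in the state `|0…0⟩` and the maximally mixed state of all the others. -/
def Hybrid.Clean (H : Hybrid I A E p) (k : ℕ) (h : List A) : Prop :=
  (∀ e e', (H.stage h e).query = (H.stage h e').query ∧
    (H.stage h e).phase = (H.stage h e').phase ∧ (H.stage h e).step = (H.stage h e').step) ∧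
  ∀ φ : EuclideanSpace ℂ A, ∑ e, H.weight h e * ‖inner ℂ φ (H.stage h e).init‖ ^ 2 ≤
    2 ^ k / Fintype.card A * ‖φ‖ ^ 2

/-- The probability of the Pauli operator `u` on `l` qubits (`(u q).1`: bit flip, `(u q).2`: phase
flip of the qubit `q`) under the depolarizing noise of rate `lam` on every qubit. -/
noncomputable def depol (lam : ℝ) {l : ℕ} (u : Fin l → Bool × Bool) : ℝ :=
  ∏ q, if u q = (false, false) then 1 - 3 * lam / 4 else lam / 4

/-- The Pauli operator `u` on `p` registers of `l` qubits. -/
noncomputable def pauli {p l : ℕ} {B : Type} (u : Fin p → Fin l → Bool × Bool)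
    (φ : EuclideanSpace ℂ ((Fin p → Fin l → Bool) × B)) :
    EuclideanSpace ℂ ((Fin p → Fin l → Bool) × B) :=
  WithLp.toLp 2 fun z => (∏ j, ∏ q, if ((u j q).2 && z.1 j q) = true then (-1 : ℂ) else 1) *
    φ (fun j q => xor (z.1 j q) (u j q).1, z.2)

/-- The stage which follows the record `h` is *noisy*: the workspace consists of `p` address
registers of `l` qubits each and of further qubits (basis `B`); a basis state looks at coordinates
whose addresses are in its address registers only; and before the queries of each of the `R` rounds
the depolarizing noise of rate `lam` acts on all address qubits: the state is `pauli (v e) (ψ (y e) x)`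
where the random variable `v` (the noise) has the distribution of the depolarizing noise and is
independent of the random variable `y` (everything else that the state before the noise depends on,
e.g. the noise in the earlier rounds and any other noise). -/
def Hybrid.Noisy (H : Hybrid I A E p) (R : ℕ) (lam : ℝ) (h : List A) : Prop :=
  ∃ (l : ℕ) (B : Type) (_ : Fintype B) (addr : I ↪ (Fin l → Bool))
    (reg : A ≃ (Fin p → Fin l → Bool) × B),
    (∀ e a, ∀ i ∈ (H.stage h e).query a, ∃ j, (reg a).1 j = addr i) ∧
    ∀ s < R, ∃ (Y : Type) (v : E → Fin p → Fin l → Bool × Bool) (y : E → Y)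
      (ψ : Y → (I → Bool) → EuclideanSpace ℂ ((Fin p → Fin l → Bool) × B)),
      (∀ F : (Fin p → Fin l → Bool × Bool) → Y → ℝ, ∑ e, H.weight h e * F (v e) (y e) =
        ∑ e, H.weight h e * ∑ u, (∏ j, depol lam (u j)) * F u (y e)) ∧
      ∀ e x a, (H.stage h e).state s x a = pauli (v e) (ψ (y e) x) (reg a)

/-- `2^20 n^6 (16 n)^(2 (r - 1) p) / X` where `n = T R p` is the number of queries. -/
noncomputable def bound (T R p r : ℕ) (X : ℝ) : ℝ :=
  2 ^ 20 * (T * R * p : ℝ) ^ 6 * (16 * (T * R * p : ℝ)) ^ (2 * ((r - 1) * p)) / X

end Pool.Agent.HYB
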