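import Pool.Agent.Lib_helper64.HYB.Core
import Pool.Agent.Lib_helper64.HYB.Kinds

/-!
# Query magnitudes of stages with clean qubits

Adapted from a proof written by helper97.
-/

set_option autoImplicit false
set_option linter.unusedSectionVars false

open Finset

namespace Pool.Agent.HYB

open Pool.Agent.Lib_helper8.QAA

variable {I : Type} [Fintype I] [DecidableEq I]
variable {A E : Type} [Fintype A] [Fintype E] {p : ℕ}

/-- the first `s` rounds as a linear map -/
noncomputable def k1_V (Q : Algorithm I A p) (x : I → Bool) :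
    ℕ → (EuclideanSpace ℂ A →L[ℂ] EuclideanSpace ℂ A)
  | 0 => ContinuousLinearMap.id ℂ _
  | s + 1 => (Q.step s).comp ((Q.oracleL x).comp (k1_V Q x s))

theorem k1_V_norm (Q : Algorithm I A p) (x : I → Bool) :
    ∀ (s : ℕ) (φ : EuclideanSpace ℂ A), ‖k1_V Q x s φ‖ ≤ ‖φ‖
  | 0, _ => le_rfl
  | s + 1, φ => (Q.norm_step_le s _).trans
      ((norm_oracle_le Q x _).trans (k1_V_norm Q x s φ))

theorem k1_state (Q Q' : Algorithm I A p) (hph : Q'.phase = Q.phase) (hst : Q'.step = Q.step)
    (x : I → Bool) : ∀ s : ℕ, Q'.state s x = k1_V Q x s Q'.init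
  | 0 => rfl
  | s + 1 => by
    have ih := k1_state Q Q' hph hst x s
    show Q'.step s (Q'.oracle x (Q'.state s x)) = Q.step s (Q.oracle x (k1_V Q x s Q'.init))
    rw [ih, hst]
    unfold Algorithm.oracle
    rw [hph]

/-- a row of a contraction -/
theorem k1_row [DecidableEq A] (V : EuclideanSpace ℂ A →L[ℂ] EuclideanSpace ℂ A)
    (hV : ∀ φ, ‖V φ‖ ≤ ‖φ‖) (a : A) :
    ∃ y : EuclideanSpace ℂ A, ‖y‖ ≤ 1 ∧ ∀ φ, ‖V φ a‖ = ‖inner ℂ y φ‖ := by
  refine ⟨ContinuousLinearMap.adjoint V (EuclideanSpace.single a (1 : ℂ)), ?_, fun φ => ?_⟩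
  · set y := ContinuousLinearMap.adjoint V (EuclideanSpace.single a (1 : ℂ)) with hy
    have h5 : ‖y‖ ^ 2 ≤ ‖y‖ := by
      have h6 : ‖y‖ ^ 2 = ‖inner ℂ (EuclideanSpace.single a (1 : ℂ)) (V y)‖ := by
        rw [← ContinuousLinearMap.adjoint_inner_left, ← hy, inner_self_eq_norm_sq_to_K]
        simp
      rw [h6]
      refine (norm_inner_le_norm _ _).trans ?_
      rw [EuclideanSpace.norm_single, norm_one, one_mul]
      exact hV y
    nlinarith [norm_nonneg y]
  · rw [ContinuousLinearMap.adjoint_inner_left, EuclideanSpace.inner_single_left]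
    simp

theorem k1_mag (H : Hybrid I A E p) {k : ℕ} {h : List A} (hH : H.Clean k h) (R : ℕ) (e₀ : E)
    (i : I) (x : I → Bool) :
    H.mag R h i x ≤ R * (2 ^ k * ((H.stage h e₀).look i).card / Fintype.card A) := by
  classical
  have hstate : ∀ e s, (H.stage h e).state s x = k1_V (H.stage h e₀) x s (H.stage h e).init :=
    fun e s => k1_state _ _ (hH.1 e e₀).2.1 (hH.1 e e₀).2.2 x s
  have hlook : ∀ e, (H.stage h e).look i = (H.stage h e₀).look i := by
    intro e
    unfold Algorithm.look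
    rw [(hH.1 e e₀).1]
  have hrow : ∀ (s : ℕ) (a : A),
      ∑ e, H.weight h e * ‖(H.stage h e).state s x a‖ ^ 2 ≤ 2 ^ k / Fintype.card A := by
    intro s a
    obtain ⟨y, hy, hy2⟩ := k1_row (k1_V (H.stage h e₀) x s) (k1_V_norm _ x s) a
    have h1 : ∑ e, H.weight h e * ‖(H.stage h e).state s x a‖ ^ 2 =
        ∑ e, H.weight h e * ‖inner ℂ y (H.stage h e).init‖ ^ 2 :=
      sum_congr rfl fun e _ => by rw [hstate, hy2]
    rw [h1]
    refine (hH.2 y).trans ?_
    have h2 : ‖y‖ ^ 2 ≤ 1 := pow_le_one₀ (norm_nonneg _) hy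
    have h3 : (0 : ℝ) ≤ 2 ^ k / Fintype.card A := by positivity
    nlinarith
  unfold Hybrid.mag
  calc ∑ e, H.weight h e * ∑ s ∈ range R, pm ((H.stage h e).look i) ((H.stage h e).state s x)
      = ∑ s ∈ range R, ∑ a ∈ (H.stage h e₀).look i,
          ∑ e, H.weight h e * ‖(H.stage h e).state s x a‖ ^ 2 := by
        have h1 : ∀ e ∈ (univ : Finset E), H.weight h e *
            ∑ s ∈ range R, pm ((H.stage h e).look i) ((H.stage h e).state s x) =
            ∑ s ∈ range R, ∑ a ∈ (H.stage h e₀).look i,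
              H.weight h e * ‖(H.stage h e).state s x a‖ ^ 2 := by
          intro e _
          rw [hlook e, mul_sum]
          refine sum_congr rfl fun s _ => ?_
          unfold pm
          rw [mul_sum]
        rw [sum_congr rfl h1, sum_comm]
        exact sum_congr rfl fun s _ => sum_comm
    _ ≤ ∑ s ∈ range R, ∑ a ∈ (H.stage h e₀).look i, (2 ^ k / Fintype.card A : ℝ) :=
        sum_le_sum fun s _ => sum_le_sum fun a _ => hrow s a
    _ = R * (2 ^ k * ((H.stage h e₀).look i).card / Fintype.card A) := by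
        simp only [sum_const, card_range, nsmul_eq_mul]
        ring

end Pool.Agent.HYB
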