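import Pool.Agent.Lib_helper64.HYB.Kinds

/-!
# Query magnitudes of noisy stages

Written by helper4.
-/

set_option autoImplicit false
set_option linter.unusedSectionVars false

open Finset

namespace Pool.Agent.HYB

open Pool.Agent.Lib_helper8.QAA

/-- resampling one coordinate -/
theorem k2_resample {α : Type} [Fintype α] {n : ℕ} (s : Fin (n + 1)) (w : α → ℝ)
    (hw0 : ∀ v, 0 ≤ w v) (hw1 : ∑ v, w v = 1) (G : (Fin (n + 1) → α) → ℝ) (C : ℝ)
    (hG : ∀ u' : Fin n → α, ∑ v, w v * G (s.insertNth v u') ≤ C) :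
    ∑ u, (∏ j, w (u j)) * G u ≤ C := by
  classical
  have h1 : ∑ u, (∏ j, w (u j)) * G u =
      ∑ u' : Fin n → α, (∏ j, w (u' j)) * ∑ v, w v * G (s.insertNth v u') := by
    rw [← (Fin.insertNthEquiv (fun _ => α) s).sum_comp (fun u => (∏ j, w (u j)) * G u),
      Fintype.sum_prod_type_right]
    refine Finset.sum_congr rfl fun u' _ => ?_
    rw [Finset.mul_sum]
    refine Finset.sum_congr rfl fun v _ => ?_
    show (∏ j, w ((s.insertNth v u' : Fin (n + 1) → α) j)) * G (s.insertNth v u') = _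
    rw [Fin.prod_univ_succAbove _ s, Fin.insertNth_apply_same]
    have h2 : ∀ j, w ((s.insertNth v u' : Fin (n + 1) → α) (s.succAbove j)) = w (u' j) := fun j => by
      rw [Fin.insertNth_apply_succAbove]
    rw [Finset.prod_congr rfl fun j _ => h2 j]
    ring
  have h3 : ∑ u' : Fin n → α, ∏ j, w (u' j) = 1 := by
    have h4 := Finset.prod_univ_sum (fun _ : Fin n => (Finset.univ : Finset α)) (fun _ v => w v)
    rw [Fintype.piFinset_univ] at h4
    rw [← h4, Finset.prod_congr rfl fun _ _ => hw1, Finset.prod_const_one]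
  rw [h1]
  calc ∑ u' : Fin n → α, (∏ j, w (u' j)) * ∑ v, w v * G (s.insertNth v u')
      ≤ ∑ u' : Fin n → α, (∏ j, w (u' j)) * C :=
        Finset.sum_le_sum fun u' _ => mul_le_mul_of_nonneg_left (hG u')
          (Finset.prod_nonneg fun j _ => hw0 _)
    _ = C := by rw [← Finset.sum_mul, h3, one_mul]

section depol

variable {lam : ℝ} {l : ℕ}

theorem k2_depol_nonneg (h0 : 0 ≤ lam) (h1 : lam ≤ 1) (v : Fin l → Bool × Bool) :
    0 ≤ depol lam v := by
  unfold depol
  refine Finset.prod_nonneg fun q _ => ?_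
  split_ifs <;> linarith

theorem k2_depol_sum (lam : ℝ) (l : ℕ) (f : (Fin l → Bool) → ℝ) :
    ∑ v : Fin l → Bool × Bool, depol lam v * f (fun q => (v q).1) =
      ∑ a : Fin l → Bool, (∏ q, if a q = true then lam / 2 else 1 - lam / 2) * f a := by
  classical
  rw [← (Equiv.arrowProdEquivProdArrow (Fin l) (fun _ => Bool) (fun _ => Bool)).symm.sum_comp
    (fun v : Fin l → Bool × Bool => depol lam v * f (fun q => (v q).1)), Fintype.sum_prod_type]
  refine Finset.sum_congr rfl fun a _ => ?_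
  have h1 : ∀ c : Fin l → Bool, depol lam ((Equiv.arrowProdEquivProdArrow (Fin l)
      (fun _ => Bool) (fun _ => Bool)).symm (a, c)) =
      ∏ q, if (a q, c q) = (false, false) then 1 - 3 * lam / 4 else lam / 4 := fun c => rfl
  have h2 : ∀ c : Fin l → Bool, (fun q => ((Equiv.arrowProdEquivProdArrow (Fin l)
      (fun _ => Bool) (fun _ => Bool)).symm (a, c) q).1) = a := fun c => rfl
  have h3 : ∀ c : Fin l → Bool, depol lam ((Equiv.arrowProdEquivProdArrow (Fin l)
      (fun _ => Bool) (fun _ => Bool)).symm (a, c)) * f (fun q => ((Equiv.arrowProdEquivProdArrow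
      (Fin l) (fun _ => Bool) (fun _ => Bool)).symm (a, c) q).1) =
      (∏ q, if (a q, c q) = (false, false) then 1 - 3 * lam / 4 else lam / 4) * f a := fun c => by
    rw [h1, h2]
  rw [Finset.sum_congr rfl fun c _ => h3 c, ← Finset.sum_mul]
  congr 1
  have h4 := Finset.prod_univ_sum (fun _ : Fin l => (Finset.univ : Finset Bool))
    (fun q c => if (a q, c) = (false, false) then 1 - 3 * lam / 4 else lam / 4)
  rw [Fintype.piFinset_univ] at h4
  rw [← h4]
  refine Finset.prod_congr rfl fun q _ => ?_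
  rw [Fintype.sum_bool]
  cases a q
  · simp
    ring
  · simp
    ring

theorem k2_depol_one (lam : ℝ) (l : ℕ) : ∑ v : Fin l → Bool × Bool, depol lam v = 1 := by
  classical
  have h1 := k2_depol_sum lam l (fun _ => 1)
  simp only [mul_one] at h1
  rw [h1]
  have h4 := Finset.prod_univ_sum (fun _ : Fin l => (Finset.univ : Finset Bool))
    (fun _ c => if c = true then lam / 2 else 1 - lam / 2)
  rw [Fintype.piFinset_univ] at h4
  rw [← h4]
  refine Finset.prod_eq_one fun q _ => ?_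
  rw [Fintype.sum_bool]
  simp

theorem k2_P_le (h0 : 0 ≤ lam) (h1 : lam ≤ 1) (a : Fin l → Bool) :
    (∏ q, if a q = true then lam / 2 else 1 - lam / 2) ≤ (1 - lam / 2) ^ l := by
  calc (∏ q, if a q = true then lam / 2 else 1 - lam / 2) ≤ ∏ _q : Fin l, (1 - lam / 2) := by
        refine Finset.prod_le_prod (fun q _ => ?_) (fun q _ => ?_)
        · split_ifs <;> linarith
        · split_ifs <;> linarith
    _ = (1 - lam / 2) ^ l := by rw [Finset.prod_const, Finset.card_univ, Fintype.card_fin]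

/-- one register: the noise moves every address to the address `i₀` with small probability -/
theorem k2_pt (h0 : 0 ≤ lam) (h1 : lam ≤ 1) (z i₀ : Fin l → Bool) :
    ∑ v : Fin l → Bool × Bool, depol lam v *
      (if (fun q => xor (z q) (v q).1) = i₀ then (1 : ℝ) else 0) ≤ (1 - lam / 2) ^ l := by
  classical
  rw [k2_depol_sum lam l (fun a => if (fun q => xor (z q) (a q)) = i₀ then (1 : ℝ) else 0)]
  have hone : ∀ a : Fin l → Bool, (fun q => xor (z q) (a q)) = i₀ ↔
      a = fun q => xor (z q) (i₀ q) := fun a => by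
    constructor
    · rintro rfl
      funext q
      show a q = xor (z q) (xor (z q) (a q))
      cases z q <;> cases a q <;> rfl
    · rintro rfl
      funext q
      show xor (z q) (xor (z q) (i₀ q)) = i₀ q
      cases z q <;> cases i₀ q <;> rfl
  simp only [hone, mul_ite, mul_one, mul_zero, Finset.sum_ite_eq', Finset.mem_univ, if_true]
  exact k2_P_le h0 h1 _

/-- several registers, the noise of the register `j` -/
theorem k2_reg {p : ℕ} (h0 : 0 ≤ lam) (h1 : lam ≤ 1) (j : Fin p) (z i₀ : Fin l → Bool) :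
    ∑ u : Fin p → Fin l → Bool × Bool, (∏ k, depol lam (u k)) *
      (if (fun q => xor (z q) (u j q).1) = i₀ then (1 : ℝ) else 0) ≤ (1 - lam / 2) ^ l := by
  obtain ⟨n, rfl⟩ : ∃ n, p = n + 1 := ⟨p - 1, by have := j.pos; omega⟩
  refine k2_resample j (depol lam) (k2_depol_nonneg h0 h1) (k2_depol_one lam l)
    (fun u => if (fun q => xor (z q) (u j q).1) = i₀ then (1 : ℝ) else 0) _ fun u' => ?_
  have h2 : ∀ v : Fin l → Bool × Bool, (j.insertNth v u' : Fin (n + 1) → Fin l → Bool × Bool) j = v :=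
    fun v => Fin.insertNth_apply_same _ _ _
  simp only [h2]
  exact k2_pt h0 h1 z i₀

variable {B : Type} [Fintype B] {p : ℕ}

/-- the permutation of the basis under the bit flips of `u` -/
def k2_fl (u : Fin p → Fin l → Bool × Bool) (z : (Fin p → Fin l → Bool) × B) :
    (Fin p → Fin l → Bool) × B := (fun j q => xor (z.1 j q) (u j q).1, z.2)

theorem k2_fl_inv (u : Fin p → Fin l → Bool × Bool) :
    Function.Involutive (k2_fl (B := B) u) := by
  rintro ⟨z, b⟩
  unfold k2_fl
  refine Prod.ext ?_ rfl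
  funext j q
  show xor (xor (z j q) (u j q).1) (u j q).1 = z j q
  cases z j q <;> cases (u j q).1 <;> rfl

theorem k2_pauli_norm (u : Fin p → Fin l → Bool × Bool)
    (ψ : EuclideanSpace ℂ ((Fin p → Fin l → Bool) × B)) (z : (Fin p → Fin l → Bool) × B) :
    ‖pauli u ψ z‖ = ‖ψ (k2_fl u z)‖ := by
  show ‖(∏ j, ∏ q, if ((u j q).2 && z.1 j q) = true then (-1 : ℂ) else 1) *
    ψ (fun j q => xor (z.1 j q) (u j q).1, z.2)‖ = _
  rw [norm_mul, norm_prod]
  have h : ∀ j, ‖∏ q, (if ((u j q).2 && z.1 j q) = true then (-1 : ℂ) else 1)‖ = 1 := fun j => by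
    rw [norm_prod]
    refine Finset.prod_eq_one fun q _ => ?_
    split_ifs <;> simp
  rw [Finset.prod_congr rfl fun j _ => h j, Finset.prod_const_one, one_mul]
  rfl

theorem k2_pauli_sum (u : Fin p → Fin l → Bool × Bool)
    (ψ : EuclideanSpace ℂ ((Fin p → Fin l → Bool) × B))
    (g : (Fin p → Fin l → Bool) × B → ℝ) :
    ∑ z, g z * ‖pauli u ψ z‖ ^ 2 = ∑ z, g (k2_fl u z) * ‖ψ z‖ ^ 2 := by
  rw [← Equiv.sum_comp (k2_fl_inv (B := B) u).toPerm (fun z => g z * ‖pauli u ψ z‖ ^ 2)]
  refine Finset.sum_congr rfl fun z _ => ?_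
  show g (k2_fl u z) * ‖pauli u ψ (k2_fl u z)‖ ^ 2 = _
  rw [k2_pauli_norm, k2_fl_inv u z]

/-- the average over the noise -/
theorem k2_avg (h0 : 0 ≤ lam) (h1 : lam ≤ 1)
    (ψ : EuclideanSpace ℂ ((Fin p → Fin l → Bool) × B)) (i₀ : Fin l → Bool) :
    ∑ u : Fin p → Fin l → Bool × Bool, (∏ k, depol lam (u k)) *
      ∑ z, (∑ j, if z.1 j = i₀ then (1 : ℝ) else 0) * ‖pauli u ψ z‖ ^ 2 ≤
      p * (1 - lam / 2) ^ l * ‖ψ‖ ^ 2 := by
  classical
  have e1 : ∀ u : Fin p → Fin l → Bool × Bool, (∏ k, depol lam (u k)) *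
      ∑ z, (∑ j, if z.1 j = i₀ then (1 : ℝ) else 0) * ‖pauli u ψ z‖ ^ 2 =
      ∑ z, ∑ j, ‖ψ z‖ ^ 2 * ((∏ k, depol lam (u k)) *
        (if (fun q => xor (z.1 j q) (u j q).1) = i₀ then (1 : ℝ) else 0)) := fun u => by
    rw [k2_pauli_sum u ψ (fun z => ∑ j, if z.1 j = i₀ then (1 : ℝ) else 0), Finset.mul_sum]
    refine Finset.sum_congr rfl fun z _ => ?_
    rw [Finset.sum_mul, Finset.mul_sum]
    refine Finset.sum_congr rfl fun j _ => ?_
    have h2 : (k2_fl u z).1 j = fun q => xor (z.1 j q) (u j q).1 := rfl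
    rw [h2]
    ring
  rw [Finset.sum_congr rfl fun u _ => e1 u, Finset.sum_comm]
  have e2 : ∀ z : (Fin p → Fin l → Bool) × B, ∑ u : Fin p → Fin l → Bool × Bool,
      ∑ j, ‖ψ z‖ ^ 2 * ((∏ k, depol lam (u k)) *
        (if (fun q => xor (z.1 j q) (u j q).1) = i₀ then (1 : ℝ) else 0)) ≤
      p * (1 - lam / 2) ^ l * ‖ψ z‖ ^ 2 := fun z => by
    rw [Finset.sum_comm]
    calc ∑ j, ∑ u : Fin p → Fin l → Bool × Bool, ‖ψ z‖ ^ 2 * ((∏ k, depol lam (u k)) *
          (if (fun q => xor (z.1 j q) (u j q).1) = i₀ then (1 : ℝ) else 0))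
        ≤ ∑ _j : Fin p, ‖ψ z‖ ^ 2 * (1 - lam / 2) ^ l := by
          refine Finset.sum_le_sum fun j _ => ?_
          rw [← Finset.mul_sum]
          exact mul_le_mul_of_nonneg_left (k2_reg h0 h1 j (z.1 j) i₀) (by positivity)
      _ = p * (1 - lam / 2) ^ l * ‖ψ z‖ ^ 2 := by
          rw [Finset.sum_const, Finset.card_univ, Fintype.card_fin, nsmul_eq_mul]
          ring
  refine (Finset.sum_le_sum fun z _ => e2 z).trans ?_
  rw [← Finset.mul_sum, norm_sq_eq]

end depol

variable {I : Type} [Fintype I] [DecidableEq I]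
variable {A E : Type} [Fintype A] [Fintype E] {p : ℕ}

theorem k2_mag (H : Hybrid I A E p) {R : ℕ} {lam : ℝ} {h : List A} (h0 : 0 ≤ lam) (h1 : lam ≤ 1)
    (hH : H.Noisy R lam h) : ∃ l : ℕ, Fintype.card I ≤ 2 ^ l ∧
      ∀ x i, H.mag R h i x ≤ R * p * (1 - lam / 2) ^ l := by
  classical
  obtain ⟨l, B, instB, addr, reg, hq, hs⟩ := hH
  refine ⟨l, ?_, fun x i => ?_⟩
  · have h2 := Fintype.card_le_of_embedding addr
    simpa using h2
  have hc : 0 ≤ (1 - lam / 2) ^ l := pow_nonneg (by linarith) l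
  unfold Hybrid.mag
  have e1 : ∑ e, H.weight h e * ∑ s ∈ Finset.range R,
      pm ((H.stage h e).look i) ((H.stage h e).state s x) =
      ∑ s ∈ Finset.range R, ∑ e, H.weight h e *
        pm ((H.stage h e).look i) ((H.stage h e).state s x) := by
    simp_rw [Finset.mul_sum]
    exact Finset.sum_comm
  rw [e1]
  have e2 : ∀ s ∈ Finset.range R, ∑ e, H.weight h e *
      pm ((H.stage h e).look i) ((H.stage h e).state s x) ≤ p * (1 - lam / 2) ^ l := by
    intro s hsR
    obtain ⟨Y, v, y, ψ, hF, hst⟩ := hs s (Finset.mem_range.1 hsR)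
    have hpm : ∀ e, pm ((H.stage h e).look i) ((H.stage h e).state s x) ≤
        ∑ z, (∑ j, if z.1 j = addr i then (1 : ℝ) else 0) *
          ‖pauli (v e) (ψ (y e) x) z‖ ^ 2 := by
      intro e
      unfold pm
      rw [← Equiv.sum_comp reg (fun z => (∑ j, if z.1 j = addr i then (1 : ℝ) else 0) *
        ‖pauli (v e) (ψ (y e) x) z‖ ^ 2)]
      refine le_trans ?_ (Finset.sum_le_sum_of_subset_of_nonneg (Finset.subset_univ
        ((H.stage h e).look i)) fun a _ _ => by positivity)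
      refine Finset.sum_le_sum fun a ha => ?_
      obtain ⟨j, hj⟩ := hq e a i (Finset.mem_filter.1 ha).2
      rw [hst e x a]
      have h3 : (1 : ℝ) ≤ ∑ j, if (reg a).1 j = addr i then (1 : ℝ) else 0 := by
        refine le_trans ?_ (Finset.single_le_sum (f := fun j =>
          if (reg a).1 j = addr i then (1 : ℝ) else 0) (fun j _ => by positivity)
          (Finset.mem_univ j))
        rw [if_pos hj]
      exact le_mul_of_one_le_left (by positivity) h3
    have hnorm : ∀ e, ‖ψ (y e) x‖ ^ 2 ≤ 1 := by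
      intro e
      have h3 : ‖ψ (y e) x‖ ^ 2 = ‖(H.stage h e).state s x‖ ^ 2 := by
        rw [norm_sq_eq, norm_sq_eq]
        have h4 := k2_pauli_sum (v e) (ψ (y e) x) (fun _ => 1)
        simp only [one_mul] at h4
        rw [← h4, ← Equiv.sum_comp reg (fun z => ‖pauli (v e) (ψ (y e) x) z‖ ^ 2)]
        exact Finset.sum_congr rfl fun a _ => by rw [hst e x a]
      rw [h3]
      have h5 := norm_state_le (H.stage h e) s x
      have h6 := norm_nonneg ((H.stage h e).state s x)
      nlinarith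
    calc ∑ e, H.weight h e * pm ((H.stage h e).look i) ((H.stage h e).state s x)
        ≤ ∑ e, H.weight h e * ∑ z, (∑ j, if z.1 j = addr i then (1 : ℝ) else 0) *
          ‖pauli (v e) (ψ (y e) x) z‖ ^ 2 :=
          Finset.sum_le_sum fun e _ => mul_le_mul_of_nonneg_left (hpm e) (H.weight_nonneg h e)
      _ = ∑ e, H.weight h e * ∑ u : Fin p → Fin l → Bool × Bool, (∏ j, depol lam (u j)) *
          ∑ z, (∑ j, if z.1 j = addr i then (1 : ℝ) else 0) *
          ‖pauli u (ψ (y e) x) z‖ ^ 2 :=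
          hF (fun u y' => ∑ z, (∑ j, if z.1 j = addr i then (1 : ℝ) else 0) *
            ‖pauli u (ψ y' x) z‖ ^ 2)
      _ ≤ ∑ e, H.weight h e * (p * (1 - lam / 2) ^ l) := by
          refine Finset.sum_le_sum fun e _ => mul_le_mul_of_nonneg_left ?_ (H.weight_nonneg h e)
          refine (k2_avg h0 h1 (ψ (y e) x) (addr i)).trans ?_
          have h7 : 0 ≤ (p : ℝ) * (1 - lam / 2) ^ l := by positivity
          calc (p : ℝ) * (1 - lam / 2) ^ l * ‖ψ (y e) x‖ ^ 2 ≤
              (p : ℝ) * (1 - lam / 2) ^ l * 1 := mul_le_mul_of_nonneg_left (hnorm e) h7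
            _ = _ := mul_one _
      _ = p * (1 - lam / 2) ^ l := by rw [← Finset.sum_mul, H.sum_weight, one_mul]
  calc ∑ s ∈ Finset.range R, ∑ e, H.weight h e *
        pm ((H.stage h e).look i) ((H.stage h e).state s x)
      ≤ ∑ _s ∈ Finset.range R, (p : ℝ) * (1 - lam / 2) ^ l := Finset.sum_le_sum e2
    _ = R * p * (1 - lam / 2) ^ l := by
        rw [Finset.sum_const, Finset.card_range, nsmul_eq_mul]
        ring

end Pool.Agent.HYB
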