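import Pool.Agent.Lib_helper64.HYB.MRHyp
import Pool.Agent.Lib_helper64.HYB.HG

/-!
# Hybrid algorithms with several coherent rounds
-/

set_option autoImplicit false
set_option linter.unusedSectionVars false

open Finset

namespace Pool.Agent.HYB

open Pool.Agent.Lib_helper8.QAA

variable {I : Type} [Fintype I] [DecidableEq I]
variable {A E : Type} [Fintype A] [Fintype E] {p : ℕ}

/-! ### Degrees -/

lemma mr_state (Q : Algorithm I A p) (s : ℕ) : ∀ a, Dg (s * p) (fun x => Q.state s x a) := by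
  classical
  induction s with
  | zero =>
    intro a
    exact Dg.const (I := I) _ (Q.init a)
  | succ s ih =>
    intro a
    have h1 : ∀ x, Q.state (s + 1) x a =
        ∑ b : A, Q.step s (EuclideanSpace.single b (1 : ℂ)) a * (Q.phase b x * Q.state s x b) := by
      intro x
      have h2 : Q.oracle x (Q.state s x) =
          ∑ b : A, (Q.phase b x * Q.state s x b) • EuclideanSpace.single b (1 : ℂ) := by
        ext c
        simp only [Algorithm.oracle, WithLp.ofLp_sum, Finset.sum_apply, PiLp.smul_apply,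
          smul_eq_mul, PiLp.single_apply, mul_ite, mul_one, mul_zero]
        rw [Finset.sum_ite_eq]
        simp
      show (Q.step s (Q.oracle x (Q.state s x))) a = _
      rw [h2, map_sum]
      simp only [map_smul, WithLp.ofLp_sum, Finset.sum_apply, PiLp.smul_apply, smul_eq_mul]
      exact Finset.sum_congr rfl fun b _ => mul_comm _ _
    have h3 : Dg ((s + 1) * p) (fun x =>
        ∑ b : A, Q.step s (EuclideanSpace.single b (1 : ℂ)) a * (Q.phase b x * Q.state s x b)) := by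
      refine Dg.sum _ fun b _ => Dg.const_mul _ ?_
      have h4 : Dg p (fun x => Q.phase b x) :=
        Dg.of_junta (Q.query b) (Q.card_query_le b) (Q.phase_congr b)
      have h5 := h4.mul (ih b)
      rwa [show p + s * p = (s + 1) * p by ring] at h5
    refine (congrArg (Dg _) ?_).mpr h3
    funext x
    exact h1 x

lemma mr_pm (Q : Algorithm I A p) (T : Finset A) (s : ℕ) :
    Dg (2 * (s * p)) (fun x => ((pm T (Q.state s x) : ℝ) : ℂ)) := by
  have h1 : Dg (2 * (s * p)) (fun x => ∑ a ∈ T, ((‖Q.state s x a‖ ^ 2 : ℝ) : ℂ)) :=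
    Dg.sum _ fun a _ => (mr_state Q s a).norm_sq
  refine (congrArg (Dg _) ?_).mpr h1
  funext x
  unfold pm
  push_cast
  rfl

lemma mr_mag (H : Hybrid I A E p) (R : ℕ) (h : List A) (i : I) :
    Dg (2 * ((R - 1) * p)) (fun x => ((H.mag R h i x : ℝ) : ℂ)) := by
  have h1 : Dg (2 * ((R - 1) * p)) (fun x => ∑ e, (H.weight h e : ℂ) * ∑ s ∈ Finset.range R,
      ((pm ((H.stage h e).look i) ((H.stage h e).state s x) : ℝ) : ℂ)) := by
    refine Dg.sum _ fun e _ => Dg.const_mul _ (Dg.sum _ fun s hs => ?_)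
    refine (mr_pm _ _ s).mono ?_
    have : s ≤ R - 1 := by have := Finset.mem_range.1 hs; omega
    gcongr
  refine (congrArg (Dg _) ?_).mpr h1
  funext x
  unfold Hybrid.mag
  push_cast
  rfl

lemma mr_outcome (H : Hybrid I A E p) (R : ℕ) (h : List A) (a : A) :
    Dg (2 * (R * p)) (fun x => ((H.outcome R h x a : ℝ) : ℂ)) := by
  have h1 : Dg (2 * (R * p)) (fun x => ∑ e, (H.weight h e : ℂ) *
      ((‖(H.stage h e).state R x a‖ ^ 2 : ℝ) : ℂ)) :=
    Dg.sum _ fun e _ => Dg.const_mul _ (mr_state _ R a).norm_sq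
  refine (congrArg (Dg _) ?_).mpr h1
  funext x
  unfold Hybrid.outcome
  push_cast
  rfl

lemma mr_outcome_nonneg (H : Hybrid I A E p) (R : ℕ) (h : List A) (x : I → Bool) (a : A) :
    0 ≤ H.outcome R h x a :=
  Finset.sum_nonneg fun e _ => mul_nonneg (H.weight_nonneg h e) (by positivity)

lemma mr_outcome_sum (H : Hybrid I A E p) (R : ℕ) (h : List A) (x : I → Bool) :
    ∑ a, H.outcome R h x a ≤ 1 := by
  unfold Hybrid.outcome
  rw [Finset.sum_comm]
  calc ∑ e, ∑ a, H.weight h e * ‖(H.stage h e).state R x a‖ ^ 2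
      ≤ ∑ e, H.weight h e := by
        refine Finset.sum_le_sum fun e _ => ?_
        rw [← Finset.mul_sum, ← norm_sq_eq]
        have h1 := norm_state_le (H.stage h e) R x
        have h2 : ‖(H.stage h e).state R x‖ ^ 2 ≤ 1 := pow_le_one₀ (norm_nonneg _) h1
        exact mul_le_of_le_one_right (H.weight_nonneg h e) h2
    _ = 1 := H.sum_weight h

lemma mr_mag_nonneg (H : Hybrid I A E p) (R : ℕ) (h : List A) (i : I) (x : I → Bool) :
    0 ≤ H.mag R h i x :=
  Finset.sum_nonneg fun e _ => mul_nonneg (H.weight_nonneg h e)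
    (Finset.sum_nonneg fun _ _ => pm_nonneg _ _)

lemma mr_mag_sum (H : Hybrid I A E p) (R : ℕ) (h : List A) (x : I → Bool) :
    ∑ i, H.mag R h i x ≤ R * p := by
  unfold Hybrid.mag
  rw [Finset.sum_comm]
  calc ∑ e, ∑ i, H.weight h e * ∑ s ∈ Finset.range R,
        pm ((H.stage h e).look i) ((H.stage h e).state s x)
      ≤ ∑ e, H.weight h e * (R * p) := by
        refine Finset.sum_le_sum fun e _ => ?_
        rw [← Finset.mul_sum, Finset.sum_comm]
        refine mul_le_mul_of_nonneg_left ?_ (H.weight_nonneg h e)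
        calc ∑ s ∈ Finset.range R, ∑ i, pm ((H.stage h e).look i) ((H.stage h e).state s x)
            ≤ ∑ _s ∈ Finset.range R, (p : ℝ) := by
              refine Finset.sum_le_sum fun s _ => (sum_pm_look _ _).trans ?_
              have h1 := norm_state_le (H.stage h e) s x
              have h2 : ‖(H.stage h e).state s x‖ ^ 2 ≤ 1 := pow_le_one₀ (norm_nonneg _) h1
              exact mul_le_of_le_one_right (by positivity) h2
          _ = R * p := by rw [Finset.sum_const, Finset.card_range, nsmul_eq_mul]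
    _ = R * p := by rw [← Finset.sum_mul, H.sum_weight, one_mul]

/-- the mean magnitudes -/
lemma mr_mean_sum (H : Hybrid I A E p) (R : ℕ) (h : List A) :
    ∑ i, ex (H.mag R h i) ≤ R * p := by
  have h1 : ∑ i, ex (H.mag R h i) = ex (fun x => ∑ i, H.mag R h i x) :=
    (ex_sum _ _).symm
  rw [h1]
  calc ex (fun x => ∑ i, H.mag R h i x) ≤ ex (fun _ : I → Bool => ((R : ℝ) * p)) :=
        ex_mono fun x => mr_mag_sum H R h x
    _ = R * p := ex_const _

/-! ### One stage -/

lemma mr_young {y l : ℝ} (hy : 0 ≤ y) (hl : 0 < l) (n : ℕ) : y ≤ l + y ^ (n + 1) / l ^ n := by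
  rcases le_total y l with h | h
  · have : 0 ≤ y ^ (n + 1) / l ^ n := by positivity
    linarith
  · have : y ≤ y ^ (n + 1) / l ^ n := by
      rw [le_div_iff₀ (by positivity), pow_succ, mul_comm]
      gcongr
    linarith

/-- moments of one magnitude under a tilted law -/
lemma mr_moment {c D k : ℕ} {P f : (I → Bool) → ℝ} (hP : ∀ x, 0 ≤ P x) (hf : ∀ x, 0 ≤ f x)
    (hPD : Dg D (fun x => (P x : ℂ))) (hfD : Dg (2 * c) (fun x => (f x : ℂ))) :
    ex (fun x => P x * f x ^ 2 ^ (k + 1)) ≤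
      3 ^ D * 3 ^ (c * (k + 3) * 2 ^ (k + 1)) * ex P * ex f ^ 2 ^ (k + 1) := by
  have h1 := ex_cauchy P (fun x => f x ^ 2 ^ (k + 1))
  have e1 : (fun x => (f x ^ 2 ^ (k + 1)) ^ 2) = fun x => f x ^ 2 ^ (k + 1 + 1) := by
    funext x
    rw [← pow_mul]
    congr 1
  rw [e1] at h1
  have h2 := hyp_two hP hPD
  have h3 := hyp_pow hf hfD (k + 1)
  have hP0 : 0 ≤ ex P := ex_nonneg hP
  have hf0 : 0 ≤ ex f := ex_nonneg hf
  have h4 : ex (fun x => P x * f x ^ 2 ^ (k + 1)) ^ 2 ≤
      (3 ^ D * 3 ^ (c * (k + 3) * 2 ^ (k + 1)) * ex P * ex f ^ 2 ^ (k + 1)) ^ 2 := by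
    refine h1.trans ?_
    have h5 : 0 ≤ ex (fun x => f x ^ 2 ^ (k + 1 + 1)) := ex_nonneg fun x => pow_nonneg (hf x) _
    calc ex (fun x => P x ^ 2) * ex (fun x => f x ^ 2 ^ (k + 1 + 1))
        ≤ (9 ^ D * ex P ^ 2) * ((3 ^ (2 * c * (k + 1 + 2) * 2 ^ (k + 1))) *
          ex f ^ 2 ^ (k + 1 + 1)) := mul_le_mul h2 h3 h5 (by positivity)
      _ = _ := by
          have e2 : (9 : ℝ) ^ D = (3 ^ D) ^ 2 := by
            rw [← pow_mul, mul_comm D 2, pow_mul]; norm_num
          have e3 : (3 : ℝ) ^ (2 * c * (k + 1 + 2) * 2 ^ (k + 1)) =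
              (3 ^ (c * (k + 3) * 2 ^ (k + 1))) ^ 2 := by
            rw [← pow_mul]; congr 1; ring
          have e4 : ex f ^ 2 ^ (k + 1 + 1) = (ex f ^ 2 ^ (k + 1)) ^ 2 := by
            rw [← pow_mul]; congr 1
          rw [e2, e3, e4]
          ring
  exact (abs_le_of_sq_le_sq' h4 (by positivity)).2

/-- the set of the heavy coordinates -/
noncomputable def mrJs (H : Hybrid I A E p) (R : ℕ) (η : ℝ) (h : List A) : Finset I :=
  Finset.univ.filter fun i => η < ex (H.mag R h i)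

/-- the level of the light magnitudes -/
noncomputable def mrL (R p k : ℕ) (η : ℝ) : ℝ := 6 * 3 ^ ((R - 1) * p * (k + 3)) * √η

lemma mr_stage (H : Hybrid I A E p) (R : ℕ) (h : List A) {η : ℝ} (hη : 0 < η)
    (hη1 : η ≤ 1) {k D : ℕ} (hD : D ≤ 2 ^ (k + 1)) (hRp : R * p ≤ 2 ^ (k + 1))
    {P : (I → Bool) → ℝ} (hP : ∀ x, 0 ≤ P x) (hPD : Dg D (fun x => (P x : ℂ))) :
    ex (fun x => P x * ⨆ i : {i // i ∉ mrJs H R η h}, H.mag R h i x) ≤
      2 * mrL R p k η * ex P := by
  classical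
  set q : ℕ := 2 ^ (k + 1) with hq
  have hq2 : 2 ≤ q := by
    rw [hq, pow_succ]
    have : 1 ≤ 2 ^ k := Nat.one_le_two_pow
    omega
  obtain ⟨n, hn⟩ : ∃ n, q = n + 1 := ⟨q - 1, by omega⟩
  set c : ℕ := (R - 1) * p with hc
  set l : ℝ := mrL R p k η with hl
  have hsq : 0 < √η := Real.sqrt_pos.2 hη
  have hl0 : 0 < l := by rw [hl]; unfold mrL; positivity
  have hP0 : 0 ≤ ex P := ex_nonneg hP
  set B : Finset I := Finset.univ.filter fun i => i ∉ mrJs H R η h with hB
  -- pointwise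
  have h1 : ∀ x, (⨆ i : {i // i ∉ mrJs H R η h}, H.mag R h i x) ≤
      l + ∑ i ∈ B, H.mag R h i x ^ q / l ^ n := by
    intro x
    have hnn : 0 ≤ l + ∑ i ∈ B, H.mag R h i x ^ q / l ^ n := by
      have : 0 ≤ ∑ i ∈ B, H.mag R h i x ^ q / l ^ n := Finset.sum_nonneg fun i _ =>
        div_nonneg (pow_nonneg (mr_mag_nonneg H R h i x) _) (by positivity)
      linarith
    refine Real.iSup_le (fun i => ?_) hnn
    have h2 := mr_young (mr_mag_nonneg H R h i x) hl0 n
    rw [← hn] at h2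
    have h3 : H.mag R h i x ^ q / l ^ n ≤ ∑ i ∈ B, H.mag R h i x ^ q / l ^ n :=
      Finset.single_le_sum (f := fun i => H.mag R h i x ^ q / l ^ n)
        (fun i _ => div_nonneg (pow_nonneg (mr_mag_nonneg H R h i x) _) (by positivity))
        (by rw [hB]; exact Finset.mem_filter.2 ⟨Finset.mem_univ _, i.2⟩)
    linarith
  have h2 : ex (fun x => P x * ⨆ i : {i // i ∉ mrJs H R η h}, H.mag R h i x) ≤
      l * ex P + ∑ i ∈ B, ex (fun x => P x * H.mag R h i x ^ q) / l ^ n := by
    have e1 : l * ex P + ∑ i ∈ B, ex (fun x => P x * H.mag R h i x ^ q) / l ^ n =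
        ex (fun x => P x * (l + ∑ i ∈ B, H.mag R h i x ^ q / l ^ n)) := by
      have e2 : (fun x => P x * (l + ∑ i ∈ B, H.mag R h i x ^ q / l ^ n)) =
          fun x => l * P x + ∑ i ∈ B, (1 / l ^ n) * (P x * H.mag R h i x ^ q) := by
        funext x
        rw [mul_add, Finset.mul_sum]
        congr 1
        · ring
        · refine Finset.sum_congr rfl fun i _ => ?_
          ring
      rw [e2, ex_add, ex_const_mul, ex_sum]
      congr 1
      refine Finset.sum_congr rfl fun i _ => ?_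
      rw [ex_const_mul]
      ring
    rw [e1]
    exact ex_mono fun x => mul_le_mul_of_nonneg_left (h1 x) (hP x)
  -- the moments
  have h3 : ∀ i ∈ B, ex (fun x => P x * H.mag R h i x ^ q) ≤
      3 ^ D * 3 ^ (c * (k + 3) * q) * ex P * (η ^ n * ex (H.mag R h i)) := by
    intro i hi
    have hi2 : ex (H.mag R h i) ≤ η := by
      rw [hB, Finset.mem_filter] at hi
      have h4 := hi.2
      unfold mrJs at h4
      rw [Finset.mem_filter] at h4
      push Not at h4
      exact h4 (Finset.mem_univ _)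
    have hm0 : 0 ≤ ex (H.mag R h i) := ex_nonneg fun x => mr_mag_nonneg H R h i x
    refine (mr_moment (k := k) hP (mr_mag_nonneg H R h i) hPD (mr_mag H R h i)).trans ?_
    rw [← hq, ← hc]
    have h5 : ex (H.mag R h i) ^ q ≤ η ^ n * ex (H.mag R h i) := by
      rw [hn, pow_succ]
      gcongr
    gcongr
  have h4 : ∑ i ∈ B, ex (fun x => P x * H.mag R h i x ^ q) / l ^ n ≤ l * ex P := by
    rw [← Finset.sum_div, div_le_iff₀ (by positivity)]
    have h5 : ∑ i ∈ B, ex (fun x => P x * H.mag R h i x ^ q) ≤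
        3 ^ D * 3 ^ (c * (k + 3) * q) * ex P * (η ^ n * (R * p)) := by
      refine (Finset.sum_le_sum h3).trans ?_
      rw [← Finset.mul_sum, ← Finset.mul_sum]
      have h6 : ∑ i ∈ B, ex (H.mag R h i) ≤ R * p := by
        refine le_trans ?_ (mr_mean_sum H R h)
        exact Finset.sum_le_sum_of_subset_of_nonneg (Finset.subset_univ _)
          fun i _ _ => ex_nonneg fun x => mr_mag_nonneg H R h i x
      gcongr
    refine h5.trans ?_
    have e1 : l * ex P * l ^ n = l ^ q * ex P := by rw [hn]; ring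
    rw [e1]
    have e2 : l ^ q = 6 ^ q * 3 ^ (c * (k + 3) * q) * √η ^ q := by
      rw [hl]
      unfold mrL
      rw [mul_pow, mul_pow, ← pow_mul]
    rw [e2]
    have h7 : (3 : ℝ) ^ D ≤ 3 ^ q := pow_le_pow_right₀ (by norm_num) hD
    have h8 : ((R : ℝ) * p) ≤ 2 ^ q := by
      have h9 : R * p ≤ 2 ^ q := hRp.trans (Nat.lt_two_pow_self).le
      exact_mod_cast h9
    have h10 : η ^ n ≤ √η ^ q := by
      have h11 : η ^ n = √η ^ (2 * n) := by rw [pow_mul, Real.sq_sqrt hη.le]
      rw [h11]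
      exact pow_le_pow_of_le_one hsq.le (Real.sqrt_le_one.2 hη1) (by omega)
    have h12 : (6 : ℝ) ^ q = 3 ^ q * 2 ^ q := by rw [← mul_pow]; norm_num
    calc 3 ^ D * 3 ^ (c * (k + 3) * q) * ex P * (η ^ n * (R * p))
        ≤ 3 ^ q * 3 ^ (c * (k + 3) * q) * ex P * (√η ^ q * 2 ^ q) := by gcongr
      _ = 6 ^ q * 3 ^ (c * (k + 3) * q) * √η ^ q * ex P := by rw [h12]; ring
  linarith

/-! ### The light part -/

lemma mr_light (H : Hybrid I A E p) (R : ℕ) {η : ℝ} (hη : 0 < η) (hη1 : η ≤ 1) {k : ℕ}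
    (hRp : R * p ≤ 2 ^ (k + 1)) (T : ℕ) : ∀ (D : ℕ) (h : List A) (P : (I → Bool) → ℝ),
    (∀ x, 0 ≤ P x) → Dg D (fun x => (P x : ℂ)) → D + T * (2 * (R * p)) ≤ 2 ^ (k + 1) →
    ex (fun x => P x * H.light R (mrJs H R η) T h x) ≤ T * (2 * mrL R p k η) * ex P := by
  induction T with
  | zero =>
    intro D h P _ _ _
    simp [Hybrid.light, ex_const]
  | succ T ih =>
    intro D h P hP hPD hD
    have hL0 : 0 ≤ mrL R p k η := by unfold mrL; positivity
    have hP0 : 0 ≤ ex P := ex_nonneg hP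
    have h1 := mr_stage H R h hη hη1 (k := k) (D := D) (by
      have : 0 ≤ (T + 1) * (2 * (R * p)) := Nat.zero_le _
      omega) hRp hP hPD
    have e1 : (fun x => P x * H.light R (mrJs H R η) (T + 1) h x) =
        fun x => P x * (⨆ i : {i // i ∉ mrJs H R η h}, H.mag R h i x) +
          ∑ a, (P x * H.outcome R h x a) * H.light R (mrJs H R η) T (a :: h) x := by
      funext x
      simp only [Hybrid.light]
      rw [mul_add, Finset.mul_sum]
      congr 1
      exact Finset.sum_congr rfl fun a _ => by ring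
    rw [e1, ex_add, ex_sum]
    have h2 : ∀ a, ex (fun x => (P x * H.outcome R h x a) *
        H.light R (mrJs H R η) T (a :: h) x) ≤
        T * (2 * mrL R p k η) * ex (fun x => P x * H.outcome R h x a) := by
      intro a
      have h3 : Dg (D + 2 * (R * p)) (fun x => ((P x * H.outcome R h x a : ℝ) : ℂ)) := by
        have := hPD.mul (mr_outcome H R h a)
        refine (congrArg (Dg _) ?_).mp this
        funext x
        push_cast
        rfl
      exact ih (D + 2 * (R * p)) (a :: h) _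
        (fun x => mul_nonneg (hP x) (mr_outcome_nonneg H R h x a)) h3
        (by
          have : D + (T + 1) * (2 * (R * p)) = D + 2 * (R * p) + T * (2 * (R * p)) := by ring
          omega)
    have h4 : ∑ a, ex (fun x => P x * H.outcome R h x a) ≤ ex P := by
      rw [← ex_sum]
      refine ex_mono fun x => ?_
      rw [← Finset.mul_sum]
      exact mul_le_of_le_one_right (hP x) (mr_outcome_sum H R h x)
    have h5 : ∑ a, ex (fun x => (P x * H.outcome R h x a) *
        H.light R (mrJs H R η) T (a :: h) x) ≤ T * (2 * mrL R p k η) * ex P := by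
      refine (Finset.sum_le_sum fun a _ => h2 a).trans ?_
      rw [← Finset.mul_sum]
      exact mul_le_mul_of_nonneg_left h4 (by positivity)
    push_cast
    linarith

/-! ### The theorem -/

lemma mr_prob_mem (H : Hybrid I A E p) (R T : ℕ) : ∀ (h : List A) (x : I → Bool),
    0 ≤ H.prob R T h x ∧ H.prob R T h x ≤ 1 := by
  induction T with
  | zero => intro h x; exact ⟨H.accept_nonneg h, H.accept_le_one h⟩
  | succ T ih =>
    intro h x
    constructor
    · exact Finset.sum_nonneg fun a _ =>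
        mul_nonneg (mr_outcome_nonneg H R h x a) (ih (a :: h) x).1
    · refine le_trans ?_ (mr_outcome_sum H R h x)
      exact Finset.sum_le_sum fun a _ =>
        mul_le_of_le_one_right (mr_outcome_nonneg H R h x a) (ih (a :: h) x).2

lemma mr_var_le (H : Hybrid I A E p) (R T : ℕ) : variance (H.prob R T []) ≤ 1 := by
  have h1 : ex (fun x : I → Bool => H.prob R T [] x ^ 2) ≤ ex (fun _ : I → Bool => (1 : ℝ)) :=
    ex_mono fun x => pow_le_one₀ (mr_prob_mem H R T [] x).1 (mr_prob_mem H R T [] x).2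
  rw [ex_const] at h1
  have h2 : variance (H.prob R T []) =
      ex (fun x : I → Bool => H.prob R T [] x ^ 2) - ex (H.prob R T []) ^ 2 := rfl
  rw [h2]
  have := sq_nonneg (ex (H.prob R T []))
  linarith

lemma mr_nonempty {f : (I → Bool) → ℝ} (h : 0 < variance f) : Nonempty I := by
  by_contra hc
  rw [not_nonempty_iff] at hc
  have h1 : ∀ x : I → Bool, f x = f (fun _ => false) := fun x => by
    congr 1
    exact Subsingleton.elim _ _
  have h2 : variance f = ex (fun x => f x ^ 2) - ex f ^ 2 := rfl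
  have h3 : f = fun _ => f (fun _ => false) := funext h1
  rw [h2, h3] at h
  simp only [ex_const] at h
  simp at h

/-- **Adaptive algorithms with several coherent rounds.** -/
theorem multi_round (H : Hybrid I A E p) (R T : ℕ) {v : ℝ} (hv : 0 < v)
    (hvar : variance (H.prob R T []) = v) :
    ∃ i, v ^ 20 / (2 ^ 170 * (T * R * p) ^ 36 * (16 * (T * R * p)) ^ (16 * ((R - 1) * p))) ≤
      influence (H.prob R T []) i := by
  classical
  rcases Nat.eq_zero_or_pos (T * R * p) with h0 | h0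
  · obtain ⟨i⟩ := mr_nonempty (hvar ▸ hv)
    refine ⟨i, ?_⟩
    have h1 : ((T : ℝ) * R * p) = 0 := by exact_mod_cast h0
    have h2 : 0 ≤ influence (H.prob R T []) i := by
      unfold influence
      have : 0 ≤ ∑ x : I → Bool,
        ((H.prob R T [] x - H.prob R T [] (Function.update x i (!x i))) / 2) ^ 2 :=
        Finset.sum_nonneg fun x _ => by positivity
      positivity
    rw [h1]
    simpa using h2
  have hv1 : v ≤ 1 := hvar ▸ mr_var_le H R T
  set n : ℕ := T * R * p with hn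
  have hT : 1 ≤ T := Nat.pos_of_ne_zero fun h => by rw [hn, h] at h0; simp at h0
  have hR : 1 ≤ R := Nat.pos_of_ne_zero fun h => by rw [hn, h] at h0; simp at h0
  have hp : 1 ≤ p := Nat.pos_of_ne_zero fun h => by rw [hn, h] at h0; simp at h0
  have hTr : (1 : ℝ) ≤ T := by exact_mod_cast hT
  have hRr : (1 : ℝ) ≤ R := by exact_mod_cast hR
  have hpr : (1 : ℝ) ≤ p := by exact_mod_cast hp
  have hnr : (n : ℝ) = T * R * p := by rw [hn]; push_cast; ring
  have hn1 : (1 : ℝ) ≤ n := by exact_mod_cast h0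
  set k : ℕ := Nat.clog 2 n with hk
  have hk1 : n ≤ 2 ^ k := Nat.le_pow_clog (by norm_num) n
  have hk2 : 2 ^ k ≤ 2 * n := by
    rcases Nat.eq_or_lt_of_le h0 with h1 | h1
    · have : k = 0 := by rw [hk, ← h1]; simp
      rw [this]; omega
    · have h2 : 2 ^ (k - 1) < n := by
        rw [hk]
        exact Nat.pow_pred_clog_lt_self (by norm_num) h1
      have h3 : 1 ≤ k := by
        rw [hk]
        exact Nat.clog_pos (by norm_num) h1
      have h4 : 2 ^ k = 2 * 2 ^ (k - 1) := by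
        rw [← pow_succ', Nat.sub_add_cancel h3]
      omega
  set c : ℕ := (R - 1) * p with hc
  set G : ℝ := 2 ^ 20 * (n : ℝ) ^ 4 * (16 * n) ^ (2 * c) with hG
  have hG1 : 1 ≤ G := by
    rw [hG]
    have h1 : (1 : ℝ) ≤ (n : ℝ) ^ 4 := one_le_pow₀ hn1
    have h2 : (1 : ℝ) ≤ (16 * n : ℝ) ^ (2 * c) := one_le_pow₀ (by linarith)
    have h3 : (1 : ℝ) ≤ 2 ^ 20 * (n : ℝ) ^ 4 := by nlinarith
    nlinarith
  have hG0 : 0 < G := by linarith
  set η : ℝ := (v ^ 2 / G) ^ 2 with hη
  have hη0 : 0 < η := by rw [hη]; positivity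
  have hvG : v ^ 2 / G ≤ 1 := by
    rw [div_le_one hG0]
    have : v ^ 2 ≤ 1 := pow_le_one₀ hv.le hv1
    linarith
  have hη1 : η ≤ 1 := pow_le_one₀ (by positivity) hvG
  have hsq : √η = v ^ 2 / G := by rw [hη]; exact Real.sqrt_sq (by positivity)
  -- the light part
  have hRpk : R * p ≤ 2 ^ (k + 1) := by
    have h1 : R * p ≤ n := by
      rw [hn]
      calc R * p = 1 * R * p := by ring
        _ ≤ T * R * p := by gcongr
    have h2 : 2 ^ k ≤ 2 ^ (k + 1) := Nat.pow_le_pow_right (by norm_num) (by omega)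
    omega
  have hTk : 0 + T * (2 * (R * p)) ≤ 2 ^ (k + 1) := by
    have h1 : T * (2 * (R * p)) = 2 * n := by rw [hn]; ring
    rw [pow_succ]
    omega
  have hlight := mr_light H R hη0 hη1 (k := k) hRpk T 0 [] (fun _ => 1) (fun _ => by norm_num)
    (by simpa using Dg.const (I := I) 0 1) hTk
  simp only [one_mul, ex_const, mul_one] at hlight
  have hL : mrL R p k η ≤ 6 * (16 * n) ^ (2 * c) * (v ^ 2 / G) := by
    unfold mrL
    rw [hsq, ← hc]
    have h1 : (3 : ℝ) ^ (c * (k + 3)) ≤ (16 * n) ^ (2 * c) := by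
      have h2 : (3 : ℝ) ^ (k + 3) ≤ (16 * n) ^ 2 := by
        have h3 : (2 : ℝ) ^ k ≤ 2 * n := by exact_mod_cast hk2
        calc (3 : ℝ) ^ (k + 3) ≤ 4 ^ (k + 3) := by gcongr; norm_num
          _ = (8 * 2 ^ k) ^ 2 := by
              rw [show (4 : ℝ) = 2 ^ 2 by norm_num, ← pow_mul, mul_pow, ← pow_mul]
              rw [show (8 : ℝ) = 2 ^ 3 by norm_num, ← pow_mul, ← pow_add]
              congr 1; ring
          _ ≤ (8 * (2 * n)) ^ 2 := by gcongr
          _ = (16 * n) ^ 2 := by ring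
      calc (3 : ℝ) ^ (c * (k + 3)) = (3 ^ (k + 3)) ^ c := by rw [← pow_mul, mul_comm]
        _ ≤ ((16 * n) ^ 2) ^ c := by gcongr
        _ = (16 * n) ^ (2 * c) := by rw [← pow_mul]
    gcongr
  have hlight2 : ex (H.light R (mrJs H R η) T []) ≤
      T * (2 * (6 * (16 * n) ^ (2 * c) * (v ^ 2 / G))) := by
    refine hlight.trans ?_
    gcongr
  have hs : 2 ^ 16 * ((T * R) ^ 3 * p ^ 2 * ex (H.light R (mrJs H R η) T [])) ≤ v ^ 2 := by
    calc 2 ^ 16 * (((T : ℝ) * R) ^ 3 * p ^ 2 * ex (H.light R (mrJs H R η) T []))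
        ≤ 2 ^ 16 * ((T * R) ^ 3 * p ^ 2 * (T * (2 * (6 * (16 * n) ^ (2 * c) * (v ^ 2 / G))))) := by
          gcongr
      _ = (2 ^ 16 * 12) * ((T * R) ^ 3 * p ^ 2 * T) * (16 * n) ^ (2 * c) * (v ^ 2 / G) := by ring
      _ ≤ 2 ^ 20 * (n : ℝ) ^ 4 * (16 * n) ^ (2 * c) * (v ^ 2 / G) := by
          have h1 : ((T : ℝ) * R) ^ 3 * p ^ 2 * T ≤ (n : ℝ) ^ 4 := by
            rw [hnr]
            have h2 : (T : ℝ) ≤ (T : ℝ) * (R : ℝ) := by nlinarith
            have h3 : (1 : ℝ) ≤ (p : ℝ) ^ 2 := one_le_pow₀ hpr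
            calc ((T : ℝ) * R) ^ 3 * (p : ℝ) ^ 2 * (T : ℝ)
                = ((T : ℝ) * R) ^ 3 * (T : ℝ) * (1 * (p : ℝ) ^ 2) := by ring
              _ ≤ ((T : ℝ) * R) ^ 3 * ((T : ℝ) * R) * ((p : ℝ) ^ 2 * (p : ℝ) ^ 2) := by
                  gcongr
              _ = ((T : ℝ) * R * p) ^ 4 := by ring
          have h2 : (2 : ℝ) ^ 16 * 12 ≤ 2 ^ 20 := by norm_num
          gcongr
      _ = G * (v ^ 2 / G) := by rw [hG]
      _ = v ^ 2 := by field_simp
  -- the number of the heavy coordinates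
  have hW : ∀ h, ((mrJs H R η h).card : ℝ) ≤ R * p / η := by
    intro h
    rw [le_div_iff₀ hη0]
    calc ((mrJs H R η h).card : ℝ) * η = ∑ _i ∈ mrJs H R η h, η := by
          rw [Finset.sum_const, nsmul_eq_mul]
      _ ≤ ∑ i ∈ mrJs H R η h, ex (H.mag R h i) := by
          refine Finset.sum_le_sum fun i hi => ?_
          unfold mrJs at hi
          exact (Finset.mem_filter.1 hi).2.le
      _ ≤ ∑ i, ex (H.mag R h i) :=
          Finset.sum_le_sum_of_subset_of_nonneg (Finset.subset_univ _)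
            fun i _ _ => ex_nonneg fun x => mr_mag_nonneg H R h i x
      _ ≤ R * p := mr_mean_sum H R h
  have hW0 : 0 < (R : ℝ) * p / η := by positivity
  obtain ⟨i, hi⟩ := hybrid_general H R T (mrJs H R η) hW0 hW hv hvar hs
  refine ⟨i, le_trans (le_of_eq ?_) hi⟩
  have h1 : (T : ℝ) * (R * p / η) = n * G ^ 2 / v ^ 4 := by
    rw [hη, hnr]
    field_simp
  rw [h1, ← hnr]
  have h2 : G ^ 8 = 2 ^ 160 * (n : ℝ) ^ 32 * (16 * n) ^ (16 * c) := by
    rw [hG, mul_pow, mul_pow, ← pow_mul, ← pow_mul, ← pow_mul]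
    congr 2
    ring
  have h3 : (2 : ℝ) ^ 10 * (n * G ^ 2 / v ^ 4) ^ 4 =
      (2 ^ 10 * (n : ℝ) ^ 4 * G ^ 8) / v ^ 16 := by
    field_simp
  rw [h3, h2]
  field_simp

end Pool.Agent.HYB
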