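import Pool.Agent.Lib_helper64.HYB.Kinds
import Pool.Agent.Lib_helper64.HYB.MR

/-!
# Short stages

Written by helper18.
-/

set_option autoImplicit false
set_option linter.unusedSectionVars false

open Finset

namespace Pool.Agent.HYB

open Pool.Agent.Lib_helper8.QAA

variable {I : Type} [Fintype I] [DecidableEq I]
variable {A E : Type} [Fintype A] [Fintype E] {p : ℕ}

lemma k3_pm (H : Hybrid I A E p) {R r : ℕ} {h : List A} (hH : H.Short R r h) (e : E) (i : I)
    (x : I → Bool) {s : ℕ} (h1 : r ≤ s) (h2 : s < R) :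
    pm ((H.stage h e).look i) ((H.stage h e).state s x) = 0 := by
  unfold pm
  refine Finset.sum_eq_zero fun a ha => ?_
  by_contra hne
  have h3 : (H.stage h e).state s x a ≠ 0 := by
    intro h0
    apply hne
    rw [h0]
    simp
  have h4 := hH e x s a h1 h2 h3
  unfold Algorithm.look at ha
  rw [Finset.mem_filter, h4] at ha
  exact Finset.notMem_empty _ ha.2

lemma k3_mag (H : Hybrid I A E p) {R r : ℕ} {h : List A} (hH : H.Short R r h) (i : I)
    (x : I → Bool) : H.mag R h i x = H.mag (min r R) h i x := by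
  unfold Hybrid.mag
  refine Finset.sum_congr rfl fun e _ => ?_
  congr 1
  symm
  refine Finset.sum_subset ?_ ?_
  · intro s hs
    rw [Finset.mem_range] at hs ⊢
    exact lt_of_lt_of_le hs (min_le_right _ _)
  · intro s hs hs'
    rw [Finset.mem_range] at hs hs'
    refine k3_pm H hH e i x ?_ hs
    by_contra hc
    exact hs' (lt_min (not_le.1 hc) hs)

lemma k3_mrL (p k : ℕ) (η : ℝ) {R r : ℕ} (h : R ≤ r) : mrL R p k η ≤ mrL r p k η := by
  unfold mrL
  have h1 : (3 : ℝ) ^ ((R - 1) * p * (k + 3)) ≤ 3 ^ ((r - 1) * p * (k + 3)) := by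
    refine pow_le_pow_right₀ (by norm_num) ?_
    have : R - 1 ≤ r - 1 := by omega
    gcongr
  have h2 : 0 ≤ √η := Real.sqrt_nonneg _
  gcongr

theorem k3_stage (H : Hybrid I A E p) {R r : ℕ} {h : List A} (hH : H.Short R r h) {η : ℝ}
    (hη : 0 < η) (hη1 : η ≤ 1) {k D : ℕ} (hD : D ≤ 2 ^ (k + 1)) (hRp : R * p ≤ 2 ^ (k + 1))
    {P : (I → Bool) → ℝ} (hP : ∀ x, 0 ≤ P x) (hPD : Dg D (fun x => (P x : ℂ))) :
    ex (fun x => P x * ⨆ i : {i // i ∉ mrJs H R η h}, H.mag R h i x) ≤
      2 * mrL r p k η * ex P := by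
  have hmag : ∀ i x, H.mag R h i x = H.mag (min r R) h i x := fun i x => k3_mag H hH i x
  have hJ : mrJs H R η h = mrJs H (min r R) η h := by
    unfold mrJs
    refine Finset.filter_congr fun i _ => ?_
    rw [show H.mag R h i = H.mag (min r R) h i from funext fun x => hmag i x]
  rw [hJ]
  simp only [hmag]
  have h1 := mr_stage H (min r R) h hη hη1 (k := k) (D := D) hD
    ((Nat.mul_le_mul_right p (min_le_right r R)).trans hRp) hP hPD
  refine h1.trans ?_
  have h2 := k3_mrL p k η (min_le_left r R)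
  have h3 : 0 ≤ ex P := ex_nonneg hP
  have h4 : 2 * mrL (min r R) p k η ≤ 2 * mrL r p k η := by linarith
  exact mul_le_mul_of_nonneg_right h4 h3

end Pool.Agent.HYB
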