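import Pool.Agent.Lib_helper64.HYB.K1
import Pool.Agent.Lib_helper64.HYB.K2
import Pool.Agent.Lib_helper64.HYB.K3
import Pool.Agent.Lib_helper64.HYB.SIM0

/-!
# Hybrid algorithms with stages of three kinds
-/

set_option autoImplicit false
set_option linter.unusedSectionVars false

open Finset

namespace Pool.Agent.HYB

open Pool.Agent.Lib_helper8.QAA
open Pool.Agent.Lib_helper93.QSim (DTree pr)

variable {I : Type} [Fintype I] [DecidableEq I]
variable {A E : Type} [Fintype A] [Fintype E] {p : ℕ}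

/-! ### The light part -/

/-- The stage is light outside of the set `J` at the level `Λ`, for the weights `P` of degree at
most `q`. -/
def k4Light (H : Hybrid I A E p) (R : ℕ) (h : List A) (q : ℕ) (Λ : ℝ) (J : Finset I) : Prop :=
  ∀ (D : ℕ) (P : (I → Bool) → ℝ), D ≤ q → (∀ x, 0 ≤ P x) → Dg D (fun x => (P x : ℂ)) →
    ex (fun x => P x * ⨆ i : {i // i ∉ J}, H.mag R h i x) ≤ Λ * ex P

lemma k4_of_mag (H : Hybrid I A E p) (R : ℕ) (h : List A) (q : ℕ) {Λ : ℝ} (hΛ : 0 ≤ Λ)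
    {J : Finset I} (hm : ∀ x, ∀ i ∉ J, H.mag R h i x ≤ Λ) : k4Light H R h q Λ J := by
  intro D P _ hP _
  have h1 : ∀ x, P x * (⨆ i : {i // i ∉ J}, H.mag R h i x) ≤ Λ * P x := by
    intro x
    have h2 : (⨆ i : {i // i ∉ J}, H.mag R h i x) ≤ Λ :=
      Real.iSup_le (fun i => hm x i.1 i.2) hΛ
    have := mul_le_mul_of_nonneg_left h2 (hP x)
    linarith
  refine (ex_mono h1).trans ?_
  rw [ex_const_mul]

lemma k4_light (H : Hybrid I A E p) (R : ℕ) (J : List A → Finset I) {q : ℕ} {Λ : ℝ}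
    (hΛ : 0 ≤ Λ) (hJ : ∀ h, k4Light H R h q Λ (J h)) (T : ℕ) :
    ∀ (D : ℕ) (h : List A) (P : (I → Bool) → ℝ),
    (∀ x, 0 ≤ P x) → Dg D (fun x => (P x : ℂ)) → D + T * (2 * (R * p)) ≤ q →
    ex (fun x => P x * H.light R J T h x) ≤ T * Λ * ex P := by
  induction T with
  | zero =>
    intro D h P _ _ _
    simp [Hybrid.light, ex_const]
  | succ T ih =>
    intro D h P hP hPD hD
    have hP0 : 0 ≤ ex P := ex_nonneg hP
    have h1 := hJ h D P (by
      have : 0 ≤ (T + 1) * (2 * (R * p)) := Nat.zero_le _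
      omega) hP hPD
    have e1 : (fun x => P x * H.light R J (T + 1) h x) =
        fun x => P x * (⨆ i : {i // i ∉ J h}, H.mag R h i x) +
          ∑ a, (P x * H.outcome R h x a) * H.light R J T (a :: h) x := by
      funext x
      simp only [Hybrid.light]
      rw [mul_add, Finset.mul_sum]
      congr 1
      exact Finset.sum_congr rfl fun a _ => by ring
    rw [e1, ex_add, ex_sum]
    have h2 : ∀ a, ex (fun x => (P x * H.outcome R h x a) * H.light R J T (a :: h) x) ≤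
        T * Λ * ex (fun x => P x * H.outcome R h x a) := by
      intro a
      have h3 : Dg (D + 2 * (R * p)) (fun x => ((P x * H.outcome R h x a : ℝ) : ℂ)) := by
        have := hPD.mul (mr_outcome H R h a)
        refine (congrArg (Dg _) ?_).mp this
        funext x
        push_cast
        rfl
      exact ih (D + 2 * (R * p)) (a :: h) _
        (fun x => mul_nonneg (hP x) (mr_outcome_nonneg H R h x a)) h3
        (by
          have : D + (T + 1) * (2 * (R * p)) = D + 2 * (R * p) + T * (2 * (R * p)) := by ring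
          omega)
    have h4 : ∑ a, ex (fun x => P x * H.outcome R h x a) ≤ ex P := by
      rw [← ex_sum]
      refine ex_mono fun x => ?_
      rw [← Finset.mul_sum]
      exact mul_le_of_le_one_right (hP x) (mr_outcome_sum H R h x)
    have h5 : ∑ a, ex (fun x => (P x * H.outcome R h x a) * H.light R J T (a :: h) x) ≤
        T * Λ * ex P := by
      refine (Finset.sum_le_sum fun a _ => h2 a).trans ?_
      rw [← Finset.mul_sum]
      exact mul_le_mul_of_nonneg_left h4 (by positivity)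
    push_cast
    linarith

/-! ### The three kinds -/

lemma k4_short (H : Hybrid I A E p) {R r : ℕ} {h : List A} (hH : H.Short R r h) {η : ℝ}
    (hη : 0 < η) (hη1 : η ≤ 1) {k : ℕ} (hRp : R * p ≤ 2 ^ (k + 1)) {Λ W : ℝ}
    (hΛ : 2 * mrL r p k η ≤ Λ) (hW : R * p / η ≤ W) :
    ∃ J : Finset I, (J.card : ℝ) ≤ W ∧ k4Light H R h (2 ^ (k + 1)) Λ J := by
  refine ⟨mrJs H R η h, le_trans ?_ hW, ?_⟩
  · rw [le_div_iff₀ hη]
    calc ((mrJs H R η h).card : ℝ) * η = ∑ _i ∈ mrJs H R η h, η := by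
          rw [Finset.sum_const, nsmul_eq_mul]
      _ ≤ ∑ i ∈ mrJs H R η h, ex (H.mag R h i) := by
          refine Finset.sum_le_sum fun i hi => ?_
          unfold mrJs at hi
          exact (Finset.mem_filter.1 hi).2.le
      _ ≤ ∑ i, ex (H.mag R h i) :=
          Finset.sum_le_sum_of_subset_of_nonneg (Finset.subset_univ _)
            fun i _ _ => ex_nonneg fun x => mr_mag_nonneg H R h i x
      _ ≤ R * p := mr_mean_sum H R h
  · intro D P hD hP hPD
    refine (k3_stage H hH hη hη1 hD hRp hP hPD).trans ?_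
    exact mul_le_mul_of_nonneg_right hΛ (ex_nonneg hP)

lemma k4_clean (H : Hybrid I A E p) {R k : ℕ} {h : List A} (hH : H.Clean k h) {η : ℝ}
    (hη : 0 < η) {W : ℝ} (hW : 2 ^ k * (R * p / η) ≤ W) (q : ℕ) :
    ∃ J : Finset I, (J.card : ℝ) ≤ W ∧ k4Light H R h q η J := by
  have hE : Nonempty E := by
    by_contra hne
    rw [not_nonempty_iff] at hne
    have := H.sum_weight h
    simp at this
  obtain ⟨e₀⟩ := hE
  have hA : Nonempty A := by
    by_contra hne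
    rw [not_nonempty_iff] at hne
    have h1 := H.norm_init h e₀
    have h2 : (H.stage h e₀).init = 0 := Subsingleton.elim _ _
    rw [h2, norm_zero] at h1
    exact zero_ne_one h1
  have hApos : (0 : ℝ) < Fintype.card A := by exact_mod_cast Fintype.card_pos
  set J : Finset I := Finset.univ.filter fun i =>
    η < R * (2 ^ k * ((H.stage h e₀).look i).card / Fintype.card A) with hJ
  refine ⟨J, le_trans ?_ hW, k4_of_mag H R h q hη.le fun x i hi => ?_⟩
  · have h1 : (J.card : ℝ) * η ≤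
        ∑ i ∈ J, (R : ℝ) * (2 ^ k * ((H.stage h e₀).look i).card / Fintype.card A) := by
      rw [← nsmul_eq_mul, ← Finset.sum_const]
      refine Finset.sum_le_sum fun i hi => ?_
      rw [hJ, Finset.mem_filter] at hi
      exact hi.2.le
    have h2 : ∑ i ∈ J, (R : ℝ) * (2 ^ k * ((H.stage h e₀).look i).card / Fintype.card A) ≤
        ∑ i, (R : ℝ) * (2 ^ k * ((H.stage h e₀).look i).card / Fintype.card A) :=
      Finset.sum_le_sum_of_subset_of_nonneg (Finset.subset_univ _) fun _ _ _ => by positivity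
    have h3 : ∑ i, (R : ℝ) * (2 ^ k * ((H.stage h e₀).look i).card / Fintype.card A) =
        2 ^ k * R / Fintype.card A * ∑ i, (((H.stage h e₀).look i).card : ℝ) := by
      rw [Finset.mul_sum]
      exact Finset.sum_congr rfl fun i _ => by ring
    have h4 := sim_sum_look (H.stage h e₀)
    have h5 : 2 ^ k * (R : ℝ) / Fintype.card A * ∑ i, (((H.stage h e₀).look i).card : ℝ) ≤
        2 ^ k * R / Fintype.card A * (p * Fintype.card A) :=
      mul_le_mul_of_nonneg_left h4 (by positivity)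
    have h6 : 2 ^ k * (R : ℝ) / Fintype.card A * (p * Fintype.card A) = 2 ^ k * (R * p) := by
      field_simp
    have h7 : (J.card : ℝ) * η ≤ 2 ^ k * (R * p) := by linarith
    rw [← mul_div_assoc, le_div_iff₀ hη]
    exact h7
  · refine (k1_mag H hH R e₀ i x).trans ?_
    rw [hJ, Finset.mem_filter] at hi
    push Not at hi
    exact hi (Finset.mem_univ i)

lemma k4_noisy (H : Hybrid I A E p) {R : ℕ} {lam : ℝ} {h : List A} (h0 : 0 < lam) (h1 : lam ≤ 1)
    (hH : H.Noisy R lam h) {η : ℝ} (hη : 0 < η) {W : ℝ} (hW0 : 0 ≤ W)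
    (hW : (R * p / η) ^ (1 / Real.logb 2 (1 / (1 - lam / 2))) ≤ W) (q : ℕ) :
    ∃ J : Finset I, (J.card : ℝ) ≤ W ∧ k4Light H R h q η J := by
  obtain ⟨l, hl, hm⟩ := k2_mag H h0.le h1 hH
  set b : ℝ := 1 - lam / 2 with hb
  have hb0 : 0 < b := by rw [hb]; linarith
  have hb1 : b < 1 := by rw [hb]; linarith
  set c : ℝ := Real.logb 2 (1 / b) with hc
  have hc0 : 0 < c := Real.logb_pos (by norm_num) (by rw [lt_div_iff₀ hb0]; linarith)
  by_cases hlt : R * p * b ^ l ≤ η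
  · exact ⟨∅, by simpa using hW0, k4_of_mag H R h q hη.le fun x i _ => (hm x i).trans hlt⟩
  push Not at hlt
  refine ⟨Finset.univ, le_trans ?_ hW, k4_of_mag H R h q hη.le fun x i hi => ?_⟩
  · have h2 : ((Finset.univ : Finset I).card : ℝ) ≤ 2 ^ l := by
      rw [Finset.card_univ]
      exact_mod_cast hl
    refine h2.trans ?_
    have hbc : b = (2 : ℝ) ^ (-c) := by
      rw [hc, Real.rpow_neg (by norm_num), Real.rpow_logb (by norm_num) (by norm_num)
        (by positivity)]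
      field_simp
    have h3 : (1 / b) ^ l ≤ R * p / η := by
      rw [le_div_iff₀ hη, one_div, inv_pow, inv_mul_le_iff₀ (by positivity)]
      linarith
    have h4 : (2 : ℝ) ^ l = ((1 / b) ^ l) ^ (1 / c) := by
      have h5 : (1 / b) ^ l = (2 : ℝ) ^ (c * l) := by
        rw [hbc, one_div, ← Real.rpow_neg (by norm_num), neg_neg, ← Real.rpow_natCast,
          ← Real.rpow_mul (by norm_num)]
      have h6 : c * l * (1 / c) = (l : ℝ) := by field_simp
      rw [h5, ← Real.rpow_mul (by norm_num), h6, Real.rpow_natCast]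
    rw [h4]
    exact Real.rpow_le_rpow (by positivity) h3 (by positivity)
  · exact absurd (Finset.mem_univ i) hi

/-! ### The bound -/

theorem k4_core (H : Hybrid I A E p) {R T r k : ℕ} (hn : 1 ≤ T * R * p) {lam : ℝ}
    (hl0 : 0 < lam) (hl1 : lam ≤ 1)
    (hH : ∀ h, H.Short R r h ∨ H.Clean k h ∨ H.Noisy R lam h) {X : ℝ} (hX0 : 0 < X)
    (hX1 : X ≤ 1) {u : ℝ} (hu2 : 2 ≤ u) (hu : 1 / Real.logb 2 (1 / (1 - lam / 2)) ≤ u) :
    ∃ (J : List A → Finset I) (W : ℝ), 0 < W ∧ (∀ h, ((J h).card : ℝ) ≤ W) ∧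
      T * W ≤ 2 ^ k * bound T R p r X ^ u ∧
      2 ^ 16 * ((T * R) ^ 3 * p ^ 2 * ex (H.light R J T [])) ≤ X := by
  classical
  set n : ℕ := T * R * p with hndef
  have hT : 1 ≤ T := Nat.pos_of_ne_zero fun h => by rw [hndef, h] at hn; simp at hn
  have hR : 1 ≤ R := Nat.pos_of_ne_zero fun h => by rw [hndef, h] at hn; simp at hn
  have hp : 1 ≤ p := Nat.pos_of_ne_zero fun h => by rw [hndef, h] at hn; simp at hn
  have hTr : (1 : ℝ) ≤ T := by exact_mod_cast hT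
  have hRr : (1 : ℝ) ≤ R := by exact_mod_cast hR
  have hpr : (1 : ℝ) ≤ p := by exact_mod_cast hp
  have hnr : (n : ℝ) = T * R * p := by rw [hndef]; push_cast; ring
  have hn1 : (1 : ℝ) ≤ n := by exact_mod_cast hn
  have hTn : (T : ℝ) ≤ n := by
    have : T ≤ n := by
      rw [hndef, Nat.mul_assoc]
      exact Nat.le_mul_of_pos_right T (Nat.mul_pos hR hp)
    exact_mod_cast this
  have hRpn : (R : ℝ) * p ≤ n := by
    have : R * p ≤ n := by
      rw [hndef, Nat.mul_assoc]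
      exact Nat.le_mul_of_pos_left _ hT
    exact_mod_cast this
  set κ : ℕ := Nat.clog 2 n with hk
  have hk1 : n ≤ 2 ^ κ := Nat.le_pow_clog (by norm_num) n
  have hk2 : 2 ^ κ ≤ 2 * n := by
    rcases Nat.eq_or_lt_of_le hn with h1 | h1
    · have : κ = 0 := by rw [hk, ← h1]; simp
      rw [this]; omega
    · have h2 : 2 ^ (κ - 1) < n := by
        rw [hk]
        exact Nat.pow_pred_clog_lt_self (by norm_num) h1
      have h3 : 1 ≤ κ := by
        rw [hk]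
        exact Nat.clog_pos (by norm_num) h1
      have h4 : 2 ^ κ = 2 * 2 ^ (κ - 1) := by
        rw [← pow_succ', Nat.sub_add_cancel h3]
      omega
  set c : ℕ := (r - 1) * p with hc
  set K : ℝ := (16 * n) ^ (2 * c) with hKdef
  have hK1 : 1 ≤ K := one_le_pow₀ (by linarith)
  have hn4 : (1 : ℝ) ≤ (n : ℝ) ^ 4 := one_le_pow₀ hn1
  have hn5 : (1 : ℝ) ≤ (n : ℝ) ^ 5 := one_le_pow₀ hn1
  set G : ℝ := 2 ^ 20 * (n : ℝ) ^ 4 * K with hG
  have hG1 : 1 ≤ G := by
    rw [hG]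
    have h3 : (1 : ℝ) ≤ 2 ^ 20 * (n : ℝ) ^ 4 := by nlinarith
    nlinarith
  have hG0 : 0 < G := by linarith
  set η : ℝ := (X / G) ^ 2 with hη
  have hη0 : 0 < η := by rw [hη]; positivity
  have hvG : X / G ≤ 1 := by
    rw [div_le_one hG0]
    linarith
  have hη1 : η ≤ 1 := pow_le_one₀ (by positivity) hvG
  have hsq : √η = X / G := by rw [hη]; exact Real.sqrt_sq (by positivity)
  set Λ : ℝ := 12 * X / (2 ^ 20 * (n : ℝ) ^ 4) with hΛ
  have hΛ0 : 0 < Λ := by rw [hΛ]; positivity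
  -- the level of the short stages
  have hL : 2 * mrL r p κ η ≤ Λ := by
    unfold mrL
    rw [hsq, ← hc]
    have h1 : (3 : ℝ) ^ (c * (κ + 3)) ≤ K := by
      have h2 : (3 : ℝ) ^ (κ + 3) ≤ (16 * n) ^ 2 := by
        have h3 : (2 : ℝ) ^ κ ≤ 2 * n := by exact_mod_cast hk2
        calc (3 : ℝ) ^ (κ + 3) ≤ 4 ^ (κ + 3) := by gcongr; norm_num
          _ = (8 * 2 ^ κ) ^ 2 := by
              rw [show (4 : ℝ) = 2 ^ 2 by norm_num, ← pow_mul, mul_pow, ← pow_mul]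
              rw [show (8 : ℝ) = 2 ^ 3 by norm_num, ← pow_mul, ← pow_add]
              congr 1; ring
          _ ≤ (8 * (2 * n)) ^ 2 := by gcongr
          _ = (16 * n) ^ 2 := by ring
      calc (3 : ℝ) ^ (c * (κ + 3)) = (3 ^ (κ + 3)) ^ c := by rw [← pow_mul, mul_comm]
        _ ≤ ((16 * n) ^ 2) ^ c := by gcongr
        _ = K := by rw [hKdef, ← pow_mul]
    calc 2 * (6 * 3 ^ (c * (κ + 3)) * (X / G)) ≤ 2 * (6 * K * (X / G)) := by gcongr
      _ = Λ := by
          rw [hΛ, hG]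
          field_simp
          ring
  -- the number of the heavy coordinates
  set B₀ : ℝ := 2 ^ 20 * (n : ℝ) ^ 5 * K / X with hB₀
  have hB1 : 1 ≤ B₀ := by
    rw [hB₀, le_div_iff₀ hX0]
    nlinarith
  have hB0 : 0 < B₀ := by linarith
  set W : ℝ := 2 ^ k * B₀ ^ u with hWdef
  have h2k : (1 : ℝ) ≤ 2 ^ k := one_le_pow₀ (by norm_num)
  have hBu : 1 ≤ B₀ ^ u := Real.one_le_rpow hB1 (by linarith)
  have hW0 : 0 < W := by positivity
  have hBW : B₀ ^ u ≤ W := by rw [hWdef]; nlinarith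
  have hW1 : R * p / η ≤ W := by
    refine le_trans ?_ hBW
    have h1 : B₀ ^ (2 : ℝ) ≤ B₀ ^ u := Real.rpow_le_rpow_of_exponent_le hB1 hu2
    refine le_trans ?_ h1
    rw [Real.rpow_two]
    have h2 : R * p / η = (R * p : ℝ) * G ^ 2 / X ^ 2 := by
      rw [hη]
      field_simp
    have h3 : B₀ ^ 2 = (n : ℝ) ^ 2 * G ^ 2 / X ^ 2 := by
      rw [hB₀, hG]
      field_simp
    rw [h2, h3]
    have h4 : (R * p : ℝ) ≤ (n : ℝ) ^ 2 := by nlinarith
    gcongr
  have hη2 : (R : ℝ) * p / Λ ≤ B₀ := by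
    rw [hΛ, hB₀]
    have h2 : (R : ℝ) * p / (12 * X / (2 ^ 20 * (n : ℝ) ^ 4)) =
        (R * p : ℝ) * (2 ^ 20 * (n : ℝ) ^ 4) / (12 * X) := by
      field_simp
    rw [h2, div_le_div_iff₀ (by positivity) hX0]
    have h3 : (R * p : ℝ) * (2 ^ 20 * (n : ℝ) ^ 4) ≤ 2 ^ 20 * (n : ℝ) ^ 5 * K := by
      calc (R * p : ℝ) * (2 ^ 20 * (n : ℝ) ^ 4) ≤ n * (2 ^ 20 * (n : ℝ) ^ 4) := by gcongr
        _ = 2 ^ 20 * (n : ℝ) ^ 5 * 1 := by ring
        _ ≤ 2 ^ 20 * (n : ℝ) ^ 5 * K := by gcongr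
    have h5 : X ≤ 12 * X := by linarith
    exact mul_le_mul h3 h5 hX0.le (by positivity)
  have hW2 : 2 ^ k * (R * p / Λ) ≤ W := by
    rw [hWdef]
    have h1 : B₀ ≤ B₀ ^ u := by
      have := Real.rpow_le_rpow_of_exponent_le hB1 (by linarith : (1 : ℝ) ≤ u)
      rwa [Real.rpow_one] at this
    have h2 : (R : ℝ) * p / Λ ≤ B₀ ^ u := hη2.trans h1
    gcongr
  have hW3 : (R * p / Λ) ^ (1 / Real.logb 2 (1 / (1 - lam / 2))) ≤ W := by
    refine le_trans ?_ hBW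
    have h1 : 0 ≤ 1 / Real.logb 2 (1 / (1 - lam / 2)) := by
      refine one_div_nonneg.2 (Real.logb_nonneg (by norm_num) ?_)
      rw [le_div_iff₀ (by linarith)]
      linarith
    calc (R * p / Λ : ℝ) ^ (1 / Real.logb 2 (1 / (1 - lam / 2)))
        ≤ B₀ ^ (1 / Real.logb 2 (1 / (1 - lam / 2))) :=
          Real.rpow_le_rpow (by positivity) hη2 h1
      _ ≤ B₀ ^ u := Real.rpow_le_rpow_of_exponent_le hB1 hu
  -- the sets
  have hRpk : R * p ≤ 2 ^ (κ + 1) := by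
    have h1 : R * p ≤ n := by
      rw [hndef, Nat.mul_assoc]
      exact Nat.le_mul_of_pos_left _ hT
    have h2 : 2 ^ κ ≤ 2 ^ (κ + 1) := Nat.pow_le_pow_right (by norm_num) (by omega)
    omega
  have key : ∀ h, ∃ J : Finset I, (J.card : ℝ) ≤ W ∧ k4Light H R h (2 ^ (κ + 1)) Λ J := by
    intro h
    rcases hH h with h1 | h1 | h1
    · exact k4_short H h1 hη0 hη1 hRpk hL hW1
    · exact k4_clean H h1 hΛ0 hW2 _
    · exact k4_noisy H hl0 hl1 h1 hΛ0 hW0.le hW3 _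
  choose J hJ1 hJ2 using key
  refine ⟨J, W, hW0, hJ1, ?_, ?_⟩
  · have h1 : bound T R p r X = n * B₀ := by
      unfold bound
      rw [← hnr, ← hc, ← hKdef, hB₀]
      ring
    rw [h1, hWdef, Real.mul_rpow (by positivity) hB0.le]
    have h2 : (T : ℝ) ≤ (n : ℝ) ^ u := by
      refine hTn.trans ?_
      have := Real.rpow_le_rpow_of_exponent_le hn1 (by linarith : (1 : ℝ) ≤ u)
      rwa [Real.rpow_one] at this
    calc (T : ℝ) * (2 ^ k * B₀ ^ u) = 2 ^ k * (T * B₀ ^ u) := by ring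
      _ ≤ 2 ^ k * ((n : ℝ) ^ u * B₀ ^ u) := by gcongr
  · have hTk : 0 + T * (2 * (R * p)) ≤ 2 ^ (κ + 1) := by
      have h1 : T * (2 * (R * p)) = 2 * n := by rw [hndef]; ring
      rw [pow_succ]
      omega
    have hlight := k4_light H R J hΛ0.le hJ2 T 0 [] (fun _ => 1) (fun _ => by norm_num)
      (by simpa using Dg.const (I := I) 0 1) hTk
    simp only [one_mul, ex_const, mul_one] at hlight
    calc 2 ^ 16 * (((T : ℝ) * R) ^ 3 * p ^ 2 * ex (H.light R J T []))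
        ≤ 2 ^ 16 * ((T * R) ^ 3 * p ^ 2 * (T * Λ)) := by gcongr
      _ = 2 ^ 16 * ((T * R) ^ 3 * p ^ 2 * T) * Λ := by ring
      _ ≤ 2 ^ 16 * (n : ℝ) ^ 4 * Λ := by
          have h1 : ((T : ℝ) * R) ^ 3 * p ^ 2 * T ≤ (n : ℝ) ^ 4 := by
            rw [hnr]
            have h2 : (T : ℝ) ≤ (T : ℝ) * (R : ℝ) := by nlinarith
            have h3 : (1 : ℝ) ≤ (p : ℝ) ^ 2 := one_le_pow₀ hpr
            calc ((T : ℝ) * R) ^ 3 * (p : ℝ) ^ 2 * (T : ℝ)
                = ((T : ℝ) * R) ^ 3 * (T : ℝ) * (1 * (p : ℝ) ^ 2) := by ring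
              _ ≤ ((T : ℝ) * R) ^ 3 * ((T : ℝ) * R) * ((p : ℝ) ^ 2 * (p : ℝ) ^ 2) := by
                  gcongr
              _ = ((T : ℝ) * R * p) ^ 4 := by ring
          gcongr
      _ = 12 / 16 * X := by
          rw [hΛ]
          field_simp
          ring
      _ ≤ X := by linarith

theorem k4_infl (H : Hybrid I A E p) {R T r k : ℕ} (hn : 1 ≤ T * R * p) {lam : ℝ}
    (hl0 : 0 < lam) (hl1 : lam ≤ 1)
    (hH : ∀ h, H.Short R r h ∨ H.Clean k h ∨ H.Noisy R lam h) {v : ℝ} (hv : 0 < v)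
    (hvar : variance (H.prob R T []) = v) {u : ℝ} (hu2 : 2 ≤ u)
    (hu : 1 / Real.logb 2 (1 / (1 - lam / 2)) ≤ u) :
    ∃ i, 1 / (2 ^ (4 * k) * bound T R p r (v ^ 2) ^ (4 * u + 2)) ≤
      influence (H.prob R T []) i := by
  have hv1 : v ≤ 1 := hvar ▸ mr_var_le H R T
  have hX1 : v ^ 2 ≤ 1 := pow_le_one₀ hv.le hv1
  obtain ⟨J, W, hW0, hW, hTW, hs⟩ := k4_core H hn hl0 hl1 hH (X := v ^ 2) (by positivity) hX1
    hu2 hu
  obtain ⟨i, hi⟩ := hybrid_general H R T J hW0 hW hv hvar hs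
  refine ⟨i, le_trans ?_ hi⟩
  have hT : 1 ≤ T := Nat.pos_of_ne_zero fun h => by rw [h] at hn; simp at hn
  have hTr : (1 : ℝ) ≤ T := by exact_mod_cast hT
  have hn1 : (1 : ℝ) ≤ (T * R * p : ℝ) := by exact_mod_cast hn
  set B : ℝ := bound T R p r (v ^ 2) with hB
  have hB1 : 2 ^ 20 / v ^ 2 ≤ B := by
    rw [hB]
    unfold bound
    have h1 : (1 : ℝ) ≤ (T * R * p : ℝ) ^ 6 := one_le_pow₀ hn1
    have h2 : (1 : ℝ) ≤ (16 * (T * R * p : ℝ)) ^ (2 * ((r - 1) * p)) :=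
      one_le_pow₀ (by linarith)
    rw [div_le_div_iff_of_pos_right (by positivity)]
    nlinarith
  have hB0 : 0 < B := lt_of_lt_of_le (by positivity) hB1
  have hTW0 : 0 < T * W := by positivity
  have h3 : (T * W) ^ 4 ≤ 2 ^ (4 * k) * B ^ (4 * u) := by
    calc (T * W) ^ 4 ≤ (2 ^ k * B ^ u) ^ 4 := by gcongr
      _ = 2 ^ (4 * k) * B ^ (4 * u) := by
          rw [mul_pow, ← pow_mul, mul_comm k 4, ← Real.rpow_natCast (B ^ u) 4,
            ← Real.rpow_mul hB0.le]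
          norm_num
          ring_nf
  have h4 : B ^ (4 * u + 2) = B ^ (4 * u) * B ^ 2 := by
    rw [Real.rpow_add hB0, Real.rpow_two]
  rw [h4, div_le_div_iff₀ (by positivity) (by positivity)]
  have h5 : 2 ^ 10 ≤ v ^ 4 * B ^ 2 := by
    have h6 : (2 ^ 20 / v ^ 2) ^ 2 ≤ B ^ 2 := by gcongr
    have h7 : v ^ 4 * (2 ^ 20 / v ^ 2) ^ 2 = 2 ^ 40 := by
      field_simp
    calc (2 : ℝ) ^ 10 ≤ 2 ^ 40 := by norm_num
      _ = v ^ 4 * (2 ^ 20 / v ^ 2) ^ 2 := h7.symm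
      _ ≤ v ^ 4 * B ^ 2 := by gcongr
  calc 1 * (2 ^ 10 * (T * W) ^ 4) ≤ 2 ^ 10 * (2 ^ (4 * k) * B ^ (4 * u)) := by
        rw [one_mul]; gcongr
    _ ≤ (v ^ 4 * B ^ 2) * (2 ^ (4 * k) * B ^ (4 * u)) := by gcongr
    _ = v ^ 4 * (2 ^ (4 * k) * (B ^ (4 * u) * B ^ 2)) := by ring

theorem k4_sim (H : Hybrid I A E p) {R T r k : ℕ} (hn : 1 ≤ T * R * p) {lam : ℝ}
    (hl0 : 0 < lam) (hl1 : lam ≤ 1)
    (hH : ∀ h, H.Short R r h ∨ H.Clean k h ∨ H.Noisy R lam h) {ε δ : ℝ} (hε : 0 < ε)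
    (hε1 : ε ≤ 1) (hδ : 0 < δ) (hδ1 : δ ≤ 1) {u : ℝ} (hu2 : 2 ≤ u)
    (hu : 1 / Real.logb 2 (1 / (1 - lam / 2)) ≤ u) :
    ∃ t : DTree I ℝ,
      (t.depth : ℝ) ≤ 2 ^ (2 * k) * bound T R p r (ε ^ 4 * δ ^ 2) ^ (2 * u + 1) ∧
      pr {x | ε < |H.prob R T [] x - t.eval x|} ≤ δ := by
  have hX1 : ε ^ 4 * δ ^ 2 ≤ 1 := by
    have a : ε ^ 4 ≤ 1 := pow_le_one₀ hε.le hε1
    have b : δ ^ 2 ≤ 1 := pow_le_one₀ hδ.le hδ1
    have c : 0 ≤ δ ^ 2 := by positivity
    nlinarith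
  obtain ⟨J, W, hW0, hW, hTW, hs⟩ := k4_core H hn hl0 hl1 hH (X := ε ^ 4 * δ ^ 2)
    (by positivity) hX1 hu2 hu
  have hl : 0 ≤ ex (H.light R J T []) := by
    refine ex_nonneg fun x => ?_
    have h6 : ∀ (T : ℕ) (h : List A) (x : I → Bool), 0 ≤ H.light R J T h x := by
      intro T
      induction T with
      | zero => intro h x; exact le_rfl
      | succ T ih =>
        intro h x
        refine add_nonneg (Real.iSup_nonneg fun i => mr_mag_nonneg H R h i.1 x) ?_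
        exact Finset.sum_nonneg fun a _ =>
          mul_nonneg (mr_outcome_nonneg H R h x a) (ih (a :: h) x)
    exact h6 T [] x
  have hs' : 2 ^ 14 * ((T * R : ℝ) ^ 3 * p ^ 2 * ex (H.light R J T [])) ≤ ε ^ 4 * δ ^ 2 := by
    refine le_trans ?_ hs
    have h3 : 0 ≤ (T * R : ℝ) ^ 3 * p ^ 2 * ex (H.light R J T []) := by positivity
    nlinarith
  obtain ⟨t, ht1, ht2⟩ := sim_general H R T J hW0 hW hε hδ hs'
  refine ⟨t, ht1.trans ?_, ht2⟩
  have hn1 : (1 : ℝ) ≤ (T * R * p : ℝ) := by exact_mod_cast hn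
  set B : ℝ := bound T R p r (ε ^ 4 * δ ^ 2) with hB
  have hB1 : 2 ^ 20 / (ε ^ 4 * δ ^ 2) ≤ B := by
    rw [hB]
    unfold bound
    have h1 : (1 : ℝ) ≤ (T * R * p : ℝ) ^ 6 := one_le_pow₀ hn1
    have h2 : (1 : ℝ) ≤ (16 * (T * R * p : ℝ)) ^ (2 * ((r - 1) * p)) :=
      one_le_pow₀ (by linarith)
    rw [div_le_div_iff_of_pos_right (by positivity)]
    nlinarith
  have hB0 : 0 < B := lt_of_lt_of_le (by positivity) hB1
  have h3 : (T * W) ^ 2 ≤ 2 ^ (2 * k) * B ^ (2 * u) := by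
    have hTW0 : 0 ≤ T * W := by positivity
    calc (T * W) ^ 2 ≤ (2 ^ k * B ^ u) ^ 2 := by gcongr
      _ = 2 ^ (2 * k) * B ^ (2 * u) := by
          rw [mul_pow, ← pow_mul, mul_comm k 2, ← Real.rpow_natCast (B ^ u) 2,
            ← Real.rpow_mul hB0.le]
          norm_num
          ring_nf
  have h4 : B ^ (2 * u + 1) = B ^ (2 * u) * B := by
    rw [Real.rpow_add hB0, Real.rpow_one]
  have h5 : 8 / (ε ^ 2 * δ ^ 2) ≤ B := by
    refine le_trans ?_ hB1
    rw [div_le_div_iff₀ (by positivity) (by positivity)]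
    have h6 : ε ^ 4 ≤ ε ^ 2 := pow_le_pow_of_le_one hε.le hε1 (by norm_num)
    have h7 : 8 * (ε ^ 4 * δ ^ 2) ≤ 8 * (ε ^ 2 * δ ^ 2) := by gcongr
    have h8 : 0 ≤ ε ^ 2 * δ ^ 2 := by positivity
    linarith
  calc 8 * (T * W) ^ 2 / (ε ^ 2 * δ ^ 2) = (T * W) ^ 2 * (8 / (ε ^ 2 * δ ^ 2)) := by ring
    _ ≤ (2 ^ (2 * k) * B ^ (2 * u)) * B := by gcongr
    _ = 2 ^ (2 * k) * B ^ (2 * u + 1) := by rw [h4]; ring

end Pool.Agent.HYB
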