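import Pool.Agent.Lib_helper64.HYB.DB

/-!
# The light lemma

Written by helper38.
-/

set_option autoImplicit false
set_option linter.unusedSectionVars false

open Finset

namespace Pool.Agent.HYB

open Pool.Agent.Lib_helper8.QAA

variable {I : Type} [Fintype I] [DecidableEq I]

variable {Ω : Type} [Fintype Ω]

lemma ll_corr_add (ρ : ℝ) (F G : (I → Bool) → (I → Bool) → ℝ) :
    corr ρ (fun x y => F x y + G x y) = corr ρ F + corr ρ G := by
  unfold corr
  rw [← mul_add, ← Finset.sum_add_distrib]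
  congr 1
  refine Finset.sum_congr rfl fun x _ => ?_
  rw [← Finset.sum_add_distrib]
  refine Finset.sum_congr rfl fun y _ => ?_
  ring

lemma ll_norm_sq (Ψ : (I → Bool) → EuclideanSpace ℂ Ω) (x : I → Bool) :
    ∑ τ, ‖Ψ x τ‖ ^ 2 = ‖Ψ x‖ ^ 2 := by
  rw [EuclideanSpace.norm_sq_eq]

/-- The kernel of the pairs with a collision. -/
noncomputable def ll_co (Q : Ω → Finset I) (g : Ω → ℝ) (τ τ' : Ω) : ℝ :=
  if Disjoint (Q τ) (Q τ') then 0 else g τ * g τ'

lemma ll_split (Ψ : (I → Bool) → EuclideanSpace ℂ Ω) (Q : Ω → Finset I) (g : Ω → ℝ)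
    (x y : I → Bool) :
    val Ψ g x * val Ψ g y = pairSum Ψ (ker Q g) x y + pairSum Ψ (ll_co Q g) x y := by
  unfold val pairSum
  rw [Finset.sum_mul_sum, ← Finset.sum_add_distrib]
  refine Finset.sum_congr rfl fun τ _ => ?_
  rw [← Finset.sum_add_distrib]
  refine Finset.sum_congr rfl fun τ' _ => ?_
  unfold ker ll_co
  split_ifs <;> ring

lemma ll_corr_split (Ψ : (I → Bool) → EuclideanSpace ℂ Ω) (Q : Ω → Finset I) (g : Ω → ℝ)
    (ρ : ℝ) :
    corr ρ (fun x y => val Ψ g x * val Ψ g y) =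
      corr ρ (pairSum Ψ (ker Q g)) + corr ρ (pairSum Ψ (ll_co Q g)) := by
  rw [← ll_corr_add]
  congr 1
  funext x y
  exact ll_split Ψ Q g x y

lemma ll_pairSum_nonneg (Ψ : (I → Bool) → EuclideanSpace ℂ Ω) {k : Ω → Ω → ℝ}
    (hk : ∀ τ τ', 0 ≤ k τ τ') (x y : I → Bool) : 0 ≤ pairSum Ψ k x y := by
  unfold pairSum
  exact Finset.sum_nonneg fun τ _ => Finset.sum_nonneg fun τ' _ =>
    mul_nonneg (hk τ τ') (by positivity)

lemma ll_pairSum_mono (Ψ : (I → Bool) → EuclideanSpace ℂ Ω) {k l : Ω → Ω → ℝ}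
    (hk : ∀ τ τ', k τ τ' ≤ l τ τ') (x y : I → Bool) : pairSum Ψ k x y ≤ pairSum Ψ l x y := by
  unfold pairSum
  exact Finset.sum_le_sum fun τ _ => Finset.sum_le_sum fun τ' _ =>
    mul_le_mul_of_nonneg_right (hk τ τ') (by positivity)

lemma ll_hit (Ψ : (I → Bool) → EuclideanSpace ℂ Ω) (Q : Ω → Finset I) (x y : I → Bool) :
    pairSum Ψ (ll_co Q (fun _ => 1)) x y ≤ ∑ i, hit Ψ Q i x * hit Ψ Q i y := by
  have e : ∑ i, hit Ψ Q i x * hit Ψ Q i y =
      ∑ τ, ∑ τ', (∑ i, if i ∈ Q τ ∧ i ∈ Q τ' then (1 : ℝ) else 0) *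
        (‖Ψ x τ‖ ^ 2 * ‖Ψ y τ'‖ ^ 2) := by
    unfold hit
    simp_rw [Finset.sum_mul_sum]
    rw [Finset.sum_comm]
    refine Finset.sum_congr rfl fun τ _ => ?_
    rw [Finset.sum_comm]
    refine Finset.sum_congr rfl fun τ' _ => ?_
    rw [Finset.sum_mul]
    refine Finset.sum_congr rfl fun i _ => ?_
    by_cases h1 : i ∈ Q τ <;> by_cases h2 : i ∈ Q τ' <;> simp [h1, h2]
  rw [e]
  unfold pairSum
  refine Finset.sum_le_sum fun τ _ => Finset.sum_le_sum fun τ' _ =>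
    mul_le_mul_of_nonneg_right ?_ (by positivity)
  unfold ll_co
  split_ifs with hd
  · exact Finset.sum_nonneg fun i _ => by split_ifs <;> norm_num
  · obtain ⟨i, hi1, hi2⟩ := Finset.not_disjoint_iff.1 hd
    have h1 : (1 : ℝ) * 1 = (if i ∈ Q τ ∧ i ∈ Q τ' then (1 : ℝ) else 0) := by
      rw [if_pos ⟨hi1, hi2⟩]; norm_num
    rw [h1]
    exact Finset.single_le_sum (f := fun i => if i ∈ Q τ ∧ i ∈ Q τ' then (1 : ℝ) else 0)
      (fun j _ => by
        show (0 : ℝ) ≤ if j ∈ Q τ ∧ j ∈ Q τ' then (1 : ℝ) else 0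
        split_ifs <;> norm_num) (Finset.mem_univ i)

lemma ll_mvt {Ψ : (I → Bool) → EuclideanSpace ℂ Ω} {Q : Ω → Finset I}
    {M : (I → Bool) → ℝ} {κ b : ℝ} (hT : Tame Ψ Q M κ b) {g : Ω → ℝ} (hg0 : ∀ τ, 0 ≤ g τ)
    (hg1 : ∀ τ, g τ ≤ 1) :
    |corr 1 (pairSum Ψ (ker Q g)) - corr 0 (pairSum Ψ (ker Q g))| ≤
      8 * √(κ * b ^ 2 * ex M) + 8 * (κ * b ^ 2 * ex M) := by
  have h := norm_image_sub_le_of_norm_deriv_le_segment_01'
    (f := fun ρ : ℝ => corr ρ (pairSum Ψ (ker Q g)))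
    (f' := fun ρ => ∑ i, dcorr i ρ (pairSum Ψ (ker Q g)))
    (C := 8 * √(κ * b ^ 2 * ex M) + 8 * (κ * b ^ 2 * ex M))
    (fun ρ _ => (hasDerivAt_corr _ ρ).hasDerivWithinAt)
    (fun ρ hρ => by
      rw [Real.norm_eq_abs]
      exact deriv_bound hT hg0 hg1 hρ.1 hρ.2.le)
  rwa [Real.norm_eq_abs] at h

theorem light_lemma {Ψ : (I → Bool) → EuclideanSpace ℂ Ω} {Q : Ω → Finset I}
    {M : (I → Bool) → ℝ} {κ b : ℝ} (hT : Tame Ψ Q M κ b) {g : Ω → ℝ} (hg0 : ∀ τ, 0 ≤ g τ)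
    (hg1 : ∀ τ, g τ ≤ 1) :
    ex (fun x => val Ψ g x ^ 2) - ex (val Ψ g) ^ 2 ≤
      32 * √(κ * b ^ 2 * ex M) + ∑ i, ex (hit Ψ Q i) ^ 2 := by
  set X : ℝ := κ * b ^ 2 * ex M with hX
  have hX0 : 0 ≤ X := by
    refine mul_nonneg (mul_nonneg hT.κ_nonneg (by positivity)) ?_
    have := ex_mono (f := fun _ => (0 : ℝ)) (g := M) hT.M_nonneg
    rwa [ex_const] at this
  have hone : ∀ x, val Ψ (fun _ => 1) x = 1 := by
    intro x
    unfold val
    simp only [one_mul]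
    rw [ll_norm_sq, hT.norm_eq, one_pow]
  have hv0 : ∀ x, 0 ≤ val Ψ g x := fun x =>
    Finset.sum_nonneg fun τ _ => mul_nonneg (hg0 τ) (by positivity)
  have hv1 : ∀ x, val Ψ g x ≤ 1 := fun x => by
    rw [← hone x]
    exact Finset.sum_le_sum fun τ _ => mul_le_mul_of_nonneg_right (hg1 τ) (by positivity)
  have hs0 : 0 ≤ ∑ i, ex (hit Ψ Q i) ^ 2 := Finset.sum_nonneg fun i _ => sq_nonneg _
  rcases le_total 1 X with h | h
  · have h1 : ex (fun x => val Ψ g x ^ 2) ≤ 1 := by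
      have := ex_mono (f := fun x => val Ψ g x ^ 2) (g := fun _ => (1 : ℝ)) (fun x => by
        have := hv0 x
        have := hv1 x
        show val Ψ g x ^ 2 ≤ 1
        nlinarith)
      rwa [ex_const] at this
    have h2 : 1 ≤ √X := by
      rw [Real.one_le_sqrt]; exact h
    nlinarith [sq_nonneg (ex (val Ψ g))]
  · have hsq : X ≤ √X := by
      have h1 : √X * √X = X := Real.mul_self_sqrt hX0
      have h2 : √X ≤ 1 := by rw [Real.sqrt_le_one]; exact h
      have h3 := Real.sqrt_nonneg X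
      nlinarith
    have m1 := ll_mvt hT hg0 hg1
    have m2 := ll_mvt hT (g := fun _ => 1) (fun _ => zero_le_one) (fun _ => le_refl _)
    rw [← hX] at m1 m2
    have a1 := (abs_le.1 m1).2
    have a2 := (abs_le.1 m2).1
    -- the value at 1
    have e1 : ex (fun x => val Ψ g x ^ 2) =
        corr 1 (pairSum Ψ (ker Q g)) + corr 1 (pairSum Ψ (ll_co Q g)) := by
      rw [← ll_corr_split, corr_one]
      congr 1
      funext x
      ring
    have e0 : ex (val Ψ g) ^ 2 =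
        corr 0 (pairSum Ψ (ker Q g)) + corr 0 (pairSum Ψ (ll_co Q g)) := by
      rw [← ll_corr_split, corr_zero]
      ring
    have c0 : 0 ≤ corr 0 (pairSum Ψ (ll_co Q g)) :=
      corr_nonneg le_rfl zero_le_one (ll_pairSum_nonneg Ψ fun τ τ' => by
        unfold ll_co
        split_ifs
        · exact le_rfl
        · exact mul_nonneg (hg0 τ) (hg0 τ'))
    have c1 : corr 1 (pairSum Ψ (ll_co Q g)) ≤ corr 1 (pairSum Ψ (ll_co Q (fun _ => 1))) :=
      corr_mono zero_le_one le_rfl (ll_pairSum_mono Ψ fun τ τ' => by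
        unfold ll_co
        split_ifs
        · exact le_rfl
        · exact mul_le_mul (hg1 τ) (hg1 τ') (hg0 τ') zero_le_one)
    have f1 : (1 : ℝ) = corr 1 (pairSum Ψ (ker Q (fun _ => 1))) +
        corr 1 (pairSum Ψ (ll_co Q (fun _ => 1))) := by
      rw [← ll_corr_split, corr_one]
      simp_rw [hone]
      rw [ex_const]
      norm_num
    have f0 : (1 : ℝ) = corr 0 (pairSum Ψ (ker Q (fun _ => 1))) +
        corr 0 (pairSum Ψ (ll_co Q (fun _ => 1))) := by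
      rw [← ll_corr_split, corr_zero]
      have : val Ψ (fun _ => (1 : ℝ)) = fun _ => (1 : ℝ) := funext hone
      rw [this, ex_const]
      norm_num
    have h4 : corr 0 (pairSum Ψ (ll_co Q (fun _ => 1))) ≤ ∑ i, ex (hit Ψ Q i) ^ 2 := by
      refine (corr_mono le_rfl zero_le_one (ll_hit Ψ Q)).trans ?_
      rw [corr_sum]
      refine Finset.sum_le_sum fun i _ => ?_
      rw [corr_zero, sq]
    rw [e1, e0]
    linarith

end Pool.Agent.HYB
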