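import Pool.Agent.Lib_helper64.HYB.Core

/-!
# Hybrid algorithms with several coherent rounds: hypercontractivity
-/

set_option autoImplicit false
set_option linter.unusedSectionVars false

open Finset

namespace Pool.Agent.HYB

open Pool.Agent.Lib_helper8.QAA

variable {I : Type} [Fintype I] [DecidableEq I]

/-- the functions which depend on at most `d` coordinates -/
def mrJ (I : Type) (d : ℕ) : Set ((I → Bool) → ℂ) :=
  {g | ∃ S : Finset I, S.card ≤ d ∧ ∀ x y, (∀ i ∈ S, x i = y i) → g x = g y}

/-- the functions of degree at most `d` -/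
def Dg (d : ℕ) (F : (I → Bool) → ℂ) : Prop := F ∈ Submodule.span ℂ (mrJ I d)

lemma Dg.of_junta {d : ℕ} {F : (I → Bool) → ℂ} (S : Finset I) (hS : S.card ≤ d)
    (h : ∀ x y, (∀ i ∈ S, x i = y i) → F x = F y) : Dg d F :=
  Submodule.subset_span ⟨S, hS, h⟩

lemma Dg.const (d : ℕ) (c : ℂ) : Dg d (fun _ : I → Bool => c) :=
  Dg.of_junta ∅ (by simp) (fun _ _ _ => rfl)

lemma Dg.mono {d e : ℕ} (h : d ≤ e) {F : (I → Bool) → ℂ} (hF : Dg d F) : Dg e F :=
  Submodule.span_mono (s := mrJ I d) (t := mrJ I e)
    (fun _ hg => by obtain ⟨S, hS, hg⟩ := hg; exact ⟨S, hS.trans h, hg⟩) hF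

lemma Dg.add {d : ℕ} {F G : (I → Bool) → ℂ} (hF : Dg d F) (hG : Dg d G) :
    Dg d (fun x => F x + G x) := Submodule.add_mem _ hF hG

lemma Dg.sum {d : ℕ} {α : Type} (s : Finset α) {F : α → (I → Bool) → ℂ}
    (hF : ∀ a ∈ s, Dg d (F a)) : Dg d (fun x => ∑ a ∈ s, F a x) := by
  have : (fun x => ∑ a ∈ s, F a x) = ∑ a ∈ s, F a := by
    funext x; rw [Finset.sum_apply]
  rw [this]
  exact Submodule.sum_mem _ hF

lemma Dg.mul {d e : ℕ} {F G : (I → Bool) → ℂ} (hF : Dg d F) (hG : Dg e G) :
    Dg (d + e) (fun x => F x * G x) := by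
  unfold Dg at hF hG
  refine Submodule.span_induction₂
    (p := fun F G _ _ => Dg (d + e) (fun x => F x * G x)) ?_ ?_ ?_ ?_ ?_ ?_ ?_ hF hG
  · rintro f g ⟨S, hS, hf⟩ ⟨S', hS', hg⟩
    refine Dg.of_junta (S ∪ S') ((card_union_le _ _).trans (by omega)) fun x y h => ?_
    rw [hf x y fun i hi => h i (mem_union_left _ hi), hg x y fun i hi => h i (mem_union_right _ hi)]
  · intro g _
    simpa using Dg.const (I := I) (d + e) 0
  · intro g _
    simpa using Dg.const (I := I) (d + e) 0
  · intro a b c _ _ _ h1 h2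
    have := h1.add h2
    simpa [add_mul] using this
  · intro a b c _ _ _ h1 h2
    have := h1.add h2
    simpa [mul_add] using this
  · intro r a b _ _ h1
    have : Dg (d + e) (r • fun x => a x * b x) := Submodule.smul_mem _ r h1
    have e1 : (r • fun x => a x * b x) = fun x => (r • a) x * b x := by
      funext x; simp [mul_assoc]
    rwa [e1] at this
  · intro r a b _ _ h1
    have : Dg (d + e) (r • fun x => a x * b x) := Submodule.smul_mem _ r h1
    have e1 : (r • fun x => a x * b x) = fun x => a x * (r • b) x := by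
      funext x; simp [mul_left_comm]
    rwa [e1] at this

lemma Dg.const_mul {d : ℕ} {F : (I → Bool) → ℂ} (c : ℂ) (hF : Dg d F) :
    Dg d (fun x => c * F x) := by
  have := (Dg.const (I := I) 0 c).mul hF
  rwa [zero_add] at this

lemma Dg.pow {d : ℕ} {F : (I → Bool) → ℂ} (hF : Dg d F) (k : ℕ) :
    Dg (d * k) (fun x => F x ^ k) := by
  induction k with
  | zero => simpa using Dg.const (I := I) 0 1
  | succ k ih =>
    have := ih.mul hF
    rw [Nat.mul_succ]
    simpa [pow_succ] using this

lemma Dg.conj {d : ℕ} {F : (I → Bool) → ℂ} (hF : Dg d F) :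
    Dg d (fun x => (starRingEnd ℂ) (F x)) := by
  unfold Dg at hF
  refine Submodule.span_induction (p := fun F _ => Dg d (fun x => (starRingEnd ℂ) (F x)))
    ?_ ?_ ?_ ?_ hF
  · rintro f ⟨S, hS, hf⟩
    exact Dg.of_junta S hS fun x y h => by rw [hf x y h]
  · simpa using Dg.const (I := I) d 0
  · intro a b _ _ h1 h2
    have := h1.add h2
    simpa using this
  · intro r a _ h1
    have := h1.const_mul ((starRingEnd ℂ) r)
    simpa using this

lemma Dg.norm_sq {d : ℕ} {F : (I → Bool) → ℂ} (hF : Dg d F) :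
    Dg (2 * d) (fun x => ((‖F x‖ ^ 2 : ℝ) : ℂ)) := by
  have := hF.mul hF.conj
  rw [← two_mul] at this
  have e1 : (fun x => F x * (starRingEnd ℂ) (F x)) = fun x => ((‖F x‖ ^ 2 : ℝ) : ℂ) := by
    funext x
    rw [Complex.mul_conj']
    push_cast
    rfl
  rwa [e1] at this

/-- restriction of one coordinate -/
lemma Dg.update {d : ℕ} {F : (I → Bool) → ℂ} (hF : Dg d F) (i : I) (b : Bool) :
    Dg d (fun x => F (Function.update x i b)) := by
  unfold Dg at hF
  refine Submodule.span_induction (p := fun F _ => Dg d (fun x => F (Function.update x i b)))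
    ?_ ?_ ?_ ?_ hF
  · rintro f ⟨S, hS, hf⟩
    refine Dg.of_junta S hS fun x y h => hf _ _ fun j hj => ?_
    by_cases hji : j = i
    · subst hji; simp
    · rw [Function.update_of_ne hji, Function.update_of_ne hji, h j hj]
  · simpa using Dg.const (I := I) d 0
  · intro a b _ _ h1 h2
    have := h1.add h2
    simpa using this
  · intro r a _ h1
    have := h1.const_mul r
    simpa using this

/-- the derivative has smaller degree -/
lemma Dg.diff {d : ℕ} {F : (I → Bool) → ℂ} (hF : Dg d F) (i : I) :
    (d = 0 ∧ ∀ x, F (Function.update x i false) = F (Function.update x i true)) ∨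
    (0 < d ∧ Dg (d - 1) (fun x => F (Function.update x i false) - F (Function.update x i true))) := by
  unfold Dg at hF
  rcases Nat.eq_zero_or_pos d with h0 | h0
  · left
    refine ⟨h0, ?_⟩
    refine Submodule.span_induction
      (p := fun F _ => ∀ x, F (Function.update x i false) = F (Function.update x i true))
      ?_ ?_ ?_ ?_ hF
    · rintro f ⟨S, hS, hf⟩ x
      have : S = ∅ := by
        rw [← Finset.card_eq_zero]; omega
      exact hf _ _ (by rw [this]; simp)
    · intro x; rfl
    · intro a b _ _ h1 h2 x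
      simp only [Pi.add_apply, h1 x, h2 x]
    · intro r a _ h1 x
      simp only [Pi.smul_apply, h1 x]
  · right
    refine ⟨h0, ?_⟩
    refine Submodule.span_induction
      (p := fun F _ => Dg (d - 1)
        (fun x => F (Function.update x i false) - F (Function.update x i true))) ?_ ?_ ?_ ?_ hF
    · rintro f ⟨S, hS, hf⟩
      by_cases hi : i ∈ S
      · refine Dg.of_junta (S.erase i) (by rw [card_erase_of_mem hi]; omega) fun x y h => ?_
        have h1 : ∀ b, f (Function.update x i b) = f (Function.update y i b) := by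
          intro b
          refine hf _ _ fun j hj => ?_
          by_cases hji : j = i
          · subst hji; simp
          · rw [Function.update_of_ne hji, Function.update_of_ne hji,
              h j (mem_erase.2 ⟨hji, hj⟩)]
        rw [h1, h1]
      · have h1 : (fun x => f (Function.update x i false) - f (Function.update x i true)) =
            fun _ => (0 : ℂ) := by
          funext x
          rw [hf (Function.update x i false) (Function.update x i true), sub_self]
          intro j hj
          have hji : j ≠ i := fun h => hi (h ▸ hj)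
          rw [Function.update_of_ne hji, Function.update_of_ne hji]
        rw [h1]
        exact Dg.const _ 0
    · simpa using Dg.const (I := I) (d - 1) 0
    · intro a b _ _ h1 h2
      have := h1.add h2
      refine (congrArg (Dg (d - 1)) ?_).mp this
      funext x
      simp only [Pi.add_apply]
      ring
    · intro r a _ h1
      have := h1.const_mul r
      refine (congrArg (Dg (d - 1)) ?_).mp this
      funext x
      simp only [Pi.smul_apply, smul_eq_mul]
      ring

/-- **Hypercontractivity**, the (4, 2) inequality. -/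
theorem hyp_four (S : Finset I) : ∀ (d : ℕ) (f : (I → Bool) → ℝ),
    (∀ x y, (∀ i ∈ S, x i = y i) → f x = f y) → Dg d (fun x => (f x : ℂ)) →
    ex (fun x => f x ^ 4) ≤ 9 ^ d * ex (fun x => f x ^ 2) ^ 2 := by
  induction S using Finset.induction_on with
  | empty =>
    intro d f hf _
    have h1 : ∃ c, ∀ x, f x = c := ⟨f (fun _ => false), fun x => hf _ _ (by simp)⟩
    obtain ⟨c, hc⟩ := h1
    simp only [hc, ex_const]
    have h2 : (1 : ℝ) ≤ 9 ^ d := one_le_pow₀ (by norm_num)
    have h3 : 0 ≤ (c ^ 2) ^ 2 := by positivity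
    calc c ^ 4 = 1 * (c ^ 2) ^ 2 := by ring
      _ ≤ 9 ^ d * (c ^ 2) ^ 2 := by gcongr
  | insert i S hi ih =>
    intro d f hf hd
    set g : (I → Bool) → ℝ := fun x =>
      (f (Function.update x i false) + f (Function.update x i true)) / 2 with hg
    set h : (I → Bool) → ℝ := fun x =>
      (f (Function.update x i false) - f (Function.update x i true)) / 2 with hh
    have hdep : ∀ b x y, (∀ j ∈ S, x j = y j) →
        f (Function.update x i b) = f (Function.update y i b) := by
      intro b x y hxy
      refine hf _ _ fun j hj => ?_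
      by_cases hji : j = i
      · subst hji; simp
      · rw [Function.update_of_ne hji, Function.update_of_ne hji]
        exact hxy j ((mem_insert.1 hj).resolve_left hji)
    have hgd : ∀ x y, (∀ j ∈ S, x j = y j) → g x = g y := by
      intro x y hxy
      rw [hg]; simp only; rw [hdep false x y hxy, hdep true x y hxy]
    have hhd : ∀ x y, (∀ j ∈ S, x j = y j) → h x = h y := by
      intro x y hxy
      rw [hh]; simp only; rw [hdep false x y hxy, hdep true x y hxy]
    have hgD : Dg d (fun x => (g x : ℂ)) := by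
      have := ((hd.update i false).add (hd.update i true)).const_mul (1 / 2)
      refine (congrArg (Dg d) ?_).mp this
      funext x
      rw [hg]
      push_cast
      ring
    have h0 : ∀ x, f (Function.update x i false) = g x + h x := by
      intro x; rw [hg, hh]; simp only; ring
    have h1 : ∀ x, f (Function.update x i true) = g x - h x := by
      intro x; rw [hg, hh]; simp only; ring
    have e2 : ex (fun x => f x ^ 2) = ex (fun x => g x ^ 2) + ex (fun x => h x ^ 2) := by
      have e1 := ex_update i (fun x => f x ^ 2)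
      rw [← e1]
      simp only [h0, h1]
      rw [← ex_add, ← ex_add]
      have : (fun x => (g x + h x) ^ 2 + (g x - h x) ^ 2) =
          fun x => 2 * (g x ^ 2 + h x ^ 2) := by
        funext x; ring
      rw [this, ex_const_mul]
      ring
    have e4 : ex (fun x => f x ^ 4) =
        ex (fun x => g x ^ 4) + 6 * ex (fun x => g x ^ 2 * h x ^ 2) + ex (fun x => h x ^ 4) := by
      have e1 := ex_update i (fun x => f x ^ 4)
      rw [← e1]
      simp only [h0, h1]
      rw [← ex_const_mul, ← ex_add, ← ex_add, ← ex_add]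
      have : (fun x => (g x + h x) ^ 4 + (g x - h x) ^ 4) =
          fun x => 2 * (g x ^ 4 + 6 * (g x ^ 2 * h x ^ 2) + h x ^ 4) := by
        funext x; ring
      rw [this, ex_const_mul]
      ring
    have hg4 := ih d g hgd hgD
    set a := ex (fun x => g x ^ 2) with ha
    set b := ex (fun x => h x ^ 2) with hb
    have ha0 : 0 ≤ a := ex_nonneg fun x => by positivity
    have hb0 : 0 ≤ b := ex_nonneg fun x => by positivity
    rw [e2, e4]
    rcases hd.diff i with ⟨hd0, hdx⟩ | ⟨hd0, hdx⟩
    · have hh0 : ∀ x, h x = 0 := by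
        intro x
        rw [hh]
        simp only
        have := hdx x
        have h3 : f (Function.update x i false) = f (Function.update x i true) := by
          exact_mod_cast this
        rw [h3]; ring
      have hb' : b = 0 := by rw [hb]; simp only [hh0]; simp [ex_const]
      have h5 : ex (fun x => g x ^ 2 * h x ^ 2) = 0 := by simp only [hh0]; simp [ex_const]
      have h6 : ex (fun x => h x ^ 4) = 0 := by simp only [hh0]; simp [ex_const]
      rw [h5, h6, hb']
      simpa using hg4
    · have hhD : Dg (d - 1) (fun x => (h x : ℂ)) := by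
        have := hdx.const_mul (1 / 2)
        refine (congrArg (Dg (d - 1)) ?_).mp this
        funext x
        rw [hh]
        push_cast
        ring
      have hh4 := ih (d - 1) h hhd hhD
      obtain ⟨c, rfl⟩ : ∃ c, d = c + 1 := ⟨d - 1, by omega⟩
      rw [Nat.add_sub_cancel] at hh4
      have hcs : ex (fun x => g x ^ 2 * h x ^ 2) ≤ 3 * 9 ^ c * a * b := by
        have h3 := ex_cauchy (fun x => g x ^ 2) (fun x => h x ^ 2)
        have e5 : (fun x => (g x ^ 2) ^ 2) = fun x => g x ^ 4 := by funext x; ring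
        have e6 : (fun x => (h x ^ 2) ^ 2) = fun x => h x ^ 4 := by funext x; ring
        rw [e5, e6] at h3
        have h4 : ex (fun x => g x ^ 2 * h x ^ 2) ^ 2 ≤ (3 * 9 ^ c * a * b) ^ 2 := by
          refine h3.trans ?_
          have h7 : 0 ≤ ex (fun x => h x ^ 4) := ex_nonneg fun x => by positivity
          calc ex (fun x => g x ^ 4) * ex (fun x => h x ^ 4)
              ≤ (9 ^ (c + 1) * a ^ 2) * (9 ^ c * b ^ 2) :=
                mul_le_mul hg4 hh4 h7 (by positivity)
            _ = (3 * 9 ^ c * a * b) ^ 2 := by ring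
        exact (abs_le_of_sq_le_sq' h4 (by positivity)).2
      have h9 : 9 ^ c * b ^ 2 ≤ 9 ^ (c + 1) * b ^ 2 := by
        have : (9 : ℝ) ^ c ≤ 9 ^ (c + 1) := by
          rw [pow_succ]
          have : (0:ℝ) ≤ 9 ^ c := by positivity
          linarith
        exact mul_le_mul_of_nonneg_right this (by positivity)
      calc ex (fun x => g x ^ 4) + 6 * ex (fun x => g x ^ 2 * h x ^ 2) + ex (fun x => h x ^ 4)
          ≤ 9 ^ (c + 1) * a ^ 2 + 6 * (3 * 9 ^ c * a * b) + 9 ^ (c + 1) * b ^ 2 := by
            linarith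
        _ = 9 ^ (c + 1) * (a + b) ^ 2 := by ring

theorem hyp4 {d : ℕ} {f : (I → Bool) → ℝ} (hd : Dg d (fun x => (f x : ℂ))) :
    ex (fun x => f x ^ 4) ≤ 9 ^ d * ex (fun x => f x ^ 2) ^ 2 :=
  hyp_four univ d f (fun x y h => by
    have : x = y := funext fun i => h i (mem_univ i)
    rw [this]) hd

/-- the second moment of a nonnegative function of small degree -/
theorem hyp_two {d : ℕ} {f : (I → Bool) → ℝ} (hf : ∀ x, 0 ≤ f x)
    (hd : Dg d (fun x => (f x : ℂ))) :
    ex (fun x => f x ^ 2) ≤ 9 ^ d * ex f ^ 2 := by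
  have h4 := hyp4 hd
  set a := ex f with ha
  set b := ex (fun x => f x ^ 2) with hb
  have ha0 : 0 ≤ a := ex_nonneg hf
  have hb0 : 0 ≤ b := ex_nonneg fun x => by positivity
  rcases hb0.eq_or_lt with hb1 | hb1
  · rw [← hb1]; positivity
  -- b² ≤ a E f³ and (E f³)² ≤ b E f⁴
  have h1 : b ^ 2 ≤ a * ex (fun x => f x ^ 3) := by
    have := ex_cauchy (fun x => √(f x)) (fun x => √(f x) * f x)
    have e1 : (fun x => √(f x) * (√(f x) * f x)) = fun x => f x ^ 2 := by
      funext x
      rw [← mul_assoc, Real.mul_self_sqrt (hf x)]; ring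
    have e2 : (fun x => √(f x) ^ 2) = f := by
      funext x
      rw [Real.sq_sqrt (hf x)]
    have e3 : (fun x => (√(f x) * f x) ^ 2) = fun x => f x ^ 3 := by
      funext x
      rw [mul_pow, Real.sq_sqrt (hf x)]; ring
    rw [e1, e2, e3] at this
    exact this
  have h2 : ex (fun x => f x ^ 3) ^ 2 ≤ b * ex (fun x => f x ^ 4) := by
    have := ex_cauchy f (fun x => f x ^ 2)
    have e1 : (fun x => f x * f x ^ 2) = fun x => f x ^ 3 := by funext x; ring
    have e2 : (fun x => (f x ^ 2) ^ 2) = fun x => f x ^ 4 := by funext x; ring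
    rw [e1, e2] at this
    exact this
  have h3 : b ^ 4 ≤ a ^ 2 * (b * (9 ^ d * b ^ 2)) := by
    calc b ^ 4 = (b ^ 2) ^ 2 := by ring
      _ ≤ (a * ex (fun x => f x ^ 3)) ^ 2 := pow_le_pow_left₀ (by positivity) h1 2
      _ = a ^ 2 * ex (fun x => f x ^ 3) ^ 2 := by ring
      _ ≤ a ^ 2 * (b * ex (fun x => f x ^ 4)) := by gcongr
      _ ≤ a ^ 2 * (b * (9 ^ d * b ^ 2)) := by gcongr
  have h5 : b ^ 3 * b ≤ b ^ 3 * (9 ^ d * a ^ 2) := by
    calc b ^ 3 * b = b ^ 4 := by ring
      _ ≤ a ^ 2 * (b * (9 ^ d * b ^ 2)) := h3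
      _ = b ^ 3 * (9 ^ d * a ^ 2) := by ring
  exact le_of_mul_le_mul_left h5 (by positivity)

/-- the moments of a nonnegative function of small degree -/
theorem hyp_pow {d : ℕ} {f : (I → Bool) → ℝ} (hf : ∀ x, 0 ≤ f x)
    (hd : Dg d (fun x => (f x : ℂ))) (k : ℕ) :
    ex (fun x => f x ^ 2 ^ (k + 1)) ≤ (3 ^ (d * (k + 2) * 2 ^ k)) * ex f ^ 2 ^ (k + 1) := by
  induction k with
  | zero =>
    have h := hyp_two hf hd
    have e1 : (3 : ℝ) ^ (d * (0 + 2) * 2 ^ 0) = 9 ^ d := by
      rw [show d * (0 + 2) * 2 ^ 0 = 2 * d by ring, pow_mul]; norm_num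
    rw [e1]
    simpa using h
  | succ k ih =>
    have h1 : Dg (d * 2 ^ k) (fun x => ((f x ^ 2 ^ k : ℝ) : ℂ)) := by
      have := hd.pow (2 ^ k)
      refine (congrArg (Dg (d * 2 ^ k)) ?_).mp this
      funext x
      push_cast
      rfl
    have h2 := hyp4 h1
    have e1 : (fun x => (f x ^ 2 ^ k) ^ 4) = fun x => f x ^ 2 ^ (k + 1 + 1) := by
      funext x
      rw [← pow_mul]
      congr 1
      ring
    have e2 : (fun x => (f x ^ 2 ^ k) ^ 2) = fun x => f x ^ 2 ^ (k + 1) := by
      funext x
      rw [← pow_mul]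
      congr 1
    rw [e1, e2] at h2
    have h3 : 0 ≤ ex (fun x => f x ^ 2 ^ (k + 1)) := ex_nonneg fun x => pow_nonneg (hf x) _
    calc ex (fun x => f x ^ 2 ^ (k + 1 + 1))
        ≤ 9 ^ (d * 2 ^ k) * ex (fun x => f x ^ 2 ^ (k + 1)) ^ 2 := h2
      _ ≤ 9 ^ (d * 2 ^ k) * ((3 ^ (d * (k + 2) * 2 ^ k)) * ex f ^ 2 ^ (k + 1)) ^ 2 := by gcongr
      _ = (3 ^ (d * (k + 1 + 2) * 2 ^ (k + 1))) * ex f ^ 2 ^ (k + 1 + 1) := by
          rw [mul_pow, ← pow_mul, ← pow_mul, show (9 : ℝ) = 3 ^ 2 by norm_num, ← pow_mul,
            ← mul_assoc, ← pow_add]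
          congr 2
          ring

end Pool.Agent.HYB
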