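import Pool.Agent.Lib_helper64.HYB.Core

/-!
# Restrictions of tame families

Written by helper8.
-/

/-!
# HYB, block RE: restriction of a tame family
-/

set_option autoImplicit false
set_option linter.unusedSectionVars false

open Finset

namespace Pool.Agent.HYB

open Pool.Agent.Lib_helper8.QAA

variable {I : Type} [Fintype I] [DecidableEq I]

variable {Ω : Type} [Fintype Ω]

theorem re_upd_ne {i j : I} (hij : j ≠ i) (x : I → Bool) (c : Bool) :
    Function.update (Lib_helper8.QAA.flip j x) i c =
      Lib_helper8.QAA.flip j (Function.update x i c) := by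
  funext k
  unfold Lib_helper8.QAA.flip
  by_cases hk : k = i
  · subst hk
    rw [Function.update_self, Function.update_of_ne (Ne.symm hij), Function.update_self]
  · by_cases hk' : k = j
    · subst hk'
      rw [Function.update_of_ne hk, Function.update_self, Function.update_self,
        Function.update_of_ne hk]
    · rw [Function.update_of_ne hk, Function.update_of_ne hk', Function.update_of_ne hk',
        Function.update_of_ne hk]

theorem re_upd_self (i : I) (x : I → Bool) (c : Bool) :
    Function.update (Lib_helper8.QAA.flip i x) i c = Function.update x i c := by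
  unfold Lib_helper8.QAA.flip
  rw [Function.update_idem]

theorem re_dv_self (Ψ : (I → Bool) → EuclideanSpace ℂ Ω) (i : I) (c : Bool) (x : I → Bool) :
    dv (fun x => Ψ (Function.update x i c)) i x = 0 := by
  unfold dv
  simp only [re_upd_self, sub_self, smul_zero]

theorem re_dv_ne (Ψ : (I → Bool) → EuclideanSpace ℂ Ω) {i j : I} (hij : j ≠ i) (c : Bool)
    (x : I → Bool) :
    dv (fun x => Ψ (Function.update x i c)) j x = dv Ψ j (Function.update x i c) := by
  unfold dv
  simp only [re_upd_ne hij]

theorem Tame.restrict {Ψ : (I → Bool) → EuclideanSpace ℂ Ω} {Q : Ω → Finset I}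
    {M : (I → Bool) → ℝ} {κ b : ℝ} (hT : Tame Ψ Q M κ b) (i : I) (c : Bool) :
    Tame (fun x => Ψ (Function.update x i c)) (fun τ => (Q τ).erase i)
      (fun x => M (Function.update x i c)) κ b := by
  obtain ⟨L, hL1, hL2, hL3⟩ := hT.split
  have h02 : (0 : ℝ) ^ 2 = 0 := by norm_num
  refine ⟨fun x => hT.norm_eq _, fun x => hT.M_nonneg _, hT.κ_nonneg, hT.b_nonneg, fun x => ?_,
    fun j x => if j = i then 0 else L j (Function.update x i c), ?_, ?_, ?_⟩
  · refine le_trans (sum_le_sum fun j _ => ?_) (hT.deriv_le (Function.update x i c))
    by_cases hj : j = i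
    · subst hj
      rw [re_dv_self, norm_zero, h02]
      positivity
    · rw [re_dv_ne Ψ hj]
  · intro j x τ hj
    beta_reduce
    by_cases hji : j = i
    · subst hji
      rw [re_dv_self, if_pos rfl]
    · rw [if_neg hji, re_dv_ne Ψ hji]
      refine hL1 j _ τ fun h => hj ?_
      rw [mem_erase]
      exact ⟨hji, h⟩
  · intro x v
    beta_reduce
    have h1 := hL2 (Function.update x i c) (fun j => if j = i then 0 else v j)
    have e1 : ∑ j, v j • (if j = i then (0 : EuclideanSpace ℂ Ω) else
        L j (Function.update x i c)) =
        ∑ j, (if j = i then (0 : ℂ) else v j) • L j (Function.update x i c) := by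
      refine sum_congr rfl fun j _ => ?_
      by_cases hj : j = i
      · rw [if_pos hj, if_pos hj, smul_zero, zero_smul]
      · rw [if_neg hj, if_neg hj]
    rw [e1]
    refine le_trans h1 (mul_le_mul_of_nonneg_left (sum_le_sum fun j _ => ?_) hT.κ_nonneg)
    by_cases hj : j = i
    · rw [if_pos hj, norm_zero, h02, zero_mul]
      exact mul_nonneg (by positivity) (hT.M_nonneg _)
    · rw [if_neg hj, re_upd_ne hj]
  · intro x
    beta_reduce
    refine le_trans (sum_le_sum fun j _ => ?_) (hL3 (Function.update x i c))
    by_cases hj : j = i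
    · subst hj
      rw [re_dv_self, if_pos rfl, sub_zero, norm_zero, h02]
      positivity
    · rw [if_neg hj, re_dv_ne Ψ hj, re_upd_ne hj]


end Pool.Agent.HYB
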