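import Pool.Agent.Lib_helper64.HYB.LL
import Pool.Agent.Lib_helper64.HYB.RE

/-!
# The decision tree

Written by helper4.
-/

/-!
# HYB block TR: the decision tree
-/

set_option autoImplicit false
set_option linter.unusedSectionVars false

open Finset

namespace Pool.Agent.HYB

open Pool.Agent.Lib_helper8.QAA

variable {I : Type} [Fintype I] [DecidableEq I]

variable {Ω : Type} [Fintype Ω]

theorem tr_hit_nonneg (Ψ : (I → Bool) → EuclideanSpace ℂ Ω) (Q : Ω → Finset I) (i : I)
    (x : I → Bool) : 0 ≤ hit Ψ Q i x := by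
  unfold hit
  refine Finset.sum_nonneg fun τ _ => ?_
  split_ifs
  · positivity
  · exact le_rfl

theorem tr_val_nonneg (Ψ : (I → Bool) → EuclideanSpace ℂ Ω) {g : Ω → ℝ} (hg0 : ∀ τ, 0 ≤ g τ)
    (x : I → Bool) : 0 ≤ val Ψ g x :=
  Finset.sum_nonneg fun τ _ => mul_nonneg (hg0 τ) (by positivity)

theorem tr_val_le {Ψ : (I → Bool) → EuclideanSpace ℂ Ω} (hn : ∀ x, ‖Ψ x‖ = 1) {g : Ω → ℝ}
    (hg1 : ∀ τ, g τ ≤ 1) (x : I → Bool) : val Ψ g x ≤ 1 := by
  unfold val
  calc ∑ τ, g τ * ‖Ψ x τ‖ ^ 2 ≤ ∑ τ, 1 * ‖Ψ x τ‖ ^ 2 :=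
        Finset.sum_le_sum fun τ _ => mul_le_mul_of_nonneg_right (hg1 τ) (by positivity)
    _ = ‖Ψ x‖ ^ 2 := by
        rw [EuclideanSpace.norm_sq_eq]
        simp
    _ = 1 := by rw [hn, one_pow]

theorem tr_not_mem {Ψ : (I → Bool) → EuclideanSpace ℂ Ω} {Q : Ω → Finset I} {i : I}
    (h : i ∉ Finset.univ.biUnion Q) (x : I → Bool) : hit Ψ Q i x = 0 := by
  unfold hit
  refine Finset.sum_eq_zero fun τ _ => ?_
  rw [if_neg fun hi => h (Finset.mem_biUnion.2 ⟨τ, Finset.mem_univ _, hi⟩)]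

theorem tr_leaf {κ b θ : ℝ} (hθ : 0 < θ) {g : Ω → ℝ} (hg0 : ∀ τ, 0 ≤ g τ)
    (hg1 : ∀ τ, g τ ≤ 1) (Ψ : (I → Bool) → EuclideanSpace ℂ Ω) (Q : Ω → Finset I)
    (M : (I → Bool) → ℝ) (hT : Tame Ψ Q M κ b) (hl : ∀ i, ex (hit Ψ Q i) ≤ θ) :
    ∃ t : (I → Bool) → ℝ, CompE ((∑ i, ex (hit Ψ Q i)) / θ) t ∧ (∀ x, |t x| ≤ 1) ∧
      ex (fun x => (val Ψ g x - t x) ^ 2) ≤
        32 * √(κ * b ^ 2 * ex M) + θ * ∑ i, ex (hit Ψ Q i) ∧
      ∀ i ∉ Finset.univ.biUnion Q, ∀ x, t (flip i x) = t x := by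
  have hh0 : ∀ i, 0 ≤ ex (hit Ψ Q i) := fun i => ex_nonneg fun x => tr_hit_nonneg Ψ Q i x
  refine ⟨fun _ => ex (val Ψ g), CompE.leaf _ _ _
    (div_nonneg (Finset.sum_nonneg fun i _ => hh0 i) hθ.le) (fun _ => rfl), fun _ => ?_, ?_,
    fun _ _ _ => rfl⟩
  · refine (abs_ex_le _).trans ?_
    have h1 : ∀ x, |val Ψ g x| ≤ 1 := fun x => by
      rw [abs_of_nonneg (tr_val_nonneg Ψ hg0 x)]
      exact tr_val_le hT.norm_eq hg1 x
    have := ex_mono h1
    rwa [ex_const] at this
  · have h1 : ex (fun x => (val Ψ g x - ex (val Ψ g)) ^ 2) =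
        ex (fun x => val Ψ g x ^ 2) - ex (val Ψ g) ^ 2 := by
      have h2 : (fun x => (val Ψ g x - ex (val Ψ g)) ^ 2) =
          fun x => (val Ψ g x ^ 2 - (2 * ex (val Ψ g)) * val Ψ g x) + ex (val Ψ g) ^ 2 := by
        funext x; ring
      rw [h2, ex_add, ex_sub, ex_const_mul, ex_const]
      ring
    rw [h1]
    refine (light_lemma hT hg0 hg1).trans ?_
    rw [Finset.mul_sum]
    gcongr with i
    rw [sq]
    exact mul_le_mul_of_nonneg_right (hl i) (hh0 i)

theorem tr_hit_restrict (Ψ : (I → Bool) → EuclideanSpace ℂ Ω) (Q : Ω → Finset I) (i : I)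
    (c : Bool) (j : I) (x : I → Bool) :
    hit (fun x => Ψ (Function.update x i c)) (fun τ => (Q τ).erase i) j x =
      if j = i then 0 else hit Ψ Q j (Function.update x i c) := by
  unfold hit
  split_ifs with h
  · subst h
    refine Finset.sum_eq_zero fun τ _ => ?_
    rw [if_neg (Finset.notMem_erase _ _)]
  · refine Finset.sum_congr rfl fun τ _ => ?_
    by_cases h1 : j ∈ Q τ
    · rw [if_pos (Finset.mem_erase.2 ⟨h, h1⟩), if_pos h1]
    · rw [if_neg fun h2 => h1 (Finset.mem_erase.1 h2).2, if_neg h1]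

theorem tr_sum (Ψ : (I → Bool) → EuclideanSpace ℂ Ω) (Q : Ω → Finset I) (i : I) :
    (∑ j, ex (hit (fun x => Ψ (Function.update x i false)) (fun τ => (Q τ).erase i) j) +
      ∑ j, ex (hit (fun x => Ψ (Function.update x i true)) (fun τ => (Q τ).erase i) j)) / 2 =
      ∑ j, ex (hit Ψ Q j) - ex (hit Ψ Q i) := by
  have h0 : ∀ c j, ex (hit (fun x => Ψ (Function.update x i c)) (fun τ => (Q τ).erase i) j) =
      if j = i then 0 else ex (fun x => hit Ψ Q j (Function.update x i c)) := by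
    intro c j
    split_ifs with h
    · have h1 : hit (fun x => Ψ (Function.update x i c)) (fun τ => (Q τ).erase i) j =
          fun _ => 0 := by
        funext x
        rw [tr_hit_restrict, if_pos h]
      rw [h1, ex_const]
    · congr 1
      funext x
      rw [tr_hit_restrict, if_neg h]
  simp_rw [h0]
  rw [← Finset.sum_add_distrib, Finset.sum_div,
    ← Finset.add_sum_erase _ (fun j => ex (hit Ψ Q j)) (Finset.mem_univ i), add_sub_cancel_left,
    ← Finset.add_sum_erase _ _ (Finset.mem_univ i), if_pos rfl, if_pos rfl, add_zero, zero_div,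
    zero_add]
  refine Finset.sum_congr rfl fun j hj => ?_
  rw [if_neg (Finset.ne_of_mem_erase hj), if_neg (Finset.ne_of_mem_erase hj)]
  exact ex_update i (hit Ψ Q j)

theorem tr_sqrt (c m0 m1 : ℝ) (hc : 0 ≤ c) (h0 : 0 ≤ m0) (h1 : 0 ≤ m1) :
    (√(c * m0) + √(c * m1)) / 2 ≤ √(c * ((m0 + m1) / 2)) := by
  apply Real.le_sqrt_of_sq_le
  have e0 := Real.sq_sqrt (mul_nonneg hc h0)
  have e1 := Real.sq_sqrt (mul_nonneg hc h1)
  nlinarith [sq_nonneg (√(c * m0) - √(c * m1))]

theorem tame_tree {κ b θ : ℝ} (hθ : 0 < θ) {g : Ω → ℝ} (hg0 : ∀ τ, 0 ≤ g τ)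
    (hg1 : ∀ τ, g τ ≤ 1) (n : ℕ) : ∀ (Ψ : (I → Bool) → EuclideanSpace ℂ Ω) (Q : Ω → Finset I)
    (M : (I → Bool) → ℝ), Tame Ψ Q M κ b → (Finset.univ.biUnion Q).card ≤ n →
    ∃ t : (I → Bool) → ℝ, CompE ((∑ i, ex (hit Ψ Q i)) / θ) t ∧ (∀ x, |t x| ≤ 1) ∧
      ex (fun x => (val Ψ g x - t x) ^ 2) ≤
        32 * √(κ * b ^ 2 * ex M) + θ * ∑ i, ex (hit Ψ Q i) ∧
      ∀ i ∉ Finset.univ.biUnion Q, ∀ x, t (flip i x) = t x := by
  induction n with
  | zero =>
    intro Ψ Q M hT hQ
    have hact : Finset.univ.biUnion Q = ∅ := Finset.card_eq_zero.1 (Nat.le_zero.1 hQ)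
    refine tr_leaf hθ hg0 hg1 Ψ Q M hT fun i => ?_
    have h1 : hit Ψ Q i = fun _ => 0 := by
      funext x
      exact tr_not_mem (by rw [hact]; simp) x
    rw [h1, ex_const]
    exact hθ.le
  | succ n ih =>
    intro Ψ Q M hT hQ
    by_cases hlight : ∀ i, ex (hit Ψ Q i) ≤ θ
    · exact tr_leaf hθ hg0 hg1 Ψ Q M hT hlight
    · push Not at hlight
      obtain ⟨i, hi⟩ := hlight
      have hact : i ∈ Finset.univ.biUnion Q := by
        by_contra hcon
        have h1 : hit Ψ Q i = fun _ => 0 := by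
          funext x
          exact tr_not_mem hcon x
        rw [h1, ex_const] at hi
        linarith
      have hsub : Finset.univ.biUnion (fun τ => (Q τ).erase i) ⊆
          (Finset.univ.biUnion Q).erase i := by
        intro j hj
        obtain ⟨τ, -, hτ⟩ := Finset.mem_biUnion.1 hj
        obtain ⟨h1, h2⟩ := Finset.mem_erase.1 hτ
        exact Finset.mem_erase.2 ⟨h1, Finset.mem_biUnion.2 ⟨τ, Finset.mem_univ _, h2⟩⟩
      have hcard : (Finset.univ.biUnion fun τ => (Q τ).erase i).card ≤ n := by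
        have h1 := Finset.card_le_card hsub
        rw [Finset.card_erase_of_mem hact] at h1
        omega
      obtain ⟨g0, a1, a2, a3, a4⟩ := ih _ _ _ (hT.restrict i false) hcard
      obtain ⟨g1, b1, b2, b3, b4⟩ := ih _ _ _ (hT.restrict i true) hcard
      have hi0 : i ∉ Finset.univ.biUnion (fun τ => (Q τ).erase i) := fun h =>
        (Finset.mem_erase.1 (hsub h)).1 rfl
      have hs := tr_sum Ψ Q i
      refine ⟨fun x => if x i then g1 x else g0 x, ?_, ?_, ?_, ?_⟩
      · refine CompE.node _ _ _ i _ g0 g1 ?_ a1 b1 (a4 i hi0) (b4 i hi0) (fun _ => rfl)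
        rw [← add_div, div_div, mul_comm θ 2, ← div_div, hs, ← sub_nonneg]
        have h3 : (∑ j, ex (hit Ψ Q j)) / θ - (1 + (∑ j, ex (hit Ψ Q j) - ex (hit Ψ Q i)) / θ) =
            (ex (hit Ψ Q i) - θ) / θ := by
          field_simp
          ring
        rw [h3]
        exact div_nonneg (by linarith) hθ.le
      · intro x
        dsimp only
        split_ifs
        · exact b2 x
        · exact a2 x
      · have hu : ∀ (b : Bool) (x : I → Bool),
            Function.update (flip i x) i b = Function.update x i b := by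
          intro b x
          simp [Pool.Agent.Lib_helper8.QAA.flip]
        have key : ex (fun x => (val Ψ g x - (if x i then g1 x else g0 x)) ^ 2) =
            (ex (fun x => (val (fun x => Ψ (Function.update x i false)) g x - g0 x) ^ 2) +
              ex (fun x => (val (fun x => Ψ (Function.update x i true)) g x - g1 x) ^ 2)) / 2 := by
          have e : ∀ c x, val (fun x => Ψ (Function.update x i c)) g x =
              val Ψ g (Function.update x i c) := fun _ _ => rfl
          simp_rw [e]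
          rw [← ex_ite (i := i)
            (F := fun x => (val Ψ g (Function.update x i false) - g0 x) ^ 2)
            (G := fun x => (val Ψ g (Function.update x i true) - g1 x) ^ 2)
            (fun x => by rw [hu, a4 i hi0]) (fun x => by rw [hu, b4 i hi0])]
          congr 1
          funext x
          cases hx : x i with
          | true => rw [← hx, Function.update_eq_self]; simp [hx]
          | false => rw [← hx, Function.update_eq_self]; simp [hx]
        rw [key]
        have hM0 : ∀ c, 0 ≤ ex (fun x => M (Function.update x i c)) := fun c =>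
          ex_nonneg fun x => hT.M_nonneg _
        have hsq := tr_sqrt (κ * b ^ 2) (ex fun x => M (Function.update x i false))
          (ex fun x => M (Function.update x i true))
          (mul_nonneg hT.κ_nonneg (sq_nonneg b)) (hM0 false) (hM0 true)
        rw [ex_update i M] at hsq
        have hh0 : 0 ≤ ex (hit Ψ Q i) := ex_nonneg fun x => tr_hit_nonneg Ψ Q i x
        nlinarith [mul_nonneg hθ.le hh0]
      · intro j hj x
        have hji : j ≠ i := by
          rintro rfl
          exact hj hact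
        have hj' : j ∉ Finset.univ.biUnion (fun τ => (Q τ).erase i) := fun h =>
          hj (Finset.mem_erase.1 (hsub h)).2
        dsimp only
        rw [flip_apply_of_ne hji.symm, a4 j hj', b4 j hj']


end Pool.Agent.HYB
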